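import Mathlib

/-!
# MP_c25811_nt: the series of the multiple polylogarithms and their derivatives

An index `(k_1, ..., k_n)` is represented by the list `[k_n, ..., k_1]`.
-/

set_option autoImplicit false

open Set Filter Topology

namespace Pool.Agent.MPc258

/-- `hs [k_n, ..., k_1] N = ∑ 1 / (m_1 ^ k_1 ⋯ m_n ^ k_n)` over `0 < m_1 < ... < m_n ≤ N` -/
noncomputable def hs : List ℕ → ℕ → ℝ
  | [], _ => 1
  | (k :: l), N => ∑ m ∈ Finset.range N, hs l m / ((m : ℝ) + 1) ^ k

/-- the series `∑ z ^ m_n / (m_1 ^ k_1 ⋯ m_n ^ k_n)` over `0 < m_1 < ... < m_n` -/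
noncomputable def Li : List ℕ → ℂ → ℂ
  | [], _ => 1
  | (k :: l), z => ∑' m : ℕ, ((hs l m / ((m : ℝ) + 1) ^ k : ℝ) : ℂ) * z ^ (m + 1)

theorem hs_nonneg (l : List ℕ) (N : ℕ) : 0 ≤ hs l N := by
  induction l generalizing N with
  | nil => simp [hs]
  | cons k l ih =>
    rw [hs]
    exact Finset.sum_nonneg fun m _ => div_nonneg (ih m) (by positivity)

theorem hs_le (l : List ℕ) (N : ℕ) : hs l N ≤ (N : ℝ) ^ l.length := by
  induction l generalizing N with
  | nil => simp [hs]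
  | cons k l ih =>
    rw [hs, List.length_cons, pow_succ]
    calc ∑ m ∈ Finset.range N, hs l m / ((m : ℝ) + 1) ^ k
        ≤ ∑ _m ∈ Finset.range N, (N : ℝ) ^ l.length := by
          refine Finset.sum_le_sum fun m hm => ?_
          have h1 : (1 : ℝ) ≤ ((m : ℝ) + 1) ^ k := one_le_pow₀ (by
            have : (0 : ℝ) ≤ m := Nat.cast_nonneg m
            linarith)
          have h2 : (m : ℝ) ≤ N := by exact_mod_cast (Finset.mem_range.1 hm).le
          calc hs l m / ((m : ℝ) + 1) ^ k ≤ hs l m / 1 :=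
                div_le_div_of_nonneg_left (hs_nonneg l m) one_pos h1
            _ = hs l m := div_one _
            _ ≤ (m : ℝ) ^ l.length := ih m
            _ ≤ (N : ℝ) ^ l.length := pow_le_pow_left₀ (Nat.cast_nonneg m) h2 _
      _ = (N : ℝ) ^ l.length * N := by
          rw [Finset.sum_const, Finset.card_range, nsmul_eq_mul]
          ring

/-- the coefficients -/
noncomputable def cf (k : ℕ) (l : List ℕ) (m : ℕ) : ℝ := hs l m / ((m : ℝ) + 1) ^ k

theorem cf_nonneg (k : ℕ) (l : List ℕ) (m : ℕ) : 0 ≤ cf k l m :=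
  div_nonneg (hs_nonneg l m) (by positivity)

theorem cf_le (k : ℕ) (l : List ℕ) (m : ℕ) : cf k l m ≤ ((m : ℝ) + 1) ^ l.length := by
  have h0 : (0 : ℝ) ≤ m := Nat.cast_nonneg m
  have h1 : (1 : ℝ) ≤ ((m : ℝ) + 1) ^ k := one_le_pow₀ (by linarith)
  calc cf k l m ≤ hs l m / 1 := div_le_div_of_nonneg_left (hs_nonneg l m) one_pos h1
    _ = hs l m := div_one _
    _ ≤ (m : ℝ) ^ l.length := hs_le l m
    _ ≤ ((m : ℝ) + 1) ^ l.length := pow_le_pow_left₀ h0 (by linarith) _

theorem Li_nil (z : ℂ) : Li [] z = 1 := by rw [Li]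

theorem Li_cons (k : ℕ) (l : List ℕ) (z : ℂ) :
    Li (k :: l) z = ∑' m : ℕ, (cf k l m : ℂ) * z ^ (m + 1) := by
  rw [Li]
  rfl

theorem cf_succ (k : ℕ) (l : List ℕ) (m : ℕ) : cf (k + 1) l m * ((m : ℝ) + 1) = cf k l m := by
  have : (0 : ℝ) < (m : ℝ) + 1 := by positivity
  unfold cf
  rw [pow_succ]
  field_simp

theorem cf_zero (l : List ℕ) (m : ℕ) : cf 0 l m = hs l m := by
  unfold cf
  simp

/-- summability of `(m + 1) ^ L * r ^ m` -/
theorem summable_pg (L : ℕ) {r : ℝ} (h0 : 0 ≤ r) (h1 : r < 1) :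
    Summable fun m : ℕ => ((m : ℝ) + 1) ^ L * r ^ m := by
  rcases h0.eq_or_lt with h | h
  · subst h
    refine summable_of_ne_finset_zero (s := {0}) fun m hm => ?_
    have : m ≠ 0 := by simpa using hm
    simp [this]
  · have h2 := summable_pow_mul_geometric_of_norm_lt_one L
      (show ‖r‖ < 1 by rw [Real.norm_of_nonneg h0]; exact h1)
    have h3 := (summable_nat_add_iff 1).2 h2
    have h4 := h3.mul_left r⁻¹
    refine h4.congr fun m => ?_
    push_cast
    rw [pow_succ]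
    field_simp

theorem summable_cf (k : ℕ) (l : List ℕ) {z : ℂ} (hz : ‖z‖ < 1) :
    Summable fun m : ℕ => (cf k l m : ℂ) * z ^ m := by
  refine Summable.of_norm_bounded (summable_pg l.length (norm_nonneg z) hz) fun m => ?_
  rw [norm_mul, norm_pow, Complex.norm_real, Real.norm_of_nonneg (cf_nonneg k l m)]
  exact mul_le_mul_of_nonneg_right (cf_le k l m) (by positivity)

/-- the shifted series -/
noncomputable def Ls (k : ℕ) (l : List ℕ) (z : ℂ) : ℂ := ∑' m : ℕ, (cf k l m : ℂ) * z ^ m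

theorem Li_eq_Ls (k : ℕ) (l : List ℕ) (z : ℂ) : Li (k :: l) z = z * Ls k l z := by
  rw [Li_cons, Ls, ← tsum_mul_left]
  refine tsum_congr fun m => ?_
  rw [pow_succ]
  ring

theorem hasDerivAt_Li (k : ℕ) (l : List ℕ) {z : ℂ} (hz : ‖z‖ < 1) :
    HasDerivAt (Li ((k + 1) :: l)) (Ls k l z) z := by
  obtain ⟨r, hr1, hr2⟩ := exists_between hz
  have hr0 : 0 ≤ r := (norm_nonneg z).trans hr1.le
  have hu : Summable fun m : ℕ => ((m : ℝ) + 1) ^ l.length * r ^ m := summable_pg _ hr0 hr2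
  have hdf : ∀ m : ℕ, DifferentiableOn ℂ (fun w : ℂ => (cf (k + 1) l m : ℂ) * w ^ (m + 1))
      (Metric.ball 0 r) := fun m => by fun_prop
  have hle : ∀ (m : ℕ) (w : ℂ), w ∈ Metric.ball (0 : ℂ) r →
      ‖(cf (k + 1) l m : ℂ) * w ^ (m + 1)‖ ≤ ((m : ℝ) + 1) ^ l.length * r ^ m := by
    intro m w hw
    rw [mem_ball_zero_iff] at hw
    rw [norm_mul, norm_pow, Complex.norm_real, Real.norm_of_nonneg (cf_nonneg _ l m)]
    have h1 : ‖w‖ ^ (m + 1) ≤ r ^ m := by
      rw [pow_succ]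
      calc ‖w‖ ^ m * ‖w‖ ≤ r ^ m * 1 := by
            refine mul_le_mul (pow_le_pow_left₀ (norm_nonneg w) hw.le m) ?_ (norm_nonneg w)
              (by positivity)
            linarith
        _ = r ^ m := mul_one _
    exact mul_le_mul (cf_le _ l m) h1 (by positivity) (by positivity)
  have hzr : z ∈ Metric.ball (0 : ℂ) r := by rw [mem_ball_zero_iff]; exact hr1
  have hd := Complex.differentiableOn_tsum_of_summable_norm hu hdf Metric.isOpen_ball hle
  have hs' := Complex.hasSum_deriv_of_summable_norm hu hdf Metric.isOpen_ball hle hzr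
  have hfun : (fun w : ℂ => ∑' m : ℕ, (cf (k + 1) l m : ℂ) * w ^ (m + 1)) =
      Li ((k + 1) :: l) := by
    funext w
    rw [Li_cons]
  rw [hfun] at hd hs'
  have h2 : deriv (Li ((k + 1) :: l)) z = Ls k l z := by
    rw [← hs'.tsum_eq, Ls]
    refine tsum_congr fun m => ?_
    have h3 : HasDerivAt (fun w : ℂ => (cf (k + 1) l m : ℂ) * w ^ (m + 1))
        ((cf (k + 1) l m : ℂ) * (((m + 1 : ℕ) : ℂ) * z ^ m)) z := by
      have := (hasDerivAt_pow (m + 1) z).const_mul (cf (k + 1) l m : ℂ)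
      simpa using this
    rw [h3.deriv, ← cf_succ k l m]
    push_cast
    ring
  rw [← h2]
  exact (hd.differentiableAt (Metric.isOpen_ball.mem_nhds hzr)).hasDerivAt

theorem hasDerivAt_Li_succ (k : ℕ) (l : List ℕ) {z : ℂ} (hz : ‖z‖ < 1) (h0 : z ≠ 0) :
    HasDerivAt (Li ((k + 2) :: l)) (Li ((k + 1) :: l) z / z) z := by
  have h := hasDerivAt_Li (k + 1) l hz
  have e : Ls (k + 1) l z = Li ((k + 1) :: l) z / z := by
    rw [Li_eq_Ls]
    field_simp
  rwa [e] at h

theorem Ls_zero (l : List ℕ) {z : ℂ} (hz : ‖z‖ < 1) : Ls 0 l z = Li l z / (1 - z) := by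
  have h1 : (1 : ℂ) - z ≠ 0 := by
    intro h
    have : z = 1 := by linear_combination -h
    rw [this] at hz
    simp at hz
  rw [eq_div_iff h1]
  have hS := summable_cf 0 l hz
  cases l with
  | nil =>
    rw [Li_nil, Ls]
    have : (fun m : ℕ => (cf 0 [] m : ℂ) * z ^ m) = fun m => z ^ m := by
      funext m
      simp [cf, hs]
    rw [this, tsum_geometric_of_norm_lt_one hz, inv_mul_cancel₀ h1]
  | cons k l =>
    have hS' := summable_cf k l hz
    have h2 : Ls 0 (k :: l) z = z * (Ls 0 (k :: l) z + Ls k l z) := by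
      have h3 : Ls 0 (k :: l) z = ∑' m : ℕ, (cf 0 (k :: l) (m + 1) : ℂ) * z ^ (m + 1) := by
        rw [Ls, hS.tsum_eq_zero_add]
        simp [cf, hs]
      have h4 : ∀ m : ℕ, (cf 0 (k :: l) (m + 1) : ℂ) * z ^ (m + 1) =
          z * ((cf 0 (k :: l) m : ℂ) * z ^ m + (cf k l m : ℂ) * z ^ m) := by
        intro m
        have h5 : cf 0 (k :: l) (m + 1) = cf 0 (k :: l) m + cf k l m := by
          rw [cf_zero, cf_zero]
          conv_lhs => rw [hs]
          rw [Finset.sum_range_succ]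
          rw [hs]
          rfl
        rw [h5]
        push_cast
        ring
      conv_lhs => rw [h3, tsum_congr h4, tsum_mul_left, hS.tsum_add hS']
      rfl
    rw [Li_eq_Ls]
    linear_combination h2

theorem hasDerivAt_Li_one (l : List ℕ) {z : ℂ} (hz : ‖z‖ < 1) :
    HasDerivAt (Li (1 :: l)) (Li l z / (1 - z)) z := by
  rw [← Ls_zero l hz]
  exact hasDerivAt_Li 0 l hz

/-- all entries are positive -/
def Adm (l : List ℕ) : Prop := ∀ k ∈ l, 1 ≤ k

theorem Adm.tail {k : ℕ} {l : List ℕ} (h : Adm (k :: l)) : Adm l :=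
  fun j hj => h j (List.mem_cons_of_mem _ hj)

theorem differentiableAt_Li {l : List ℕ} (hl : Adm l) {z : ℂ} (hz : ‖z‖ < 1) :
    DifferentiableAt ℂ (Li l) z := by
  cases l with
  | nil =>
    have : Li [] = fun _ => (1 : ℂ) := funext Li_nil
    rw [this]
    exact differentiableAt_const _
  | cons k l =>
    have hk : 1 ≤ k := hl k List.mem_cons_self
    obtain ⟨j, rfl⟩ := Nat.exists_eq_add_of_le' hk
    exact (hasDerivAt_Li j l hz).differentiableAt

theorem Li_zero {l : List ℕ} (hl : l ≠ []) : Li l 0 = 0 := by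
  cases l with
  | nil => exact absurd rfl hl
  | cons k l => rw [Li_eq_Ls, zero_mul]

/-- `|Li l z| ≤ C |z|` near `0` -/
theorem Li_bound (l : List ℕ) (hl : l ≠ []) : ∃ C : ℝ, 0 ≤ C ∧
    ∀ z : ℂ, ‖z‖ ≤ 1 / 2 → ‖Li l z‖ ≤ C * ‖z‖ := by
  cases l with
  | nil => exact absurd rfl hl
  | cons k l =>
    have hS := summable_pg l.length (show (0 : ℝ) ≤ 1 / 2 by norm_num) (by norm_num)
    refine ⟨∑' m : ℕ, ((m : ℝ) + 1) ^ l.length * (1 / 2) ^ m,
      tsum_nonneg fun m => by positivity, fun z hz => ?_⟩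
    rw [Li_eq_Ls, norm_mul, mul_comm]
    refine mul_le_mul_of_nonneg_right ?_ (norm_nonneg z)
    rw [Ls]
    refine tsum_of_norm_bounded hS.hasSum fun m => ?_
    rw [norm_mul, norm_pow, Complex.norm_real, Real.norm_of_nonneg (cf_nonneg k l m)]
    exact mul_le_mul (cf_le k l m) (pow_le_pow_left₀ (norm_nonneg z) hz m) (by positivity)
      (by positivity)

end Pool.Agent.MPc258
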