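import Mathlib
import Pool.Agent.Lib.MP_c25811_nt.Ser

/-!
# MP_c25811_nt: continuation of the series across the points `p ≠ 1` of the unit circle
-/

set_option autoImplicit false

open Set Filter Topology Metric

namespace Pool.Agent.MPc258

/-- the radius -/
noncomputable def rd (p : ℂ) : ℝ := min 1 ‖p - 1‖

theorem rd_pos {p : ℂ} (h : p ≠ 1) : 0 < rd p :=
  lt_min one_pos (norm_pos_iff.2 (sub_ne_zero.2 h))

theorem ne_zero_of_mem {p z : ℂ} (hp : ‖p‖ = 1) (hz : z ∈ ball p (rd p)) : z ≠ 0 := by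
  rintro rfl
  rw [mem_ball, dist_comm, dist_zero_right, hp] at hz
  exact absurd (hz.trans_le (min_le_left _ _)) (lt_irrefl _)

theorem ne_one_of_mem {p z : ℂ} (hz : z ∈ ball p (rd p)) : z ≠ 1 := by
  rintro rfl
  rw [mem_ball, dist_comm, dist_eq_norm] at hz
  exact absurd (hz.trans_le (min_le_right _ _)) (lt_irrefl _)

theorem exists_near {p : ℂ} (hp : ‖p‖ = 1) {r : ℝ} (hr : 0 < r) :
    ∃ z ∈ ball p r, ‖z‖ < 1 := by
  obtain ⟨s, hs0, hs1⟩ : ∃ s : ℝ, 0 < s ∧ s < min r 1 := exists_between (lt_min hr one_pos)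
  have hsr := hs1.trans_le (min_le_left _ _)
  have hs1' := hs1.trans_le (min_le_right _ _)
  refine ⟨((1 - s : ℝ) : ℂ) * p, ?_, ?_⟩
  · rw [mem_ball, dist_eq_norm]
    have : ((1 - s : ℝ) : ℂ) * p - p = ((-s : ℝ) : ℂ) * p := by push_cast; ring
    rw [this, norm_mul, hp, mul_one, Complex.norm_real, Real.norm_eq_abs, abs_neg,
      abs_of_pos hs0]
    exact hsr
  · rw [norm_mul, hp, mul_one, Complex.norm_real, Real.norm_eq_abs, abs_of_pos (by linarith)]
    linarith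

theorem ext_step {p : ℂ} (hp : ‖p‖ = 1) {r : ℝ} (hr : 0 < r) {φ F : ℂ → ℂ}
    (hφ : DifferentiableOn ℂ φ (ball p r))
    (hF : ∀ z ∈ ball p r, ‖z‖ < 1 → HasDerivAt F (φ z) z) :
    ∃ g : ℂ → ℂ, (∀ z ∈ ball p r, HasDerivAt g (φ z) z) ∧
      ∀ z ∈ ball p r, ‖z‖ < 1 → g z = F z := by
  obtain ⟨G, hG⟩ := hφ.isExactOn_ball
  have hop : IsOpen (ball p r ∩ ball (0 : ℂ) 1) := isOpen_ball.inter isOpen_ball
  have hcon : IsPreconnected (ball p r ∩ ball (0 : ℂ) 1) :=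
    ((convex_ball p r).inter (convex_ball 0 1)).isPreconnected
  have hd : ∀ z ∈ ball p r ∩ ball (0 : ℂ) 1, HasDerivAt (fun w => F w - G w) 0 z := by
    intro z hz
    have h1 := (hF z hz.1 (by simpa using hz.2)).sub (hG z hz.1)
    rwa [sub_self] at h1
  obtain ⟨a, ha⟩ := hop.exists_is_const_of_deriv_eq_zero hcon
    (fun z hz => (hd z hz).differentiableAt.differentiableWithinAt)
    (fun z hz => (hd z hz).deriv)
  refine ⟨fun z => G z + a, fun z hz => (hG z hz).add_const a, fun z hz hz1 => ?_⟩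
  have := ha z ⟨hz, by simpa using hz1⟩
  show G z + a = F z
  rw [← this]
  ring

theorem eq_of_eq_disc {p : ℂ} (hp : ‖p‖ = 1) {r : ℝ} (hr : 0 < r) {f g : ℂ → ℂ}
    (hf : DifferentiableOn ℂ f (ball p r)) (hg : DifferentiableOn ℂ g (ball p r))
    (h : ∀ z ∈ ball p r, ‖z‖ < 1 → f z = g z) : EqOn f g (ball p r) := by
  obtain ⟨z, hz, hz1⟩ := exists_near hp hr
  refine (hf.analyticOnNhd isOpen_ball).eqOn_of_preconnected_of_eventuallyEq
    (hg.analyticOnNhd isOpen_ball) (convex_ball p r).isPreconnected hz ?_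
  have h1 : ball p r ∩ ball (0 : ℂ) 1 ∈ 𝓝 z :=
    (isOpen_ball.inter isOpen_ball).mem_nhds ⟨hz, by simpa using hz1⟩
  filter_upwards [h1] with w hw
  exact h w hw.1 (by simpa using hw.2)

/-- step for the entry `1` -/
theorem ext_one_step {p : ℂ} (hp : ‖p‖ = 1) (hp1 : p ≠ 1) {l : List ℕ} {g : ℂ → ℂ}
    (hg : DifferentiableOn ℂ g (ball p (rd p)))
    (h : ∀ z ∈ ball p (rd p), ‖z‖ < 1 → g z = Li l z) :
    ∃ g' : ℂ → ℂ, (∀ z ∈ ball p (rd p), HasDerivAt g' (g z / (1 - z)) z) ∧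
      ∀ z ∈ ball p (rd p), ‖z‖ < 1 → g' z = Li (1 :: l) z := by
  refine ext_step hp (rd_pos hp1) ?_ ?_
  · intro z hz
    have h1 : (1 : ℂ) - z ≠ 0 := sub_ne_zero.2 (ne_one_of_mem hz).symm
    exact (hg z hz).div (by fun_prop) h1
  · intro z hz hz1
    rw [h z hz hz1]
    exact hasDerivAt_Li_one l hz1

/-- step for larger entries -/
theorem ext_succ_step {p : ℂ} (hp : ‖p‖ = 1) (hp1 : p ≠ 1) {k : ℕ} {l : List ℕ} {g : ℂ → ℂ}
    (hg : DifferentiableOn ℂ g (ball p (rd p)))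
    (h : ∀ z ∈ ball p (rd p), ‖z‖ < 1 → g z = Li ((k + 1) :: l) z) :
    ∃ g' : ℂ → ℂ, (∀ z ∈ ball p (rd p), HasDerivAt g' (g z / z) z) ∧
      ∀ z ∈ ball p (rd p), ‖z‖ < 1 → g' z = Li ((k + 2) :: l) z := by
  refine ext_step hp (rd_pos hp1) ?_ ?_
  · intro z hz
    exact (hg z hz).div (by fun_prop) (ne_zero_of_mem hp hz)
  · intro z hz hz1
    rw [h z hz hz1]
    exact hasDerivAt_Li_succ k l hz1 (ne_zero_of_mem hp hz)

theorem exists_ext {p : ℂ} (hp : ‖p‖ = 1) (hp1 : p ≠ 1) (l : List ℕ) (hl : Adm l) :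
    ∃ g : ℂ → ℂ, DifferentiableOn ℂ g (ball p (rd p)) ∧
      ∀ z ∈ ball p (rd p), ‖z‖ < 1 → g z = Li l z := by
  induction l with
  | nil => exact ⟨fun _ => 1, differentiableOn_const _, fun z _ _ => (Li_nil z).symm⟩
  | cons k l ih =>
    obtain ⟨g, hg, hgz⟩ := ih hl.tail
    have hk : 1 ≤ k := hl k List.mem_cons_self
    obtain ⟨j, rfl⟩ := Nat.exists_eq_add_of_le' hk
    clear hl hk ih
    induction j with
    | zero =>
      obtain ⟨g', h1, h2⟩ := ext_one_step hp hp1 hg hgz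
      exact ⟨g', fun z hz => (h1 z hz).differentiableAt.differentiableWithinAt, h2⟩
    | succ j ih =>
      obtain ⟨g1, hg1, hgz1⟩ := ih
      obtain ⟨g', h1, h2⟩ := ext_succ_step hp hp1 hg1 hgz1
      exact ⟨g', fun z hz => (h1 z hz).differentiableAt.differentiableWithinAt, h2⟩

open Classical in
/-- the local continuation -/
noncomputable def gx (p : ℂ) (l : List ℕ) : ℂ → ℂ :=
  if h : ∃ g : ℂ → ℂ, DifferentiableOn ℂ g (ball p (rd p)) ∧
      ∀ z ∈ ball p (rd p), ‖z‖ < 1 → g z = Li l z then Classical.choose h else 0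

theorem gx_diff {p : ℂ} (hp : ‖p‖ = 1) (hp1 : p ≠ 1) {l : List ℕ} (hl : Adm l) :
    DifferentiableOn ℂ (gx p l) (ball p (rd p)) := by
  have h := exists_ext hp hp1 l hl
  unfold gx
  rw [dif_pos h]
  exact (Classical.choose_spec h).1

theorem gx_eq {p : ℂ} (hp : ‖p‖ = 1) (hp1 : p ≠ 1) {l : List ℕ} (hl : Adm l) {z : ℂ}
    (hz : z ∈ ball p (rd p)) (hz1 : ‖z‖ < 1) : gx p l z = Li l z := by
  have h := exists_ext hp hp1 l hl
  unfold gx
  rw [dif_pos h]
  exact (Classical.choose_spec h).2 z hz hz1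

theorem gx_one {p : ℂ} (hp : ‖p‖ = 1) (hp1 : p ≠ 1) {l : List ℕ} (hl : Adm l)
    {z : ℂ} (hz : z ∈ ball p (rd p)) :
    HasDerivAt (gx p (1 :: l)) (gx p l z / (1 - z)) z := by
  have hl1 : Adm (1 :: l) := by
    intro k hk
    rcases List.mem_cons.1 hk with rfl | hk
    · exact le_rfl
    · exact hl k hk
  obtain ⟨g', h1, h2⟩ := ext_one_step hp hp1 (gx_diff hp hp1 hl)
    (fun z hz hz1 => gx_eq hp hp1 hl hz hz1)
  have h3 : EqOn (gx p (1 :: l)) g' (ball p (rd p)) := by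
    refine eq_of_eq_disc hp (rd_pos hp1) (gx_diff hp hp1 hl1)
      (fun z hz => (h1 z hz).differentiableAt.differentiableWithinAt) fun z hz hz1 => ?_
    rw [h2 z hz hz1, gx_eq hp hp1 hl1 hz hz1]
  exact (h1 z hz).congr_of_eventuallyEq (h3.eventuallyEq_of_mem (isOpen_ball.mem_nhds hz))

theorem gx_succ {p : ℂ} (hp : ‖p‖ = 1) (hp1 : p ≠ 1) {k : ℕ} {l : List ℕ} (hl : Adm l)
    {z : ℂ} (hz : z ∈ ball p (rd p)) :
    HasDerivAt (gx p ((k + 2) :: l)) (gx p ((k + 1) :: l) z / z) z := by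
  have hadm : ∀ j, Adm ((j + 1) :: l) := by
    intro j k hk
    rcases List.mem_cons.1 hk with rfl | hk
    · omega
    · exact hl k hk
  obtain ⟨g', h1, h2⟩ := ext_succ_step hp hp1 (gx_diff hp hp1 (hadm k))
    (fun z hz hz1 => gx_eq hp hp1 (hadm k) hz hz1)
  have h3 : EqOn (gx p ((k + 2) :: l)) g' (ball p (rd p)) := by
    refine eq_of_eq_disc hp (rd_pos hp1) (gx_diff hp hp1 (hadm (k + 1)))
      (fun z hz => (h1 z hz).differentiableAt.differentiableWithinAt) fun z hz hz1 => ?_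
    rw [h2 z hz hz1, gx_eq hp hp1 (hadm (k + 1)) hz hz1]
  exact (h1 z hz).congr_of_eventuallyEq (h3.eventuallyEq_of_mem (isOpen_ball.mem_nhds hz))

/-- the value at the point `p` of the unit circle -/
noncomputable def V (l : List ℕ) (p : ℂ) : ℂ := gx p l p

theorem tendsto_gx {p : ℂ} (hp : ‖p‖ = 1) (hp1 : p ≠ 1) {l : List ℕ} (hl : Adm l) {q : ℂ}
    (hq : q ∈ ball p (rd p)) : Tendsto (Li l) (𝓝[ball 0 1] q) (𝓝 (gx p l q)) := by
  have h1 : ContinuousAt (gx p l) q :=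
    ((gx_diff hp hp1 hl).differentiableAt (isOpen_ball.mem_nhds hq)).continuousAt
  refine (h1.tendsto.mono_left nhdsWithin_le_nhds).congr' ?_
  have h2 : ball p (rd p) ∈ 𝓝[ball 0 1] q :=
    mem_nhdsWithin_of_mem_nhds (isOpen_ball.mem_nhds hq)
  filter_upwards [h2, self_mem_nhdsWithin] with z hz hz1
  exact gx_eq hp hp1 hl hz (by simpa using hz1)

theorem neBot_circle {q : ℂ} (hq : ‖q‖ = 1) : (𝓝[ball (0 : ℂ) 1] q).NeBot := by
  rw [← mem_closure_iff_nhdsWithin_neBot, closure_ball (0 : ℂ) one_ne_zero]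
  simp [hq]

theorem tendsto_V {p : ℂ} (hp : ‖p‖ = 1) (hp1 : p ≠ 1) {l : List ℕ} (hl : Adm l) :
    Tendsto (Li l) (𝓝[ball 0 1] p) (𝓝 (V l p)) :=
  tendsto_gx hp hp1 hl (mem_ball_self (rd_pos hp1))

theorem V_eq_gx {p q : ℂ} (hp : ‖p‖ = 1) (hp1 : p ≠ 1) (hq : ‖q‖ = 1) {l : List ℕ} (hl : Adm l)
    (h : q ∈ ball p (rd p)) : V l q = gx p l q := by
  have : (𝓝[ball (0 : ℂ) 1] q).NeBot := neBot_circle hq
  exact tendsto_nhds_unique (tendsto_V hq (ne_one_of_mem h) hl) (tendsto_gx hp hp1 hl h)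

/-- the value as a function of the angle -/
noncomputable def cv (l : List ℕ) (θ : ℝ) : ℂ := V l (Complex.exp (θ * Complex.I))

theorem norm_exp' (θ : ℝ) : ‖Complex.exp (θ * Complex.I)‖ = 1 := Complex.norm_exp_ofReal_mul_I θ

theorem exp_ne_one {θ : ℝ} (h0 : 0 < θ) (h1 : θ < 2 * Real.pi) :
    Complex.exp (θ * Complex.I) ≠ 1 := by
  intro h
  rw [Complex.exp_eq_one_iff] at h
  obtain ⟨n, hn⟩ := h
  have h2 : (θ : ℂ) = n * (2 * Real.pi) := by
    have hI := Complex.I_ne_zero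
    apply mul_right_cancel₀ hI
    rw [hn]
    ring
  have h3 : θ = n * (2 * Real.pi) := by exact_mod_cast h2
  have hpi := Real.pi_pos
  have h4 : (0 : ℝ) < n := by
    by_contra hc
    push Not at hc
    nlinarith
  have h5 : (n : ℝ) < 1 := by
    by_contra hc
    push Not at hc
    nlinarith
  have h6 : 0 < n := by exact_mod_cast h4
  have h7 : n < 1 := by exact_mod_cast h5
  omega

theorem hasDerivAt_expI (θ : ℝ) : HasDerivAt (fun t : ℝ => Complex.exp (t * Complex.I))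
    (Complex.exp (θ * Complex.I) * Complex.I) θ := by
  have h1 : HasDerivAt (fun t : ℝ => (t : ℂ) * Complex.I) (1 * Complex.I) θ :=
    (Complex.ofRealCLM.hasDerivAt (x := θ)).mul_const Complex.I
  rw [one_mul] at h1
  exact h1.cexp

theorem cv_of_gx {l : List ℕ} (hl : Adm l) {θ : ℝ} (h0 : 0 < θ) (h1 : θ < 2 * Real.pi) {d : ℂ}
    (h : HasDerivAt (gx (Complex.exp (θ * Complex.I)) l) d (Complex.exp (θ * Complex.I))) :
    HasDerivAt (cv l) (d * (Complex.exp (θ * Complex.I) * Complex.I)) θ := by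
  have hp := norm_exp' θ
  have hp1 := exp_ne_one h0 h1
  have h2 := h.comp θ (hasDerivAt_expI θ)
  refine h2.congr_of_eventuallyEq ?_
  have h3 : ∀ᶠ t : ℝ in 𝓝 θ, Complex.exp (t * Complex.I) ∈
      ball (Complex.exp (θ * Complex.I)) (rd (Complex.exp (θ * Complex.I))) :=
    (hasDerivAt_expI θ).continuousAt.eventually (isOpen_ball.mem_nhds (mem_ball_self (rd_pos hp1)))
  filter_upwards [h3] with t ht
  exact V_eq_gx hp hp1 (norm_exp' t) hl ht

theorem cv_one {l : List ℕ} (hl : Adm l) {θ : ℝ} (h0 : 0 < θ) (h1 : θ < 2 * Real.pi) :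
    HasDerivAt (cv (1 :: l)) (cv l θ / (1 - Complex.exp (θ * Complex.I)) *
      (Complex.exp (θ * Complex.I) * Complex.I)) θ := by
  have hl1 : Adm (1 :: l) := by
    intro k hk
    rcases List.mem_cons.1 hk with rfl | hk
    · exact le_rfl
    · exact hl k hk
  have hp := norm_exp' θ
  have hp1 := exp_ne_one h0 h1
  exact cv_of_gx hl1 h0 h1 (gx_one hp hp1 hl (mem_ball_self (rd_pos hp1)))

theorem cv_succ {k : ℕ} {l : List ℕ} (hl : Adm l) {θ : ℝ} (h0 : 0 < θ) (h1 : θ < 2 * Real.pi) :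
    HasDerivAt (cv ((k + 2) :: l)) (Complex.I * cv ((k + 1) :: l) θ) θ := by
  have hadm : ∀ j, Adm ((j + 1) :: l) := by
    intro j k hk
    rcases List.mem_cons.1 hk with rfl | hk
    · omega
    · exact hl k hk
  have hp := norm_exp' θ
  have hp1 := exp_ne_one h0 h1
  have h := cv_of_gx (hadm (k + 1)) h0 h1 (gx_succ (k := k) hp hp1 hl (mem_ball_self (rd_pos hp1)))
  have hne : Complex.exp (θ * Complex.I) ≠ 0 := Complex.exp_ne_zero _
  have e : gx (Complex.exp (θ * Complex.I)) ((k + 1) :: l) (Complex.exp (θ * Complex.I)) /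
      Complex.exp (θ * Complex.I) * (Complex.exp (θ * Complex.I) * Complex.I) =
      Complex.I * cv ((k + 1) :: l) θ := by
    unfold cv V
    field_simp
  rwa [e] at h

end Pool.Agent.MPc258
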