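import Mathlib
import Pool.Agent.Lib.MP_c25811_nt.Ext

/-!
# MP_c25811_nt: the arc `t = 1 - exp (-i θ)` from `0` to `exp (i π / 3)`
-/

set_option autoImplicit false

open Set Filter Topology Metric MeasureTheory

namespace Pool.Agent.MPc258

/-- `log (2 sin (θ / 2))` -/
noncomputable def A (θ : ℝ) : ℝ := Real.log |2 * Real.sin (θ / 2)|

/-- the derivative of `A` -/
noncomputable def A' (θ : ℝ) : ℝ := Real.cos (θ / 2) / (2 * Real.sin (θ / 2))

/-- the point `exp (i π / 3)` -/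
noncomputable def rho : ℂ := Complex.exp ((Real.pi / 3 : ℝ) * Complex.I)

/-- the arc -/
noncomputable def tt (θ : ℝ) : ℂ := 1 - Complex.exp (((-θ : ℝ) : ℂ) * Complex.I)

theorem sin_half_pos {θ : ℝ} (h0 : 0 < θ) (h1 : θ < 2 * Real.pi) : 0 < Real.sin (θ / 2) :=
  Real.sin_pos_of_pos_of_lt_pi (by linarith) (by linarith)

theorem hasDerivAt_A {θ : ℝ} (h0 : 0 < θ) (h1 : θ < 2 * Real.pi) : HasDerivAt A (A' θ) θ := by
  have hs := sin_half_pos h0 h1
  have h2 : HasDerivAt (fun x : ℝ => 2 * Real.sin (x / 2)) (2 * (Real.cos (θ / 2) * (1 / 2))) θ :=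
    (((hasDerivAt_id θ).div_const 2).sin).const_mul 2
  have h3 : (fun x : ℝ => Real.log |2 * Real.sin (x / 2)|) =
      fun x => Real.log (2 * Real.sin (x / 2)) := by
    funext x
    exact Real.log_abs _
  have h4 := h2.log (by positivity)
  unfold A
  rw [h3]
  convert h4 using 1
  unfold A'
  field_simp

theorem continuousOn_A' : ContinuousOn A' (Ioo 0 (2 * Real.pi)) := by
  unfold A'
  refine ContinuousOn.div (by fun_prop) (by fun_prop) fun θ hθ => ?_
  have := sin_half_pos hθ.1 hθ.2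
  positivity

theorem A_pi3 : A (Real.pi / 3) = 0 := by
  unfold A
  have : Real.pi / 3 / 2 = Real.pi / 6 := by ring
  rw [this, Real.sin_pi_div_six]
  norm_num

theorem A'_bd {θ : ℝ} (h0 : 0 < θ) (h1 : θ ≤ Real.pi / 3) : |A' θ| ≤ θ⁻¹ := by
  have hpi := Real.pi_pos
  have hs := sin_half_pos h0 (by linarith)
  have hc : 0 < Real.cos (θ / 2) :=
    Real.cos_pos_of_mem_Ioo ⟨by linarith, by linarith⟩
  have h2 := Real.lt_tan (x := θ / 2) (by linarith) (by linarith)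
  rw [Real.tan_eq_sin_div_cos, lt_div_iff₀ hc] at h2
  rw [abs_of_nonneg (by unfold A'; positivity)]
  unfold A'
  rw [div_le_iff₀ (by positivity), inv_mul_eq_div, le_div_iff₀ h0]
  linarith

theorem norm_exp_sub (a b : ℝ) :
    ‖Complex.exp ((a : ℂ) * Complex.I) - Complex.exp ((b : ℂ) * Complex.I)‖ ^ 2 =
      2 - 2 * Real.cos (a - b) := by
  rw [Complex.sq_norm, Complex.normSq_apply, Complex.sub_re, Complex.sub_im,
    Complex.exp_ofReal_mul_I_re, Complex.exp_ofReal_mul_I_re, Complex.exp_ofReal_mul_I_im,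
    Complex.exp_ofReal_mul_I_im, Real.cos_sub]
  nlinarith [Real.sin_sq_add_cos_sq a, Real.sin_sq_add_cos_sq b]

theorem norm_rho : ‖rho‖ = 1 := norm_exp' _

theorem one_sub_rho : 1 - rho = Complex.exp (((-(Real.pi / 3) : ℝ) : ℂ) * Complex.I) := by
  apply Complex.ext
  · rw [Complex.sub_re, Complex.one_re, rho, Complex.exp_ofReal_mul_I_re,
      Complex.exp_ofReal_mul_I_re, Real.cos_neg, Real.cos_pi_div_three]
    norm_num
  · rw [Complex.sub_im, Complex.one_im, rho, Complex.exp_ofReal_mul_I_im,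
      Complex.exp_ofReal_mul_I_im, Real.sin_neg]
    ring

theorem rho_ne_one : rho ≠ 1 := by
  intro h
  have h1 := one_sub_rho
  rw [h, sub_self] at h1
  exact Complex.exp_ne_zero _ h1.symm

theorem rd_rho : rd rho = 1 := by
  have h1 : ‖rho - 1‖ = 1 := by
    rw [← norm_neg, neg_sub, one_sub_rho, norm_exp']
  unfold rd
  rw [h1, min_self]

theorem tt_pi3 : tt (Real.pi / 3) = rho := by
  unfold tt
  rw [← one_sub_rho]
  ring

theorem tt_sub_rho (θ : ℝ) : tt θ - rho =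
    Complex.exp (((-(Real.pi / 3) : ℝ) : ℂ) * Complex.I) -
      Complex.exp (((-θ : ℝ) : ℂ) * Complex.I) := by
  rw [← one_sub_rho, tt]
  ring

theorem tt_mem {θ : ℝ} (h0 : 0 < θ) (h1 : θ < 2 * Real.pi / 3) : tt θ ∈ ball rho (rd rho) := by
  have hpi := Real.pi_pos
  rw [rd_rho, mem_ball, dist_eq_norm, tt_sub_rho]
  have h2 := norm_exp_sub (-(Real.pi / 3)) (-θ)
  have h3 : 1 / 2 < Real.cos (-(Real.pi / 3) - -θ) := by
    rw [← Real.cos_abs, ← Real.cos_pi_div_three]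
    refine Real.cos_lt_cos_of_nonneg_of_le_pi (abs_nonneg _) (by linarith) ?_
    rw [abs_lt]
    constructor <;> linarith
  rw [← sq_lt_one_iff₀ (norm_nonneg _), h2]
  linarith

theorem norm_tt_sq (θ : ℝ) : ‖tt θ‖ ^ 2 = 2 - 2 * Real.cos θ := by
  have h := norm_exp_sub 0 (-θ)
  have h1 : Complex.exp (((0 : ℝ) : ℂ) * Complex.I) = 1 := by simp
  rw [h1] at h
  rw [tt, h]
  simp

theorem norm_tt_lt {θ : ℝ} (h0 : 0 < θ) (h1 : θ < Real.pi / 3) : ‖tt θ‖ < 1 := by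
  have hpi := Real.pi_pos
  have h3 : 1 / 2 < Real.cos θ := by
    rw [← Real.cos_pi_div_three]
    exact Real.cos_lt_cos_of_nonneg_of_le_pi h0.le (by linarith) h1
  rw [← sq_lt_one_iff₀ (norm_nonneg _), norm_tt_sq]
  linarith

theorem norm_tt_le {θ : ℝ} (h0 : 0 ≤ θ) : ‖tt θ‖ ≤ θ := by
  have h1 : ‖tt θ‖ ^ 2 ≤ θ ^ 2 := by
    rw [norm_tt_sq]
    have := Real.one_sub_sq_div_two_le_cos (x := θ)
    linarith
  exact (pow_le_pow_iff_left₀ (norm_nonneg _) h0 two_ne_zero).1 h1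

theorem hasDerivAt_tt (θ : ℝ) : HasDerivAt tt
    (Complex.I * Complex.exp (((-θ : ℝ) : ℂ) * Complex.I)) θ := by
  have h1 : HasDerivAt (fun t : ℝ => ((-t : ℝ) : ℂ) * Complex.I) (-1 * Complex.I) θ := by
    have h2 : HasDerivAt (fun t : ℝ => ((-t : ℝ) : ℂ)) (-1) θ := by
      have h3 := (hasDerivAt_neg θ).ofReal_comp
      have h4 : ((-1 : ℝ) : ℂ) = -1 := by push_cast; rfl
      rwa [h4] at h3
    exact h2.mul_const Complex.I
  have h2 := (h1.cexp).const_sub 1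
  have h3 : Complex.I * Complex.exp (((-θ : ℝ) : ℂ) * Complex.I) =
      -(Complex.exp (((-θ : ℝ) : ℂ) * Complex.I) * (-1 * Complex.I)) := by ring
  rw [h3]
  exact h2

/-- the function `Li l` along the arc -/
noncomputable def fa (l : List ℕ) (θ : ℝ) : ℂ := gx rho l (tt θ)

theorem fa_eq_Li {l : List ℕ} (hl : Adm l) {θ : ℝ} (h0 : 0 < θ) (h1 : θ < Real.pi / 3) :
    fa l θ = Li l (tt θ) := by
  have hpi := Real.pi_pos
  exact gx_eq norm_rho rho_ne_one hl (tt_mem h0 (by linarith)) (norm_tt_lt h0 h1)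

theorem fa_pi3 (l : List ℕ) : fa l (Real.pi / 3) = V l rho := by
  unfold fa V
  rw [tt_pi3]

theorem Adm_cons {k : ℕ} {l : List ℕ} (hl : Adm l) : Adm ((k + 1) :: l) := by
  intro j hj
  rcases List.mem_cons.1 hj with rfl | hj
  · omega
  · exact hl j hj

theorem fa_one {l : List ℕ} (hl : Adm l) {θ : ℝ} (h0 : 0 < θ) (h1 : θ < 2 * Real.pi / 3) :
    HasDerivAt (fa (1 :: l)) (Complex.I * fa l θ) θ := by
  have h := (gx_one norm_rho rho_ne_one hl (tt_mem h0 h1)).comp θ (hasDerivAt_tt θ)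
  have h2 : (1 : ℂ) - tt θ = Complex.exp (((-θ : ℝ) : ℂ) * Complex.I) := by
    unfold tt
    ring
  rw [h2] at h
  have hne : Complex.exp (((-θ : ℝ) : ℂ) * Complex.I) ≠ 0 := Complex.exp_ne_zero _
  have e : gx rho l (tt θ) / Complex.exp (((-θ : ℝ) : ℂ) * Complex.I) *
      (Complex.I * Complex.exp (((-θ : ℝ) : ℂ) * Complex.I)) = Complex.I * fa l θ := by
    unfold fa
    field_simp
  rw [e] at h
  exact h

theorem A'_key {θ : ℝ} (h0 : 0 < θ) (h1 : θ < 2 * Real.pi) (w : ℂ)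
    (hw : w = Complex.exp ((θ / 2 : ℝ) * Complex.I)) :
    w ≠ 0 ∧ w ^ 2 - 1 ≠ 0 ∧ (A' θ : ℂ) = Complex.I / 2 * ((w ^ 2 + 1) / (w ^ 2 - 1)) ∧
      Complex.exp (((-θ : ℝ) : ℂ) * Complex.I) = (w ^ 2)⁻¹ ∧
      Complex.exp ((θ : ℂ) * Complex.I) = w ^ 2 := by
  have hw0 : w ≠ 0 := by rw [hw]; exact Complex.exp_ne_zero _
  have hw2 : Complex.exp ((θ : ℂ) * Complex.I) = w ^ 2 := by
    rw [hw, ← Complex.exp_nat_mul]
    congr 1
    push_cast
    ring
  have hwm : Complex.exp (((-θ : ℝ) : ℂ) * Complex.I) = (w ^ 2)⁻¹ := by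
    rw [← hw2, ← Complex.exp_neg]
    congr 1
    push_cast
    ring
  have hinv : Complex.exp (-((θ / 2 : ℝ) : ℂ) * Complex.I) = w⁻¹ := by
    rw [hw, ← Complex.exp_neg]
    congr 1
    ring
  have hs := sin_half_pos h0 h1
  have hsin : (Real.sin (θ / 2) : ℂ) = (w⁻¹ - w) * Complex.I / 2 := by
    rw [Complex.ofReal_sin, Complex.sin, hinv, hw]
  have hcos : (Real.cos (θ / 2) : ℂ) = (w + w⁻¹) / 2 := by
    rw [Complex.ofReal_cos, Complex.cos, hinv, hw]
  have hs0 : (Real.sin (θ / 2) : ℂ) ≠ 0 := by exact_mod_cast hs.ne'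
  have h3 : w ^ 2 - 1 ≠ 0 := by
    intro h4
    apply hs0
    rw [hsin]
    have h5 : w⁻¹ = w := inv_eq_of_mul_eq_one_left (by linear_combination h4)
    rw [h5]
    ring
  refine ⟨hw0, h3, ?_, hwm, hw2⟩
  unfold A'
  push_cast
  rw [← Complex.ofReal_ofNat 2, ← Complex.ofReal_div, ← Complex.ofReal_cos, ← Complex.ofReal_sin,
    hcos]
  have h6 : (w⁻¹ - w) * Complex.I / 2 ≠ 0 := by rw [← hsin]; exact hs0
  rw [hsin]
  have hI := Complex.I_sq
  rw [div_eq_iff (by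
    intro h7
    apply h6
    have h8 : ((2 : ℝ) : ℂ) ≠ 0 := by norm_num
    rcases mul_eq_zero.1 h7 with h9 | h9
    · exact absurd h9 h8
    · exact h9)]
  push_cast
  field_simp
  ring_nf
  rw [hI]
  ring

end Pool.Agent.MPc258
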