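import Mathlib
import Pool.Agent.Lib.MP_c25811_nt.Arc

/-!
# MP_c25811_nt: differential equations and bounds
-/

set_option autoImplicit false

open Set Filter Topology Metric MeasureTheory

namespace Pool.Agent.MPc258

theorem fa_succ {k : ℕ} {l : List ℕ} (hl : Adm l) {θ : ℝ} (h0 : 0 < θ)
    (h1 : θ < 2 * Real.pi / 3) :
    HasDerivAt (fa ((k + 2) :: l)) (((A' θ : ℂ) - Complex.I / 2) * fa ((k + 1) :: l) θ) θ := by
  have hpi := Real.pi_pos
  have h := (gx_succ (k := k) norm_rho rho_ne_one hl (tt_mem h0 h1)).comp θ (hasDerivAt_tt θ)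
  obtain ⟨hw0, hw1, hA, he, -⟩ := A'_key h0 (by linarith) _ rfl
  set w : ℂ := Complex.exp ((θ / 2 : ℝ) * Complex.I) with hw
  have h2 : tt θ = (w ^ 2 - 1) / w ^ 2 := by
    unfold tt
    rw [he]
    field_simp
  have e : gx rho ((k + 1) :: l) (tt θ) / tt θ *
      (Complex.I * Complex.exp (((-θ : ℝ) : ℂ) * Complex.I)) =
      ((A' θ : ℂ) - Complex.I / 2) * fa ((k + 1) :: l) θ := by
    unfold fa
    rw [he, hA]
    generalize gx rho ((k + 1) :: l) (tt θ) = G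
    rw [h2]
    field_simp
    ring
  rw [e] at h
  exact h

theorem cv_one' {l : List ℕ} (hl : Adm l) {θ : ℝ} (h0 : 0 < θ) (h1 : θ < 2 * Real.pi) :
    HasDerivAt (cv (1 :: l)) ((-(A' θ : ℂ) - Complex.I / 2) * cv l θ) θ := by
  have h := cv_one hl h0 h1
  obtain ⟨hw0, hw1, hA, -, he⟩ := A'_key h0 h1 _ rfl
  set w : ℂ := Complex.exp ((θ / 2 : ℝ) * Complex.I) with hw
  have hw2 : (1 : ℂ) - w ^ 2 ≠ 0 := by
    intro h3
    apply hw1
    linear_combination -h3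
  have e : cv l θ / (1 - Complex.exp (θ * Complex.I)) * (Complex.exp (θ * Complex.I) * Complex.I) =
      (-(A' θ : ℂ) - Complex.I / 2) * cv l θ := by
    rw [he, hA]
    have h4 : (1 : ℂ) - w ^ 2 = -(w ^ 2 - 1) := by ring
    rw [h4]
    field_simp
    ring
  rwa [e] at h

theorem continuousOn_fa {l : List ℕ} (hl : Adm l) : ContinuousOn (fa l) (Ioc 0 (Real.pi / 3)) := by
  have hpi := Real.pi_pos
  intro θ hθ
  have h1 : tt θ ∈ ball rho (rd rho) := tt_mem hθ.1 (by linarith [hθ.2])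
  have h2 : ContinuousAt (gx rho l) (tt θ) :=
    ((gx_diff norm_rho rho_ne_one hl).differentiableAt (isOpen_ball.mem_nhds h1)).continuousAt
  exact (h2.comp (hasDerivAt_tt θ).continuousAt).continuousWithinAt

theorem fa_nil (θ : ℝ) (h0 : 0 < θ) (h1 : θ ≤ Real.pi / 3) : fa [] θ = 1 := by
  have hpi := Real.pi_pos
  have hl : Adm [] := fun k hk => absurd hk List.not_mem_nil
  have h2 : EqOn (gx rho []) (fun _ => 1) (ball rho (rd rho)) := by
    refine eq_of_eq_disc norm_rho (rd_pos rho_ne_one) (gx_diff norm_rho rho_ne_one hl)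
      (differentiableOn_const _) fun z hz hz1 => ?_
    rw [gx_eq norm_rho rho_ne_one hl hz hz1, Li_nil]
  exact h2 (tt_mem h0 (by linarith))

/-- `|fa l θ| ≤ C θ` -/
theorem fa_bd {l : List ℕ} (hl : Adm l) (hn : l ≠ []) : ∃ C : ℝ, 0 ≤ C ∧
    ∀ θ ∈ Ioc 0 (Real.pi / 3), ‖fa l θ‖ ≤ C * θ := by
  have hpi := Real.pi_gt_three
  obtain ⟨C, hC, hb⟩ := Li_bound l hn
  have hc : ContinuousOn (fa l) (Icc (1 / 2) (Real.pi / 3)) :=
    (continuousOn_fa hl).mono fun θ hθ => ⟨by linarith [hθ.1], hθ.2⟩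
  obtain ⟨M, hM⟩ := isCompact_Icc.exists_bound_of_continuousOn hc
  refine ⟨C + 2 * |M|, by positivity, fun θ hθ => ?_⟩
  rcases lt_or_ge θ (1 / 2) with h | h
  · rw [fa_eq_Li hl hθ.1 (by linarith)]
    have h1 := norm_tt_le hθ.1.le
    have h2 := hb (tt θ) (by linarith)
    have h3 : C * ‖tt θ‖ ≤ C * θ := mul_le_mul_of_nonneg_left h1 hC
    have h4 : 0 ≤ 2 * |M| * θ := by have := hθ.1; positivity
    nlinarith
  · have h1 := hM θ ⟨h, hθ.2⟩
    have h2 := le_abs_self M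
    have h3 := abs_nonneg M
    have h4 : |M| ≤ 2 * |M| * θ := by nlinarith
    have h5 : 0 ≤ C * θ := mul_nonneg hC hθ.1.le
    nlinarith

/-- bound by an inverse square root -/
def SB {E : Type} [Norm E] (f : ℝ → E) : Prop :=
  ∃ C : ℝ, 0 ≤ C ∧ ∀ x ∈ Ioc 0 (Real.pi / 3), ‖f x‖ ≤ C * x ^ (-(1 / 2) : ℝ)

theorem SB.int {E : Type} [NormedAddCommGroup E] {f : ℝ → E} (h : SB f)
    (hc : ContinuousOn f (Ioc 0 (Real.pi / 3))) :
    IntervalIntegrable f volume 0 (Real.pi / 3) := by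
  have hpi := Real.pi_pos
  obtain ⟨C, hC, hb⟩ := h
  rw [intervalIntegrable_iff_integrableOn_Ioc_of_le (by positivity)]
  have h1 : IntegrableOn (fun x : ℝ => C * x ^ (-(1 / 2) : ℝ)) (Ioc 0 (Real.pi / 3)) := by
    have h2 : IntervalIntegrable (fun x : ℝ => x ^ (-(1 / 2) : ℝ)) volume 0 (Real.pi / 3) :=
      intervalIntegral.intervalIntegrable_rpow' (by norm_num)
    rw [intervalIntegrable_iff_integrableOn_Ioc_of_le (by positivity)] at h2
    exact h2.const_mul C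
  refine Integrable.mono' h1 (hc.aestronglyMeasurable measurableSet_Ioc) ?_
  rw [ae_restrict_iff' measurableSet_Ioc]
  exact Filter.Eventually.of_forall hb

theorem rpow_half_pos {x : ℝ} (h : 0 < x) : 0 < x ^ (-(1 / 2) : ℝ) := Real.rpow_pos_of_pos h _

theorem one_le_half {x : ℝ} (h : 0 < x) (h1 : x ≤ Real.pi / 3) :
    1 ≤ 2 * x ^ (-(1 / 2) : ℝ) := by
  have hpi := Real.pi_lt_four
  have h2 : (4 : ℝ) ^ (-(1 / 2) : ℝ) ≤ x ^ (-(1 / 2) : ℝ) :=
    Real.rpow_le_rpow_of_nonpos h (by linarith) (by norm_num)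
  have h3 : (4 : ℝ) ^ (-(1 / 2) : ℝ) = 1 / 2 := by
    rw [Real.rpow_neg (by norm_num), ← Real.sqrt_eq_rpow,
      show (4 : ℝ) = 2 ^ 2 by norm_num, Real.sqrt_sq (by norm_num)]
    norm_num
  linarith

theorem SB_const {E : Type} [NormedAddCommGroup E] (c : E) : SB (fun _ : ℝ => c) := by
  refine ⟨2 * ‖c‖, by positivity, fun x hx => ?_⟩
  have h := one_le_half hx.1 hx.2
  have h1 := norm_nonneg c
  nlinarith

theorem SB_of_bdd {E : Type} [NormedAddCommGroup E] {f : ℝ → E} {M : ℝ}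
    (h : ∀ x ∈ Ioc 0 (Real.pi / 3), ‖f x‖ ≤ M) : SB f := by
  refine ⟨2 * |M|, by positivity, fun x hx => ?_⟩
  have h1 := one_le_half hx.1 hx.2
  have h2 := h x hx
  have h3 := le_abs_self M
  have h4 := abs_nonneg M
  nlinarith

theorem SB.add {E : Type} [NormedAddCommGroup E] {f g : ℝ → E} (hf : SB f) (hg : SB g) :
    SB (fun x => f x + g x) := by
  obtain ⟨C, hC, h1⟩ := hf
  obtain ⟨D, hD, h2⟩ := hg
  refine ⟨C + D, by positivity, fun x hx => (norm_add_le _ _).trans ?_⟩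
  have := h1 x hx
  have := h2 x hx
  linarith

theorem SB.mono {E F : Type} [NormedAddCommGroup E] [NormedAddCommGroup F] {f : ℝ → E}
    {g : ℝ → F} (hf : SB f) (c : ℝ) (hc : 0 ≤ c)
    (h : ∀ x ∈ Ioc 0 (Real.pi / 3), ‖g x‖ ≤ c * ‖f x‖) : SB g := by
  obtain ⟨C, hC, h1⟩ := hf
  refine ⟨c * C, by positivity, fun x hx => (h x hx).trans ?_⟩
  rw [mul_assoc]
  exact mul_le_mul_of_nonneg_left (h1 x hx) hc

/-- product of a function bounded by `C x` with one in `SB` tends to zero -/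
theorem tendsto_zero_mul {f g : ℝ → ℂ} {C : ℝ} (hC : 0 ≤ C)
    (hf : ∀ x ∈ Ioc 0 (Real.pi / 3), ‖f x‖ ≤ C * x) (hg : SB g) :
    Tendsto (fun x => f x * g x) (𝓝[>] 0) (𝓝 0) := by
  have hpi := Real.pi_pos
  obtain ⟨D, hD, h1⟩ := hg
  rw [tendsto_zero_iff_norm_tendsto_zero]
  have h2 : Tendsto (fun x : ℝ => C * D * x ^ (1 / 2 : ℝ)) (𝓝[>] 0) (𝓝 0) := by
    have h3 : Continuous fun x : ℝ => C * D * x ^ (1 / 2 : ℝ) :=
      continuous_const.mul (Real.continuous_rpow_const (by norm_num))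
    have h4 := h3.tendsto 0
    rw [Real.zero_rpow (by norm_num), mul_zero] at h4
    exact h4.mono_left nhdsWithin_le_nhds
  refine squeeze_zero_norm' ?_ h2
  have h5 : Ioc 0 (Real.pi / 3) ∈ 𝓝[>] (0 : ℝ) := Ioc_mem_nhdsGT (by positivity)
  filter_upwards [h5] with x hx
  rw [norm_norm, norm_mul]
  have e1 : x * x ^ (-(1 / 2) : ℝ) = x ^ (1 / 2 : ℝ) := by
    nth_rewrite 1 [← Real.rpow_one x]
    rw [← Real.rpow_add hx.1]
    norm_num
  calc ‖f x‖ * ‖g x‖ ≤ (C * x) * (D * x ^ (-(1 / 2) : ℝ)) :=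
        mul_le_mul (hf x hx) (h1 x hx) (norm_nonneg _) (mul_nonneg hC hx.1.le)
    _ = C * D * (x * x ^ (-(1 / 2) : ℝ)) := by ring
    _ = C * D * x ^ (1 / 2 : ℝ) := by rw [e1]

/-- product of a function bounded by `C x` with one in `SB` is bounded -/
theorem SB_mul {f g : ℝ → ℂ} {C : ℝ} (hC : 0 ≤ C)
    (hf : ∀ x ∈ Ioc 0 (Real.pi / 3), ‖f x‖ ≤ C * x) (hg : SB g) :
    SB (fun x => f x * g x) := by
  have hpi := Real.pi_lt_four
  refine hg.mono (C * 2) (by positivity) fun x hx => ?_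
  rw [norm_mul]
  have h1 := hf x hx
  have h2 : C * x ≤ C * 2 := mul_le_mul_of_nonneg_left (by linarith [hx.2]) hC
  exact mul_le_mul_of_nonneg_right (h1.trans h2) (norm_nonneg _)

/-- the same with the factor `A'` -/
theorem SB_mulA {f g : ℝ → ℂ} {C : ℝ} (hC : 0 ≤ C)
    (hf : ∀ x ∈ Ioc 0 (Real.pi / 3), ‖f x‖ ≤ C * x) (hg : SB g) :
    SB (fun x => f x * (A' x : ℂ) * g x) := by
  refine hg.mono C hC fun x hx => ?_
  rw [norm_mul, norm_mul, Complex.norm_real, Real.norm_eq_abs]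
  have h1 := hf x hx
  have h2 := A'_bd hx.1 hx.2
  have h3 : ‖f x‖ * |A' x| ≤ C := by
    calc ‖f x‖ * |A' x| ≤ (C * x) * x⁻¹ :=
          mul_le_mul h1 h2 (abs_nonneg _) (mul_nonneg hC hx.1.le)
      _ = C := by rw [mul_assoc, mul_inv_cancel₀ hx.1.ne', mul_one]
  exact mul_le_mul_of_nonneg_right h3 (norm_nonneg _)

/-- the fundamental theorem on `(0, π / 3]` -/
theorem ftc {F f : ℝ → ℂ} (hd : ∀ x ∈ Ioo 0 (Real.pi / 3), HasDerivAt F (f x) x)
    (hi : IntervalIntegrable f volume 0 (Real.pi / 3)) (h0 : Tendsto F (𝓝[>] 0) (𝓝 0))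
    (h1 : ContinuousWithinAt F (Iio (Real.pi / 3)) (Real.pi / 3)) :
    ∫ x in (0 : ℝ)..(Real.pi / 3), f x = F (Real.pi / 3) := by
  have hpi := Real.pi_pos
  have := intervalIntegral.integral_eq_sub_of_hasDerivAt_of_tendsto
    (show (0 : ℝ) < Real.pi / 3 by positivity) hd hi h0 h1
  rw [this, sub_zero]

end Pool.Agent.MPc258
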