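import Mathlib
import Pool.Agent.Lib.MP_c25811_nt.Arc2

/-!
# MP_c25811_nt: iterated integrals from the right end point and their pairing with `fa l`
-/

set_option autoImplicit false

open Set Filter Topology Metric MeasureTheory

namespace Pool.Agent.MPc258

/-- the letters: `true` is `d A`, `false` is `d θ` -/
noncomputable def ph (b : Bool) (x : ℝ) : ℝ := if b then A' x else 1

/-- iterated integrals from the right end point -/
noncomputable def T : List Bool → ℝ → ℝ
  | [], _ => 1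
  | (b :: u), x => ∫ y in x..(Real.pi / 3), ph b y * T u y

theorem continuousOn_ph (b : Bool) : ContinuousOn (ph b) (Ioo 0 (2 * Real.pi)) := by
  unfold ph
  cases b with
  | true => simpa using continuousOn_A'
  | false => simpa using continuousOn_const

theorem mem_big {x : ℝ} (hx : x ∈ Ioc 0 (Real.pi / 3)) : x ∈ Ioo 0 (2 * Real.pi) :=
  ⟨hx.1, by have := Real.pi_pos; linarith [hx.2]⟩

theorem uIcc_sub {x : ℝ} (hx : x ∈ Ioo 0 (2 * Real.pi)) :
    uIcc x (Real.pi / 3) ⊆ Ioo 0 (2 * Real.pi) := by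
  have hpi := Real.pi_pos
  intro y hy
  rw [mem_uIcc] at hy
  rcases hy with hy | hy
  · exact ⟨by linarith [hx.1], by linarith⟩
  · exact ⟨by linarith, by linarith [hx.2]⟩

theorem tail_deriv {g : ℝ → ℝ} (hg : ContinuousOn g (Ioo 0 (2 * Real.pi))) {x : ℝ}
    (hx : x ∈ Ioo 0 (2 * Real.pi)) :
    HasDerivAt (fun x => ∫ y in x..(Real.pi / 3), g y) (-g x) x := by
  refine intervalIntegral.integral_hasDerivAt_left ?_ ?_ ?_
  · exact (hg.mono (uIcc_sub hx)).intervalIntegrable
  · exact hg.stronglyMeasurableAtFilter isOpen_Ioo x hx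
  · exact hg.continuousAt (Ioo_mem_nhds hx.1 hx.2)

theorem continuousOn_T (u : List Bool) : ContinuousOn (T u) (Ioo 0 (2 * Real.pi)) := by
  induction u with
  | nil =>
    have : T [] = fun _ => 1 := by funext x; rw [T]
    rw [this]
    exact continuousOn_const
  | cons b u ih =>
    intro x hx
    have h : T (b :: u) = fun x => ∫ y in x..(Real.pi / 3), ph b y * T u y := by
      funext x; rw [T]
    rw [h]
    exact (tail_deriv ((continuousOn_ph b).mul ih) hx).continuousAt.continuousWithinAt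

theorem hasDerivAt_T (b : Bool) (u : List Bool) {x : ℝ} (hx : x ∈ Ioo 0 (2 * Real.pi)) :
    HasDerivAt (T (b :: u)) (-(ph b x * T u x)) x := by
  have h : T (b :: u) = fun x => ∫ y in x..(Real.pi / 3), ph b y * T u y := by
    funext x; rw [T]
  rw [h]
  exact tail_deriv ((continuousOn_ph b).mul (continuousOn_T u)) hx

theorem T_pi3 (b : Bool) (u : List Bool) : T (b :: u) (Real.pi / 3) = 0 := by
  rw [T, intervalIntegral.integral_same]

theorem ph_bd (b : Bool) {x : ℝ} (hx : x ∈ Ioc 0 (Real.pi / 3)) : |ph b x| ≤ 2 * x⁻¹ := by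
  have hpi := Real.pi_lt_four
  have h0 := hx.1
  have h1 : 0 ≤ x⁻¹ := by positivity
  unfold ph
  cases b with
  | true =>
    have := A'_bd hx.1 hx.2
    simp only [if_true]
    linarith
  | false =>
    have h2 : 1 / 2 ≤ x⁻¹ := by
      rw [inv_eq_one_div]
      exact one_div_le_one_div_of_le h0 (by linarith [hx.2])
    simp only [Bool.false_eq_true, if_false, abs_one]
    linarith

/-- the tail integral of a function in `SB` against a letter is in `SB` -/
theorem SB_tail {g : ℝ → ℝ} (b : Bool) (hg : SB g) :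
    SB (fun x => ∫ y in x..(Real.pi / 3), ph b y * g y) := by
  have hpi := Real.pi_pos
  obtain ⟨C, hC, h1⟩ := hg
  refine ⟨4 * C, by positivity, fun x hx => ?_⟩
  have h0 : (0 : ℝ) ∉ uIcc x (Real.pi / 3) := by
    intro h
    have := (uIcc_sub (mem_big hx) h).1
    exact lt_irrefl _ this
  have hint : IntervalIntegrable (fun y : ℝ => 2 * C * y ^ (-(3 / 2) : ℝ)) volume x
      (Real.pi / 3) :=
    (intervalIntegral.intervalIntegrable_rpow (Or.inr h0)).const_mul _
  have h2 := intervalIntegral.norm_integral_le_of_norm_le (f := fun y => ph b y * g y) hx.2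
    (Filter.Eventually.of_forall fun y hy => ?_) hint
  · refine h2.trans ?_
    rw [intervalIntegral.integral_const_mul,
      integral_rpow (Or.inr ⟨by norm_num, h0⟩)]
    have e1 : (-(3 / 2) : ℝ) + 1 = -(1 / 2) := by norm_num
    rw [e1]
    have h3 : 0 < (Real.pi / 3) ^ (-(1 / 2) : ℝ) := Real.rpow_pos_of_pos (by positivity) _
    have h4 : 0 < x ^ (-(1 / 2) : ℝ) := Real.rpow_pos_of_pos hx.1 _
    have h5 : 2 * C * (((Real.pi / 3) ^ (-(1 / 2) : ℝ) - x ^ (-(1 / 2) : ℝ)) / (-(1 / 2))) =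
        4 * C * x ^ (-(1 / 2) : ℝ) - 4 * C * (Real.pi / 3) ^ (-(1 / 2) : ℝ) := by ring
    rw [h5]
    have : 0 ≤ 4 * C * (Real.pi / 3) ^ (-(1 / 2) : ℝ) := by positivity
    linarith
  · have hy' : y ∈ Ioc 0 (Real.pi / 3) := ⟨hx.1.trans hy.1, hy.2⟩
    have h3 := ph_bd b hy'
    have h4 := h1 y hy'
    rw [norm_mul, Real.norm_eq_abs]
    have e : y ^ (-(3 / 2) : ℝ) = y⁻¹ * y ^ (-(1 / 2) : ℝ) := by
      rw [← Real.rpow_neg_one, ← Real.rpow_add hy'.1]
      norm_num
    rw [e]
    calc |ph b y| * ‖g y‖ ≤ (2 * y⁻¹) * (C * y ^ (-(1 / 2) : ℝ)) :=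
          mul_le_mul h3 h4 (norm_nonneg _) (by have := hy'.1; positivity)
      _ = 2 * C * (y⁻¹ * y ^ (-(1 / 2) : ℝ)) := by ring

theorem SB_T (u : List Bool) : SB (T u) := by
  induction u with
  | nil =>
    have : T [] = fun _ => 1 := by funext x; rw [T]
    rw [this]
    exact SB_const 1
  | cons b u ih =>
    have h : T (b :: u) = fun x => ∫ y in x..(Real.pi / 3), ph b y * T u y := by
      funext x; rw [T]
    rw [h]
    exact SB_tail b ih

theorem SB_ofReal {g : ℝ → ℝ} (h : SB g) : SB (fun x => (g x : ℂ)) :=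
  h.mono 1 zero_le_one fun x _ => by rw [Complex.norm_real, one_mul]

theorem contC {g : ℝ → ℝ} (h : ContinuousOn g (Ioo 0 (2 * Real.pi))) :
    ContinuousOn (fun x => (g x : ℂ)) (Ioc 0 (Real.pi / 3)) :=
  (Complex.continuous_ofReal.comp_continuousOn h).mono fun _ hx => mem_big hx

/-- the pairing with `fa l` is integrable -/
theorem int_fa {l : List ℕ} (hl : Adm l) {g : ℝ → ℝ} (hg : SB g)
    (hc : ContinuousOn g (Ioo 0 (2 * Real.pi))) :
    IntervalIntegrable (fun x => fa l x * (g x : ℂ)) volume 0 (Real.pi / 3) := by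
  refine SB.int ?_ ((continuousOn_fa hl).mul (contC hc))
  by_cases hn : l = []
  · subst hn
    refine (SB_ofReal hg).mono 1 zero_le_one fun x hx => ?_
    rw [fa_nil x hx.1 hx.2, one_mul, one_mul]
  · obtain ⟨C, hC, hb⟩ := fa_bd hl hn
    exact SB_mul hC hb (SB_ofReal hg)

theorem int_faA {l : List ℕ} (hl : Adm l) (hn : l ≠ []) {g : ℝ → ℝ} (hg : SB g)
    (hc : ContinuousOn g (Ioo 0 (2 * Real.pi))) :
    IntervalIntegrable (fun x => fa l x * (A' x : ℂ) * (g x : ℂ)) volume 0 (Real.pi / 3) := by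
  obtain ⟨C, hC, hb⟩ := fa_bd hl hn
  exact SB.int (SB_mulA hC hb (SB_ofReal hg))
    (((continuousOn_fa hl).mul (contC continuousOn_A')).mul (contC hc))

/-- the limit of the boundary term -/
theorem bd_zero {l : List ℕ} (hl : Adm l) (hn : l ≠ []) {g : ℝ → ℝ} (hg : SB g) :
    Tendsto (fun x => fa l x * (g x : ℂ)) (𝓝[>] 0) (𝓝 0) := by
  obtain ⟨C, hC, hb⟩ := fa_bd hl hn
  exact tendsto_zero_mul hC hb (SB_ofReal hg)

theorem fa_cont_pi3 {l : List ℕ} (hl : Adm l) : ContinuousAt (fa l) (Real.pi / 3) := by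
  have hpi := Real.pi_pos
  have h1 : tt (Real.pi / 3) ∈ ball rho (rd rho) := tt_mem (by positivity) (by linarith)
  have h2 : ContinuousAt (gx rho l) (tt (Real.pi / 3)) :=
    ((gx_diff norm_rho rho_ne_one hl).differentiableAt (isOpen_ball.mem_nhds h1)).continuousAt
  exact h2.comp (hasDerivAt_tt (Real.pi / 3)).continuousAt

theorem g_cont_pi3 {g : ℝ → ℝ} (hc : ContinuousOn g (Ioo 0 (2 * Real.pi))) :
    ContinuousAt (fun x => (g x : ℂ)) (Real.pi / 3) := by
  have hpi := Real.pi_pos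
  exact Complex.continuous_ofReal.continuousAt.comp
    (hc.continuousAt (Ioo_mem_nhds (by positivity) (by linarith)))

/-- integration by parts, first form -/
theorem parts1 {l : List ℕ} (hl : Adm l) {g h : ℝ → ℝ} (hg : SB g)
    (hc : ContinuousOn g (Ioo 0 (2 * Real.pi)))
    (hd : ∀ x ∈ Ioo 0 (2 * Real.pi), HasDerivAt g (-h x) x) (h0 : g (Real.pi / 3) = 0)
    (hi : IntervalIntegrable (fun x => fa (1 :: l) x * (h x : ℂ)) volume 0 (Real.pi / 3)) :
    ∫ x in (0 : ℝ)..(Real.pi / 3), fa l x * (g x : ℂ) =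
      -Complex.I * ∫ x in (0 : ℝ)..(Real.pi / 3), fa (1 :: l) x * (h x : ℂ) := by
  have hpi := Real.pi_pos
  have hl1 : Adm (1 :: l) := Adm_cons (k := 0) hl
  have hI := int_fa hl hg hc
  have key := ftc (F := fun x => fa (1 :: l) x * (g x : ℂ))
    (f := fun x => Complex.I * (fa l x * (g x : ℂ)) - fa (1 :: l) x * (h x : ℂ)) ?_
    ((hI.const_mul Complex.I).sub hi) (bd_zero hl1 (by simp) hg)
    ((fa_cont_pi3 hl1).mul (g_cont_pi3 hc)).continuousWithinAt
  · rw [intervalIntegral.integral_sub (hI.const_mul Complex.I) hi,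
      intervalIntegral.integral_const_mul, h0] at key
    have hII := Complex.I_mul_I
    generalize (∫ x in (0 : ℝ)..(Real.pi / 3), fa l x * (g x : ℂ)) = P at key ⊢
    generalize (∫ x in (0 : ℝ)..(Real.pi / 3), fa (1 :: l) x * (h x : ℂ)) = Q at key ⊢
    have key' : Complex.I * P - Q = 0 := by simpa using key
    linear_combination (-Complex.I) * key' + P * hII
  · intro x hx
    have hxb : x ∈ Ioo 0 (2 * Real.pi) := ⟨hx.1, by linarith [hx.2]⟩
    have e1 := fa_one hl hx.1 (by linarith [hx.2])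
    have e2 := (hd x hxb).ofReal_comp
    have e3 := e1.mul e2
    have e4 : Complex.I * (fa l x * (g x : ℂ)) - fa (1 :: l) x * (h x : ℂ) =
        Complex.I * fa l x * (g x : ℂ) + fa (1 :: l) x * ((-h x : ℝ) : ℂ) := by
      push_cast
      ring
    show HasDerivAt (fun x => fa (1 :: l) x * (g x : ℂ))
      (Complex.I * (fa l x * (g x : ℂ)) - fa (1 :: l) x * (h x : ℂ)) x
    rw [e4]
    exact e3

/-- integration by parts, second form -/
theorem parts2 {k : ℕ} {l : List ℕ} (hl : Adm l) {g h : ℝ → ℝ} (hg : SB g)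
    (hc : ContinuousOn g (Ioo 0 (2 * Real.pi)))
    (hd : ∀ x ∈ Ioo 0 (2 * Real.pi), HasDerivAt g (-h x) x)
    (hi : IntervalIntegrable (fun x => fa ((k + 2) :: l) x * (h x : ℂ)) volume 0
      (Real.pi / 3)) :
    ∫ x in (0 : ℝ)..(Real.pi / 3), fa ((k + 1) :: l) x * (A' x : ℂ) * (g x : ℂ) =
      V ((k + 2) :: l) rho * (g (Real.pi / 3) : ℂ) +
      (∫ x in (0 : ℝ)..(Real.pi / 3), fa ((k + 2) :: l) x * (h x : ℂ)) +
      Complex.I / 2 * ∫ x in (0 : ℝ)..(Real.pi / 3), fa ((k + 1) :: l) x * (g x : ℂ) := by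
  have hpi := Real.pi_pos
  have hl1 : Adm ((k + 1) :: l) := Adm_cons hl
  have hl2 : Adm ((k + 2) :: l) := Adm_cons (k := k + 1) hl
  have hI := int_fa hl1 hg hc
  have hJ := int_faA hl1 (by simp) hg hc
  have key := ftc (F := fun x => fa ((k + 2) :: l) x * (g x : ℂ))
    (f := fun x => (fa ((k + 1) :: l) x * (A' x : ℂ) * (g x : ℂ) -
      Complex.I / 2 * (fa ((k + 1) :: l) x * (g x : ℂ))) - fa ((k + 2) :: l) x * (h x : ℂ)) ?_
    ((hJ.sub (hI.const_mul (Complex.I / 2))).sub hi) (bd_zero hl2 (by simp) hg)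
    ((fa_cont_pi3 hl2).mul (g_cont_pi3 hc)).continuousWithinAt
  · rw [intervalIntegral.integral_sub (hJ.sub (hI.const_mul (Complex.I / 2))) hi,
      intervalIntegral.integral_sub hJ (hI.const_mul (Complex.I / 2)),
      intervalIntegral.integral_const_mul] at key
    simp only [fa_pi3] at key
    linear_combination key
  · intro x hx
    have hxb : x ∈ Ioo 0 (2 * Real.pi) := ⟨hx.1, by linarith [hx.2]⟩
    have e1 := fa_succ (k := k) hl hx.1 (by linarith [hx.2])
    have e2 := (hd x hxb).ofReal_comp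
    have e3 := e1.mul e2
    have e4 : fa ((k + 1) :: l) x * (A' x : ℂ) * (g x : ℂ) -
        Complex.I / 2 * (fa ((k + 1) :: l) x * (g x : ℂ)) - fa ((k + 2) :: l) x * (h x : ℂ) =
        ((A' x : ℂ) - Complex.I / 2) * fa ((k + 1) :: l) x * (g x : ℂ) +
          fa ((k + 2) :: l) x * ((-h x : ℝ) : ℂ) := by
      push_cast
      ring
    show HasDerivAt (fun x => fa ((k + 2) :: l) x * (g x : ℂ))
      (fa ((k + 1) :: l) x * (A' x : ℂ) * (g x : ℂ) -
        Complex.I / 2 * (fa ((k + 1) :: l) x * (g x : ℂ)) - fa ((k + 2) :: l) x * (h x : ℂ)) x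
    rw [e4]
    exact e3

end Pool.Agent.MPc258
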