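import Mathlib
import Pool.Agent.Lib.MP_c25811_nt.Tw

/-!
# MP_c25811_nt: the pairings with iterated integrals are combinations of the values at `rho`
-/

set_option autoImplicit false

open Set Filter Topology Metric MeasureTheory

namespace Pool.Agent.MPc258

/-- the complex values of weight `k` -/
noncomputable def VS (k : ℕ) : Submodule ℚ ℂ :=
  Submodule.span ℚ {z | ∃ l : List ℕ, Adm l ∧ l.sum = k ∧ z = V l rho}

theorem V_mem {l : List ℕ} (hl : Adm l) : V l rho ∈ VS l.sum :=
  Submodule.subset_span ⟨l, hl, rfl, rfl⟩

theorem VS_half {k : ℕ} {z : ℂ} (h : z ∈ VS k) : z / 2 ∈ VS k := by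
  have h1 := (VS k).smul_mem (1 / 2 : ℚ) h
  have h2 : ((1 / 2 : ℚ)) • z = z / 2 := by
    rw [Rat.smul_def]
    push_cast
    ring
  rwa [h2] at h1

/-- the first pairing -/
noncomputable def P1 (l : List ℕ) (g : ℝ → ℝ) : ℂ :=
  ∫ x in (0 : ℝ)..(Real.pi / 3), fa l x * (g x : ℂ)

/-- the second pairing -/
noncomputable def P2 (l : List ℕ) (g : ℝ → ℝ) : ℂ :=
  ∫ x in (0 : ℝ)..(Real.pi / 3), fa l x * (A' x : ℂ) * (g x : ℂ)

theorem P1_true (l : List ℕ) (g : ℝ → ℝ) : P1 l (fun x => ph true x * g x) = P2 l g := by
  unfold P1 P2
  congr 1
  funext x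
  simp only [ph, if_true]
  push_cast
  ring

theorem P1_false (l : List ℕ) (g : ℝ → ℝ) : P1 l (fun x => ph false x * g x) = P1 l g := by
  unfold P1
  congr 1
  funext x
  simp [ph]

/-- integrability of the right sides -/
theorem int_ph {l : List ℕ} (hl : Adm l) (hn : l ≠ []) (b : Bool) (u : List Bool) :
    IntervalIntegrable (fun x => fa l x * ((ph b x * T u x : ℝ) : ℂ)) volume 0
      (Real.pi / 3) := by
  cases b with
  | true =>
    have h := int_faA hl hn (SB_T u) (continuousOn_T u)
    have e : (fun x => fa l x * ((ph true x * T u x : ℝ) : ℂ)) =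
        fun x => fa l x * (A' x : ℂ) * (T u x : ℂ) := by
      funext x
      simp only [ph, if_true]
      push_cast
      ring
    rw [e]
    exact h
  | false =>
    have h := int_fa hl (SB_T u) (continuousOn_T u)
    have e : (fun x => fa l x * ((ph false x * T u x : ℝ) : ℂ)) =
        fun x => fa l x * (T u x : ℂ) := by
      funext x
      simp [ph]
    rw [e]
    exact h

/-- the pairing with a constant -/
theorem P1_nil {l : List ℕ} (hl : Adm l) : Complex.I * P1 l (T []) = V (1 :: l) rho := by
  have hpi := Real.pi_pos
  have hl1 : Adm (1 :: l) := Adm_cons (k := 0) hl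
  have hI := int_fa hl (SB_T []) (continuousOn_T [])
  have hT : ∀ x, T [] x = 1 := fun x => by rw [T]
  have key := ftc (F := fun x => fa (1 :: l) x * (T [] x : ℂ))
    (f := fun x => Complex.I * (fa l x * (T [] x : ℂ))) ?_
    (hI.const_mul Complex.I) (bd_zero hl1 (by simp) (SB_T []))
    ((fa_cont_pi3 hl1).mul (g_cont_pi3 (continuousOn_T []))).continuousWithinAt
  · rw [intervalIntegral.integral_const_mul, hT, fa_pi3] at key
    unfold P1
    rw [key]
    push_cast
    ring
  · intro x hx
    have e1 := fa_one hl hx.1 (by linarith [hx.2])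
    have e2 : (fun x => fa (1 :: l) x * (T [] x : ℂ)) = fa (1 :: l) := by
      funext y
      rw [hT]
      push_cast
      ring
    rw [e2, hT]
    push_cast
    rw [mul_one]
    exact e1

theorem P1_cons {l : List ℕ} (hl : Adm l) (b : Bool) (u : List Bool) :
    P1 l (T (b :: u)) = -Complex.I * P1 (1 :: l) (fun x => ph b x * T u x) :=
  parts1 hl (SB_T _) (continuousOn_T _) (fun x hx => hasDerivAt_T b u hx) (T_pi3 b u)
    (int_ph (Adm_cons (k := 0) hl) (by simp) b u)

theorem P2_cons {k : ℕ} {l : List ℕ} (hl : Adm l) (b : Bool) (u : List Bool) :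
    P2 ((k + 1) :: l) (T (b :: u)) = P1 ((k + 2) :: l) (fun x => ph b x * T u x) +
      Complex.I / 2 * P1 ((k + 1) :: l) (T (b :: u)) := by
  have h := parts2 (k := k) hl (SB_T (b :: u)) (continuousOn_T _)
    (fun x hx => hasDerivAt_T b u hx) (int_ph (Adm_cons (k := k + 1) hl) (by simp) b u)
  rw [T_pi3] at h
  unfold P2 P1
  rw [h]
  push_cast
  ring

theorem P2_nil {k : ℕ} {l : List ℕ} (hl : Adm l) :
    P2 ((k + 1) :: l) (T []) = V ((k + 2) :: l) rho +
      Complex.I / 2 * P1 ((k + 1) :: l) (T []) := by
  have hT : ∀ x, T [] x = 1 := fun x => by rw [T]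
  have hi : IntervalIntegrable (fun x => fa ((k + 2) :: l) x * (((fun _ => (0 : ℝ)) x : ℝ) : ℂ))
      volume 0 (Real.pi / 3) := by simp
  have h := parts2 (k := k) hl (SB_T []) (continuousOn_T [])
    (h := fun _ => 0) (fun x _ => by
      have e : T [] = fun _ => (1 : ℝ) := by funext y; rw [T]
      rw [e, neg_zero]
      exact hasDerivAt_const x 1) hi
  rw [hT] at h
  unfold P2 P1
  rw [h]
  simp

/-- the main induction -/
theorem pair_mem (u : List Bool) :
    (∀ l : List ℕ, Adm l → Complex.I ^ (u.count false + 1) * P1 l (T u) ∈
      VS (l.sum + u.length + 1)) ∧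
    (∀ (k : ℕ) (l : List ℕ), Adm l → Complex.I ^ (u.count false) * P2 ((k + 1) :: l) (T u) ∈
      VS ((k + 1) + l.sum + u.length + 1)) := by
  induction u with
  | nil =>
    have h1 : ∀ l : List ℕ, Adm l → Complex.I ^ (([] : List Bool).count false + 1) *
        P1 l (T []) ∈ VS (l.sum + ([] : List Bool).length + 1) := by
      intro l hl
      have e : Complex.I ^ (([] : List Bool).count false + 1) * P1 l (T []) =
          V (1 :: l) rho := by
        rw [← P1_nil hl]
        simp
      rw [e]
      have h2 := V_mem (Adm_cons (k := 0) hl)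
      have e2 : ((0 + 1) :: l).sum = l.sum + ([] : List Bool).length + 1 := by
        simp
        ring
      rwa [e2] at h2
    refine ⟨h1, fun k l hl => ?_⟩
    have h3 := h1 ((k + 1) :: l) (Adm_cons hl)
    have h4 := VS_half h3
    have h5 := V_mem (Adm_cons (k := k + 1) hl)
    have e1 : ((k + 1 + 1) :: l).sum = (k + 1) + l.sum + ([] : List Bool).length + 1 := by
      simp
      ring
    have e2 : ((k + 1) :: l).sum = (k + 1) + l.sum := by simp
    rw [e1] at h5
    rw [e2] at h4
    have h6 := (VS _).add_mem h5 h4
    have e3 : Complex.I ^ (([] : List Bool).count false) * P2 ((k + 1) :: l) (T []) =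
        V ((k + 1 + 1) :: l) rho +
          Complex.I ^ (([] : List Bool).count false + 1) * P1 ((k + 1) :: l) (T []) / 2 := by
      rw [P2_nil hl]
      simp
      ring
    rw [e3]
    exact h6
  | cons b u ih =>
    obtain ⟨ih1, ih2⟩ := ih
    have h1 : ∀ l : List ℕ, Adm l → Complex.I ^ ((b :: u).count false + 1) *
        P1 l (T (b :: u)) ∈ VS (l.sum + (b :: u).length + 1) := by
      intro l hl
      rw [P1_cons hl]
      have hl1 : Adm (1 :: l) := Adm_cons (k := 0) hl
      cases b with
      | true =>
        rw [P1_true]
        have h2 := ih2 0 l hl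
        have e1 : Complex.I ^ ((true :: u).count false + 1) *
            (-Complex.I * P2 (1 :: l) (T u)) =
            Complex.I ^ (u.count false) * P2 ((0 + 1) :: l) (T u) := by
          have hc : (true :: u).count false = u.count false := by simp
          rw [hc, pow_succ]
          have hII := Complex.I_mul_I
          have : Complex.I ^ (u.count false) * Complex.I * (-Complex.I * P2 (1 :: l) (T u)) =
              -(Complex.I * Complex.I) * (Complex.I ^ (u.count false) * P2 (1 :: l) (T u)) := by
            ring
          rw [this, hII]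
          simp
        rw [e1]
        have e2 : l.sum + (true :: u).length + 1 = (0 + 1) + l.sum + u.length + 1 := by
          simp
          ring
        rw [e2]
        exact h2
      | false =>
        rw [P1_false]
        have h2 := ih1 (1 :: l) hl1
        have e1 : Complex.I ^ ((false :: u).count false + 1) *
            (-Complex.I * P1 (1 :: l) (T u)) =
            Complex.I ^ (u.count false + 1) * P1 (1 :: l) (T u) := by
          have hc : (false :: u).count false = u.count false + 1 := by simp
          rw [hc, pow_succ]
          have hII := Complex.I_mul_I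
          have : Complex.I ^ (u.count false + 1) * Complex.I *
              (-Complex.I * P1 (1 :: l) (T u)) =
              -(Complex.I * Complex.I) *
                (Complex.I ^ (u.count false + 1) * P1 (1 :: l) (T u)) := by
            ring
          rw [this, hII]
          ring
        rw [e1]
        have e2 : l.sum + (false :: u).length + 1 = (1 :: l).sum + u.length + 1 := by
          simp
          ring
        rw [e2]
        exact h2
    refine ⟨h1, fun k l hl => ?_⟩
    have h3 := h1 ((k + 1) :: l) (Adm_cons hl)
    have h4 := VS_half h3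
    have e2 : ((k + 1) :: l).sum = (k + 1) + l.sum := by simp
    rw [e2] at h4
    rw [P2_cons hl, mul_add]
    refine (VS _).add_mem ?_ ?_
    · cases b with
      | true =>
        rw [P1_true]
        have h5 := ih2 (k + 1) l hl
        have hc : (true :: u).count false = u.count false := by simp
        rw [hc]
        have e3 : (k + 1) + l.sum + (true :: u).length + 1 =
            (k + 1 + 1) + l.sum + u.length + 1 := by
          simp
          ring
        rw [e3]
        exact h5
      | false =>
        rw [P1_false]
        have h5 := ih1 ((k + 2) :: l) (Adm_cons (k := k + 1) hl)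
        have hc : (false :: u).count false = u.count false + 1 := by simp
        rw [hc]
        have e3 : (k + 1) + l.sum + (false :: u).length + 1 =
            ((k + 2) :: l).sum + u.length + 1 := by
          simp
          ring
        rw [e3]
        exact h5
    · have e3 : Complex.I ^ ((b :: u).count false) *
          (Complex.I / 2 * P1 ((k + 1) :: l) (T (b :: u))) =
          Complex.I ^ ((b :: u).count false + 1) * P1 ((k + 1) :: l) (T (b :: u)) / 2 := by
        ring
      rw [e3]
      exact h4

/-- the multiple Clausen value -/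
noncomputable def Cl (l : List ℕ) : ℝ :=
  if Even l.sum then (V l rho).im else (V l rho).re

/-- the space `C_k` -/
noncomputable def CS (k : ℕ) : Submodule ℚ ℝ :=
  Submodule.span ℚ {x | ∃ l : List ℕ, Adm l ∧ l.sum = k ∧ x = Cl l}

theorem Cl_mem {l : List ℕ} (hl : Adm l) : Cl l ∈ CS l.sum :=
  Submodule.subset_span ⟨l, hl, rfl, rfl⟩

theorem re_im_mem {k : ℕ} {z : ℂ} (h : z ∈ VS k) :
    (if Even k then z.im else z.re) ∈ CS k := by
  unfold VS at h
  induction h using Submodule.span_induction with
  | mem z hz =>
    obtain ⟨l, hl, rfl, rfl⟩ := hz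
    exact Cl_mem hl
  | zero =>
    have : (if Even k then (0 : ℂ).im else (0 : ℂ).re) = 0 := by
      split_ifs <;> simp
    rw [this]
    exact (CS k).zero_mem
  | add z w _ _ hz hw =>
    have e : (if Even k then (z + w).im else (z + w).re) =
        (if Even k then z.im else z.re) + (if Even k then w.im else w.re) := by
      split_ifs
      · exact Complex.add_im z w
      · exact Complex.add_re z w
    rw [e]
    exact (CS k).add_mem hz hw
  | smul q z _ hz =>
    have e : (if Even k then (q • z).im else (q • z).re) =
        q • (if Even k then z.im else z.re) := by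
      split_ifs
      · rw [Rat.smul_def, Rat.smul_def, Complex.mul_im]
        simp
      · rw [Rat.smul_def, Rat.smul_def, Complex.mul_re]
        simp
    rw [e]
    exact (CS k).smul_mem q hz

/-- a real number `x` with `I ^ j * x` in `VS k`, `j + k` odd, is in `CS k` -/
theorem real_mem {k j : ℕ} {x : ℝ} (h : Complex.I ^ j * (x : ℂ) ∈ VS k) (hj : Odd (j + k)) :
    x ∈ CS k := by
  have h1 := re_im_mem h
  have hpm : (if Even k then (Complex.I ^ j * (x : ℂ)).im else (Complex.I ^ j * (x : ℂ)).re) = x ∨
      (if Even k then (Complex.I ^ j * (x : ℂ)).im else (Complex.I ^ j * (x : ℂ)).re) = -x := by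
    rcases Nat.even_or_odd k with hk | hk
    · rw [if_pos hk]
      have hj' : Odd j := by
        rcases Nat.even_or_odd j with h2 | h2
        · exact absurd (h2.add hk) (Nat.not_even_iff_odd.2 hj)
        · exact h2
      obtain ⟨m, rfl⟩ := hj'
      have e : Complex.I ^ (2 * m + 1) = (-1) ^ m * Complex.I := by
        rw [pow_succ, pow_mul, Complex.I_sq]
      rcases neg_one_pow_eq_or ℂ m with h3 | h3
      · left
        rw [e, h3]
        simp
      · right
        rw [e, h3]
        simp
    · rw [if_neg (Nat.not_even_iff_odd.2 hk)]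
      have hj' : Even j := by
        rcases Nat.even_or_odd j with h2 | h2
        · exact h2
        · exact absurd (h2.add_odd hk) (Nat.not_even_iff_odd.2 hj)
      obtain ⟨m, rfl⟩ := hj'
      have e : Complex.I ^ (m + m) = (-1) ^ m := by
        rw [← two_mul, pow_mul, Complex.I_sq]
      rcases neg_one_pow_eq_or ℂ m with h3 | h3
      · left
        rw [e, h3]
        simp
      · right
        rw [e, h3]
        simp
  rcases hpm with h2 | h2
  · rwa [h2] at h1
  · rw [h2] at h1
    simpa using (CS k).neg_mem h1

end Pool.Agent.MPc258
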