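import Mathlib
import Pool.Agent.Lib.MP_c25811_nt.Mem

/-!
# MP_c25811_nt: the span of the iterated integrals is closed under products; membership of the
shifted log-sine integrals
-/

set_option autoImplicit false

open Set Filter Topology Metric MeasureTheory

namespace Pool.Agent.MPc258

/-- rational combinations of the `T u` with `p` letters `false` and `a` letters `true` -/
inductive InT : ℕ → ℕ → (ℝ → ℝ) → Prop
  | base (u : List Bool) : InT (u.count false) (u.count true) (T u)
  | zero (p a : ℕ) : InT p a (fun _ => 0)
  | add {p a : ℕ} {f g : ℝ → ℝ} : InT p a f → InT p a g → InT p a (fun x => f x + g x)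
  | smul {p a : ℕ} {f : ℝ → ℝ} (q : ℚ) : InT p a f → InT p a (fun x => q * f x)
  | congr {p a : ℕ} {f g : ℝ → ℝ} : InT p a f → ContinuousOn g (Ioo 0 (2 * Real.pi)) →
      (∀ x ∈ Ioc 0 (Real.pi / 3), f x = g x) → InT p a g

theorem InT.cont {p a : ℕ} {f : ℝ → ℝ} (h : InT p a f) :
    ContinuousOn f (Ioo 0 (2 * Real.pi)) := by
  induction h with
  | base u => exact continuousOn_T u
  | zero p a => exact continuousOn_const
  | add _ _ h1 h2 => exact h1.add h2
  | smul q _ h => exact continuousOn_const.mul h
  | congr _ hc _ _ => exact hc

theorem InT.sb {p a : ℕ} {f : ℝ → ℝ} (h : InT p a f) : SB f := by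
  induction h with
  | base u => exact SB_T u
  | zero p a => exact SB_const 0
  | add _ _ h1 h2 => exact h1.add h2
  | @smul p a f q _ h =>
    refine h.mono |(q : ℝ)| (abs_nonneg _) fun x _ => ?_
    rw [norm_mul, Real.norm_eq_abs]
  | congr _ _ he h =>
    refine h.mono 1 zero_le_one fun x hx => ?_
    rw [← he x hx, one_mul]

/-- the tail operator -/
noncomputable def tl (b : Bool) (f : ℝ → ℝ) (x : ℝ) : ℝ :=
  ∫ y in x..(Real.pi / 3), ph b y * f y

theorem tl_cont (b : Bool) {f : ℝ → ℝ} (hf : ContinuousOn f (Ioo 0 (2 * Real.pi))) :
    ContinuousOn (tl b f) (Ioo 0 (2 * Real.pi)) := fun _ hx =>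
  (tail_deriv ((continuousOn_ph b).mul hf) hx).continuousAt.continuousWithinAt

theorem tl_int (b : Bool) {f : ℝ → ℝ} (hf : ContinuousOn f (Ioo 0 (2 * Real.pi))) {x : ℝ}
    (hx : x ∈ Ioc 0 (Real.pi / 3)) :
    IntervalIntegrable (fun y => ph b y * f y) volume x (Real.pi / 3) :=
  (((continuousOn_ph b).mul hf).mono (uIcc_sub (mem_big hx))).intervalIntegrable

theorem InT.tl {p a : ℕ} {f : ℝ → ℝ} (h : InT p a f) :
    InT (p + 1) a (tl false f) ∧ InT p (a + 1) (tl true f) := by
  induction h with
  | base u =>
    constructor
    · have h1 := InT.base (false :: u)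
      have e : T (false :: u) = MPc258.tl false (T u) := by
        funext x
        rw [T]
        rfl
      rw [e] at h1
      simpa using h1
    · have h1 := InT.base (true :: u)
      have e : T (true :: u) = MPc258.tl true (T u) := by
        funext x
        rw [T]
        rfl
      rw [e] at h1
      simpa using h1
  | zero p a =>
    have e : ∀ b, MPc258.tl b (fun _ => (0 : ℝ)) = fun _ => 0 := by
      intro b
      funext x
      simp [MPc258.tl]
    rw [e, e]
    exact ⟨InT.zero _ _, InT.zero _ _⟩
  | @add p a f g hf hg h1 h2 =>
    have e : ∀ b, ∀ x ∈ Ioc 0 (Real.pi / 3), MPc258.tl b f x + MPc258.tl b g x =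
        MPc258.tl b (fun x => f x + g x) x := by
      intro b x hx
      unfold MPc258.tl
      rw [← intervalIntegral.integral_add (tl_int b hf.cont hx) (tl_int b hg.cont hx)]
      congr 1
      funext y
      ring
    exact ⟨InT.congr (InT.add h1.1 h2.1) (tl_cont _ (hf.cont.add hg.cont)) (e false),
      InT.congr (InT.add h1.2 h2.2) (tl_cont _ (hf.cont.add hg.cont)) (e true)⟩
  | @smul p a f q hf h1 =>
    have e : ∀ b, ∀ x, (q : ℝ) * MPc258.tl b f x = MPc258.tl b (fun x => q * f x) x := by
      intro b x
      unfold MPc258.tl
      rw [← intervalIntegral.integral_const_mul]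
      congr 1
      funext y
      ring
    have e' : ∀ b, (fun x => (q : ℝ) * MPc258.tl b f x) = MPc258.tl b (fun x => q * f x) :=
      fun b => funext (e b)
    rw [← e', ← e']
    exact ⟨InT.smul q h1.1, InT.smul q h1.2⟩
  | @congr p a f g hf hc he h1 =>
    have e : ∀ b, ∀ x ∈ Ioc 0 (Real.pi / 3), MPc258.tl b f x = MPc258.tl b g x := by
      intro b x hx
      unfold MPc258.tl
      refine intervalIntegral.integral_congr_uIoo ?_
      intro y hy
      rw [uIoo_of_le hx.2] at hy
      show ph b y * f y = ph b y * g y
      rw [he y ⟨hx.1.trans hy.1, hy.2.le⟩]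
    exact ⟨InT.congr h1.1 (tl_cont _ hc) (e false), InT.congr h1.2 (tl_cont _ hc) (e true)⟩

/-- the product rule for two words -/
theorem T_mul (b c : Bool) (u v : List Bool) {x : ℝ} (hx : x ∈ Ioc 0 (Real.pi / 3)) :
    tl b (fun y => T u y * T (c :: v) y) x + tl c (fun y => T (b :: u) y * T v y) x =
      T (b :: u) x * T (c :: v) x := by
  have h1 : ContinuousOn (fun y => T u y * T (c :: v) y) (Ioo 0 (2 * Real.pi)) :=
    (continuousOn_T _).mul (continuousOn_T _)
  have h2 : ContinuousOn (fun y => T (b :: u) y * T v y) (Ioo 0 (2 * Real.pi)) :=
    (continuousOn_T _).mul (continuousOn_T _)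
  unfold tl
  rw [← intervalIntegral.integral_add (tl_int b h1 hx) (tl_int c h2 hx)]
  have h3 := intervalIntegral.integral_eq_sub_of_hasDerivAt (a := x) (b := Real.pi / 3)
    (f := fun y => -(T (b :: u) y * T (c :: v) y))
    (f' := fun y => ph b y * (T u y * T (c :: v) y) + ph c y * (T (b :: u) y * T v y))
    (fun y hy => ?_) ((tl_int b h1 hx).add (tl_int c h2 hx))
  · rw [h3, T_pi3, T_pi3]
    ring
  · have hyb := uIcc_sub (mem_big hx) hy
    have h4 := ((hasDerivAt_T b u hyb).mul (hasDerivAt_T c v hyb)).neg
    have e : ph b y * (T u y * T (c :: v) y) + ph c y * (T (b :: u) y * T v y) =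
        -(-(ph b y * T u y) * T (c :: v) y + T (b :: u) y * -(ph c y * T v y)) := by ring
    rw [e]
    exact h4

theorem mul_base (n : ℕ) : ∀ u v : List Bool, u.length + v.length = n →
    InT (u.count false + v.count false) (u.count true + v.count true)
      (fun x => T u x * T v x) := by
  induction n using Nat.strong_induction_on with
  | _ n ih =>
    intro u v hn
    match u, v with
    | [], v =>
      have e : (fun x => T [] x * T v x) = T v := by
        funext x
        rw [T, one_mul]
      rw [e]
      simpa using InT.base v
    | (b :: u), [] =>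
      have e : (fun x => T (b :: u) x * T [] x) = T (b :: u) := by
        funext x
        have : T [] x = 1 := by rw [T]
        rw [this, mul_one]
      rw [e]
      simpa using InT.base (b :: u)
    | (b :: u), (c :: v) =>
      have h1 := ih (u.length + (c :: v).length) (by simp at hn ⊢; omega) u (c :: v) rfl
      have h2 := ih ((b :: u).length + v.length) (by simp at hn ⊢; omega) (b :: u) v rfl
      have hc : ContinuousOn (fun x => T (b :: u) x * T (c :: v) x) (Ioo 0 (2 * Real.pi)) :=
        (continuousOn_T _).mul (continuousOn_T _)
      have key : ∀ P Q : ℕ, InT P Q (tl b (fun y => T u y * T (c :: v) y)) →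
          InT P Q (tl c (fun y => T (b :: u) y * T v y)) →
          InT P Q (fun x => T (b :: u) x * T (c :: v) x) := fun P Q k1 k2 =>
        InT.congr (InT.add k1 k2) hc fun x hx => T_mul b c u v hx
      have k1 : InT ((b :: u).count false + (c :: v).count false)
          ((b :: u).count true + (c :: v).count true)
          (tl b (fun y => T u y * T (c :: v) y)) := by
        cases b with
        | false =>
          have := h1.tl.1
          have e1 : (false :: u).count false + (c :: v).count false =
              u.count false + (c :: v).count false + 1 := by simp; ring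
          have e2 : (false :: u).count true = u.count true := by simp
          rw [e1, e2]
          exact this
        | true =>
          have := h1.tl.2
          have e1 : (true :: u).count false = u.count false := by simp
          have e2 : (true :: u).count true + (c :: v).count true =
              u.count true + (c :: v).count true + 1 := by simp; ring
          rw [e1, e2]
          exact this
      have k2 : InT ((b :: u).count false + (c :: v).count false)
          ((b :: u).count true + (c :: v).count true)
          (tl c (fun y => T (b :: u) y * T v y)) := by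
        cases c with
        | false =>
          have := h2.tl.1
          have e1 : (b :: u).count false + (false :: v).count false =
              (b :: u).count false + v.count false + 1 := by simp; ring
          have e2 : (false :: v).count true = v.count true := by simp
          rw [e1, e2]
          exact this
        | true =>
          have := h2.tl.2
          have e1 : (true :: v).count false = v.count false := by simp
          have e2 : (b :: u).count true + (true :: v).count true =
              (b :: u).count true + v.count true + 1 := by simp; ring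
          rw [e1, e2]
          exact this
      exact key _ _ k1 k2

theorem mul_left_base (u : List Bool) {p a : ℕ} {g : ℝ → ℝ} (h : InT p a g) :
    InT (u.count false + p) (u.count true + a) (fun x => T u x * g x) := by
  induction h with
  | base v => exact mul_base _ u v rfl
  | zero p a =>
    have e : (fun x => T u x * (0 : ℝ)) = fun _ => 0 := by funext x; ring
    rw [e]
    exact InT.zero _ _
  | add _ _ h1 h2 =>
    refine InT.congr (InT.add h1 h2) ?_ fun x _ => by ring
    rename_i hf hg
    exact (continuousOn_T u).mul (hf.cont.add hg.cont)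
  | smul q hf h =>
    refine InT.congr (InT.smul q h) ?_ fun x _ => by ring
    exact (continuousOn_T u).mul (continuousOn_const.mul hf.cont)
  | congr _ hc he h =>
    refine InT.congr h ((continuousOn_T u).mul hc) fun x hx => ?_
    rw [he x hx]

theorem InT.mul {p a q b : ℕ} {f g : ℝ → ℝ} (hf : InT p a f) (hg : InT q b g) :
    InT (p + q) (a + b) (fun x => f x * g x) := by
  induction hf with
  | base u => exact mul_left_base u hg
  | zero p a =>
    have e : (fun x => (0 : ℝ) * g x) = fun _ => 0 := by funext x; ring
    rw [e]
    exact InT.zero _ _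
  | add _ _ h1 h2 =>
    refine InT.congr (InT.add h1 h2) ?_ fun x _ => by ring
    rename_i hf hg'
    exact (hf.cont.add hg'.cont).mul hg.cont
  | smul r hf h =>
    refine InT.congr (InT.smul r h) ?_ fun x _ => by ring
    exact (continuousOn_const.mul hf.cont).mul hg.cont
  | congr _ hc he h =>
    refine InT.congr h (hc.mul hg.cont) fun x hx => ?_
    rw [he x hx]

/-- the pairing with `1` -/
theorem InT.mem {p a : ℕ} {f : ℝ → ℝ} (h : InT p a f) :
    Complex.I ^ (p + 1) * ((∫ x in (0 : ℝ)..(Real.pi / 3), f x : ℝ) : ℂ) ∈ VS (p + a + 1) := by
  have hpi := Real.pi_pos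
  have hint : ∀ {p a : ℕ} {f : ℝ → ℝ}, InT p a f →
      IntervalIntegrable f volume 0 (Real.pi / 3) := fun h =>
    h.sb.int (h.cont.mono fun _ hx => mem_big hx)
  induction h with
  | base u =>
    have hl : Adm [] := fun k hk => absurd hk List.not_mem_nil
    have h1 := (pair_mem u).1 [] hl
    have e1 : P1 [] (T u) = ((∫ x in (0 : ℝ)..(Real.pi / 3), T u x : ℝ) : ℂ) := by
      unfold P1
      rw [← intervalIntegral.integral_ofReal]
      refine intervalIntegral.integral_congr_uIoo ?_
      intro x hx
      rw [uIoo_of_le (by positivity)] at hx
      show fa [] x * (T u x : ℂ) = (T u x : ℂ)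
      rw [fa_nil x hx.1 hx.2.le, one_mul]
    have e2 : ([] : List ℕ).sum + u.length + 1 = u.count false + u.count true + 1 := by
      have := List.count_false_add_count_true u
      simp
    rw [e1, e2] at h1
    exact h1
  | zero p a => simp
  | add hf hg h1 h2 =>
    rw [intervalIntegral.integral_add (hint hf) (hint hg)]
    push_cast
    rw [mul_add]
    exact (VS _).add_mem h1 h2
  | @smul p a f q hf h =>
    rw [intervalIntegral.integral_const_mul]
    have h1 := (VS (p + a + 1)).smul_mem q h
    rw [Rat.smul_def] at h1
    have e : (q : ℂ) * (Complex.I ^ (p + 1) *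
        ((∫ x in (0 : ℝ)..(Real.pi / 3), f x : ℝ) : ℂ)) =
        Complex.I ^ (p + 1) *
          (((q : ℝ) * ∫ x in (0 : ℝ)..(Real.pi / 3), f x : ℝ) : ℂ) := by
      push_cast
      ring
    rwa [e] at h1
  | @congr p a f g hf hc he h =>
    have e : ∫ x in (0 : ℝ)..(Real.pi / 3), g x = ∫ x in (0 : ℝ)..(Real.pi / 3), f x := by
      refine intervalIntegral.integral_congr_uIoo ?_
      intro x hx
      rw [uIoo_of_le (by positivity)] at hx
      exact (he x ⟨hx.1, hx.2.le⟩).symm
    rw [e]
    exact h

end Pool.Agent.MPc258
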