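import Mathlib
import Pool.Agent.Lib.MP_c25811_nt.Shf

/-!
# MP_c25811_nt: the shifted log-sine integrals and their membership in `C_k`
-/

set_option autoImplicit false

open Set Filter Topology Metric MeasureTheory

namespace Pool.Agent.MPc258

/-- `tS [k_1, ..., k_n] x` is the iterated integral over `x < θ_1 < ... < θ_n < π / 3` -/
noncomputable def tS : List ℕ → ℝ → ℝ
  | [], _ => 1
  | (k :: ks), x => ∫ y in x..(Real.pi / 3), (y - Real.pi / 3) ^ (k - 2) * A y * tS ks y

/-- the shifted log-sine integral -/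
noncomputable def SLs (ks : List ℕ) : ℝ := tS ks 0

theorem continuousOn_A : ContinuousOn A (Ioo 0 (2 * Real.pi)) := fun _ hx =>
  (hasDerivAt_A hx.1 hx.2).continuousAt.continuousWithinAt

theorem T_true {x : ℝ} (hx : x ∈ Ioo 0 (2 * Real.pi)) : T [true] x = -A x := by
  rw [T]
  have e : ∀ y, ph true y * T [] y = A' y := by
    intro y
    rw [T]
    simp [ph]
  simp_rw [e]
  rw [intervalIntegral.integral_eq_sub_of_hasDerivAt
    (fun y hy => hasDerivAt_A (uIcc_sub hx hy).1 (uIcc_sub hx hy).2)
    (continuousOn_A'.mono (uIcc_sub hx)).intervalIntegrable, A_pi3, zero_sub]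

theorem T_false (x : ℝ) : T [false] x = Real.pi / 3 - x := by
  rw [T]
  have e : ∀ y, ph false y * T [] y = 1 := by
    intro y
    rw [T]
    simp [ph]
  simp_rw [e]
  rw [intervalIntegral.integral_const, smul_eq_mul, mul_one]

theorem InT_A : InT 0 1 A := by
  have h := InT.smul (-1) (InT.base [true])
  refine InT.congr (by simpa using h) continuousOn_A fun x hx => ?_
  rw [T_true (mem_big hx)]
  push_cast
  ring

theorem InT_sub : InT 1 0 (fun x => x - Real.pi / 3) := by
  have h := InT.smul (-1) (InT.base [false])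
  refine InT.congr (by simpa using h) (by fun_prop) fun x hx => ?_
  rw [T_false]
  push_cast
  ring

theorem InT_one : InT 0 0 (fun _ => 1) := by
  refine InT.congr (InT.base []) continuousOn_const fun x _ => ?_
  rw [T]

theorem InT_pow (j : ℕ) : InT j 0 (fun x => (x - Real.pi / 3) ^ j) := by
  induction j with
  | zero => simpa using InT_one
  | succ j ih =>
    have h := ih.mul InT_sub
    simpa [pow_succ] using h

theorem continuousOn_tS (ks : List ℕ) : ContinuousOn (tS ks) (Ioo 0 (2 * Real.pi)) := by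
  induction ks with
  | nil =>
    have : tS [] = fun _ => 1 := by funext x; rw [tS]
    rw [this]
    exact continuousOn_const
  | cons k ks ih =>
    intro x hx
    have h : tS (k :: ks) =
        fun x => ∫ y in x..(Real.pi / 3), (y - Real.pi / 3) ^ (k - 2) * A y * tS ks y := by
      funext x; rw [tS]
    rw [h]
    refine (tail_deriv (g := fun y => (y - Real.pi / 3) ^ (k - 2) * A y * tS ks y)
      (((by fun_prop : ContinuousOn (fun y : ℝ => (y - Real.pi / 3) ^ (k - 2))
      (Ioo 0 (2 * Real.pi))).mul continuousOn_A).mul ih) hx).continuousAt.continuousWithinAt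

/-- the sum of `k - 1` -/
def wd (ks : List ℕ) : ℕ := (ks.map (fun k => k - 1)).sum

theorem wd_cons (k : ℕ) (ks : List ℕ) : wd (k :: ks) = (k - 1) + wd ks := by
  simp [wd]

theorem wd_add {ks : List ℕ} (h : ∀ k ∈ ks, 2 ≤ k) : wd ks + ks.length = ks.sum := by
  induction ks with
  | nil => simp [wd]
  | cons k ks ih =>
    have h1 := ih fun j hj => h j (List.mem_cons_of_mem _ hj)
    have h2 := h k List.mem_cons_self
    rw [wd_cons, List.length_cons, List.sum_cons]
    omega

theorem InT_tS {ks : List ℕ} (h : ∀ k ∈ ks, 2 ≤ k) : InT (wd ks) ks.length (tS ks) := by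
  induction ks with
  | nil =>
    have e : tS [] = fun _ => 1 := by funext x; rw [tS]
    rw [e]
    simpa [wd] using InT_one
  | cons k ks ih =>
    have h1 := ih fun j hj => h j (List.mem_cons_of_mem _ hj)
    have h2 := h k List.mem_cons_self
    have h3 := (((InT_pow (k - 2)).mul InT_A).mul h1).tl.1
    have e : tl false (fun x => (x - Real.pi / 3) ^ (k - 2) * A x * tS ks x) = tS (k :: ks) := by
      funext x
      rw [tS]
      unfold tl
      congr 1
      funext y
      simp [ph]
    rw [e] at h3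
    have e1 : wd (k :: ks) = k - 2 + 0 + wd ks + 1 := by
      rw [wd_cons]
      omega
    have e2 : (k :: ks).length = 0 + 1 + ks.length := by
      rw [List.length_cons]
      omega
    rw [e1, e2]
    exact h3

/-- the integrand of a shifted log-sine integral -/
theorem SLs_rep (k : ℕ) {ks : List ℕ} (h : ∀ j ∈ k :: ks, 2 ≤ j) : ∃ f : ℝ → ℝ,
    InT (wd (k :: ks) - 1) (ks.length + 1) f ∧
      ∫ x in (0 : ℝ)..(Real.pi / 3), f x = SLs (k :: ks) := by
  have h1 := InT_tS fun j hj => h j (List.mem_cons_of_mem _ hj)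
  have h2 := h k List.mem_cons_self
  have h3 := ((InT_pow (k - 2)).mul InT_A).mul h1
  refine ⟨fun x => (x - Real.pi / 3) ^ (k - 2) * A x * tS ks x, ?_, ?_⟩
  · have e1 : wd (k :: ks) - 1 = k - 2 + 0 + wd ks := by
      rw [wd_cons]
      omega
    have e2 : ks.length + 1 = 0 + 1 + ks.length := by omega
    rw [e1, e2]
    exact h3
  · unfold SLs
    rw [tS]

theorem ftcR {F f : ℝ → ℝ} (hd : ∀ x ∈ Ioo 0 (Real.pi / 3), HasDerivAt F (f x) x)
    (hi : IntervalIntegrable f volume 0 (Real.pi / 3)) (h0 : Tendsto F (𝓝[>] 0) (𝓝 0))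
    (h1 : ContinuousWithinAt F (Iio (Real.pi / 3)) (Real.pi / 3)) :
    ∫ x in (0 : ℝ)..(Real.pi / 3), f x = F (Real.pi / 3) := by
  have hpi := Real.pi_pos
  have := intervalIntegral.integral_eq_sub_of_hasDerivAt_of_tendsto
    (show (0 : ℝ) < Real.pi / 3 by positivity) hd hi h0 h1
  rw [this, sub_zero]

theorem tendsto_mul_SB {g : ℝ → ℝ} (hg : SB g) :
    Tendsto (fun x => x * g x) (𝓝[>] 0) (𝓝 0) := by
  have h := tendsto_zero_mul (f := fun x => (x : ℂ)) (g := fun x => (g x : ℂ)) (C := 1)
    zero_le_one (fun x hx => by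
      rw [Complex.norm_real, Real.norm_of_nonneg hx.1.le, one_mul]) (SB_ofReal hg)
  have h2 := (Complex.continuous_re.tendsto 0).comp h
  have e : (Complex.re ∘ fun x : ℝ => (x : ℂ) * (g x : ℂ)) = fun x => x * g x := by
    funext x
    simp
  rw [e] at h2
  simpa using h2

/-- `∫ x f x = ∫ G` with `G` the tail integral of `f` -/
theorem int_x_mul {f : ℝ → ℝ} (hf : SB f) (hc : ContinuousOn f (Ioo 0 (2 * Real.pi))) :
    ∫ x in (0 : ℝ)..(Real.pi / 3), x * f x = ∫ x in (0 : ℝ)..(Real.pi / 3), tl false f x := by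
  have hpi := Real.pi_pos
  have hG : SB (tl false f) := SB_tail false hf
  have hGc := tl_cont false hc
  have i1 : IntervalIntegrable (tl false f) volume 0 (Real.pi / 3) :=
    hG.int (hGc.mono fun _ hx => mem_big hx)
  have hxf : SB (fun x => x * f x) := by
    refine hf.mono 2 (by norm_num) fun x hx => ?_
    have h4 := Real.pi_lt_four
    rw [norm_mul, Real.norm_of_nonneg hx.1.le]
    exact mul_le_mul_of_nonneg_right (by linarith [hx.2]) (norm_nonneg _)
  have i2 : IntervalIntegrable (fun x => x * f x) volume 0 (Real.pi / 3) :=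
    hxf.int ((continuousOn_id.mul hc).mono fun _ hx => mem_big hx)
  have key := ftcR (F := fun x => x * tl false f x)
    (f := fun x => tl false f x - x * f x) ?_ (i1.sub i2) (tendsto_mul_SB hG) ?_
  · rw [intervalIntegral.integral_sub i1 i2] at key
    have : tl false f (Real.pi / 3) = 0 := by
      unfold tl
      rw [intervalIntegral.integral_same]
    rw [this, mul_zero] at key
    linarith
  · intro x hx
    have hxb : x ∈ Ioo 0 (2 * Real.pi) := ⟨hx.1, by linarith [hx.2]⟩
    have h1 := tail_deriv (g := fun y => ph false y * f y)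
      ((continuousOn_ph false).mul hc) hxb
    have h2 := (hasDerivAt_id x).mul h1
    have e : tl false f x - x * f x =
        1 * (∫ y in x..(Real.pi / 3), ph false y * f y) + id x * -(ph false x * f x) := by
      simp only [tl, ph, id]
      simp
      ring
    rw [e]
    exact h2
  · have h1 : ContinuousAt (fun x => x * tl false f x) (Real.pi / 3) :=
      continuousAt_id.mul (hGc.continuousAt (Ioo_mem_nhds (by positivity) (by linarith)))
    exact h1.continuousWithinAt

theorem InT.int {p a : ℕ} {f : ℝ → ℝ} (h : InT p a f) :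
    IntervalIntegrable f volume 0 (Real.pi / 3) :=
  h.sb.int (h.cont.mono fun _ hx => mem_big hx)

/-- multiplication by `π` -/
theorem InT.pi_mul {p a : ℕ} {f : ℝ → ℝ} (h : InT p a f) : ∃ g : ℝ → ℝ, InT (p + 1) a g ∧
    ∫ x in (0 : ℝ)..(Real.pi / 3), g x = Real.pi * ∫ x in (0 : ℝ)..(Real.pi / 3), f x := by
  have h1 : InT (p + 1) a (fun x => f x * (x - Real.pi / 3)) := by
    have := h.mul InT_sub
    simpa using this
  have h2 := h.tl.1
  have h3 := InT.add (InT.smul (-3) h1) (InT.smul 3 h2)
  refine ⟨_, h3, ?_⟩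
  have e1 := int_x_mul h.sb h.cont
  have i1 : IntervalIntegrable (fun x => ((-3 : ℚ) : ℝ) * (f x * (x - Real.pi / 3))) volume 0
      (Real.pi / 3) := h1.int.const_mul _
  have i2 : IntervalIntegrable (fun x => ((3 : ℚ) : ℝ) * MPc258.tl false f x) volume 0
      (Real.pi / 3) := h2.int.const_mul _
  rw [intervalIntegral.integral_add i1 i2, intervalIntegral.integral_const_mul,
    intervalIntegral.integral_const_mul, ← e1]
  have i3 : IntervalIntegrable (fun x => x * f x) volume 0 (Real.pi / 3) := by
    have h4 := h1.int.add (h.int.const_mul (Real.pi / 3))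
    refine h4.congr ?_
    intro x _
    show f x * (x - Real.pi / 3) + Real.pi / 3 * f x = x * f x
    ring
  have e2 : ∫ x in (0 : ℝ)..(Real.pi / 3), f x * (x - Real.pi / 3) =
      (∫ x in (0 : ℝ)..(Real.pi / 3), x * f x) -
        Real.pi / 3 * ∫ x in (0 : ℝ)..(Real.pi / 3), f x := by
    rw [← intervalIntegral.integral_const_mul,
      ← intervalIntegral.integral_sub i3 (h.int.const_mul _)]
    congr 1
    funext x
    ring
  rw [e2]
  push_cast
  ring

theorem InT.pi_pow_mul {p a : ℕ} {f : ℝ → ℝ} (h : InT p a f) (m : ℕ) : ∃ g : ℝ → ℝ,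
    InT (p + m) a g ∧
    ∫ x in (0 : ℝ)..(Real.pi / 3), g x = Real.pi ^ m * ∫ x in (0 : ℝ)..(Real.pi / 3), f x := by
  induction m with
  | zero => exact ⟨f, h, by simp⟩
  | succ m ih =>
    obtain ⟨g, h1, h2⟩ := ih
    obtain ⟨g', h3, h4⟩ := h1.pi_mul
    refine ⟨g', h3, ?_⟩
    rw [h4, h2, pow_succ]
    ring

/-- every member of the family is in `C_k` -/
theorem pi_SLs_mem (m : ℕ) {ks : List ℕ} (h : ∀ j ∈ ks, 2 ≤ j) (ho : Odd ks.length) :
    Real.pi ^ m * SLs ks ∈ CS (m + ks.sum) := by
  cases ks with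
  | nil => simp at ho
  | cons k ks =>
    obtain ⟨f, h1, h2⟩ := SLs_rep k h
    obtain ⟨g, h3, h4⟩ := h1.pi_pow_mul m
    have h5 := h3.mem
    rw [h4, h2] at h5
    have h6 := wd_add h
    have h7 := h k List.mem_cons_self
    have h8 : 1 ≤ wd (k :: ks) := by
      rw [wd_cons]
      omega
    have e : wd (k :: ks) - 1 + m + (ks.length + 1) + 1 = m + (k :: ks).sum := by
      rw [← h6, List.length_cons]
      omega
    rw [e] at h5
    refine real_mem h5 ?_
    rw [← h6]
    have e2 : wd (k :: ks) - 1 + m + 1 + (m + (wd (k :: ks) + (k :: ks).length)) =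
        2 * (wd (k :: ks) + m) + (k :: ks).length := by omega
    rw [e2]
    exact (even_two_mul _).add_odd ho

end Pool.Agent.MPc258
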