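import Mathlib
import Pool.Agent.Lib.MP_c25811_nt.SLs

/-!
# MP_c25811_nt: the values as combinations of words; weight minus depth at most two
-/

set_option autoImplicit false

open Set Filter Topology Metric MeasureTheory

namespace Pool.Agent.MPc258

/-- the integral of the word `false :: u` -/
noncomputable def WI (u : List Bool) : ℝ := ∫ x in (0 : ℝ)..(Real.pi / 3), T u x

/-- the pairing with the word `b :: u` -/
noncomputable def Q (l : List ℕ) (b : Bool) (u : List Bool) : ℂ :=
  P1 l (fun x => ph b x * T u x)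

theorem Adm_nil : Adm [] := fun _ hk => absurd hk List.not_mem_nil

theorem length_le_sum {l : List ℕ} (h : Adm l) : l.length ≤ l.sum := by
  induction l with
  | nil => simp
  | cons a l ih =>
    have h1 := ih h.tail
    have h2 := h a List.mem_cons_self
    rw [List.length_cons, List.sum_cons]
    omega

theorem Q_nil (u : List Bool) : Q [] false u = (WI u : ℂ) := by
  unfold Q WI
  rw [P1_false]
  unfold P1
  rw [← intervalIntegral.integral_ofReal]
  refine intervalIntegral.integral_congr_uIoo ?_
  intro x hx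
  rw [uIoo_of_le (by have := Real.pi_pos; positivity)] at hx
  show fa [] x * (T u x : ℂ) = (T u x : ℂ)
  rw [fa_nil x hx.1 hx.2.le, one_mul]

theorem Q_one {l : List ℕ} (hl : Adm l) (b : Bool) (u : List Bool) :
    Q (1 :: l) b u = Complex.I * Q l false (b :: u) := by
  have h := P1_cons hl b u
  unfold Q
  rw [P1_false, h]
  have hI := Complex.I_mul_I
  linear_combination (P1 (1 :: l) (fun x => ph b x * T u x)) * hI

theorem Q_succ {k : ℕ} {l : List ℕ} (hl : Adm l) (b : Bool) (u : List Bool) :
    Q ((k + 2) :: l) b u = Q ((k + 1) :: l) true (b :: u) -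
      Complex.I / 2 * Q ((k + 1) :: l) false (b :: u) := by
  have h := P2_cons (k := k) hl b u
  unfold Q
  rw [P1_false, P1_true, h]
  ring

theorem V_one {l : List ℕ} (hl : Adm l) : V (1 :: l) rho = Complex.I * Q l false [] := by
  unfold Q
  rw [P1_false, P1_nil hl]

theorem V_succ {k : ℕ} {l : List ℕ} (hl : Adm l) : V ((k + 2) :: l) rho =
    Q ((k + 1) :: l) true [] - Complex.I / 2 * Q ((k + 1) :: l) false [] := by
  have h := P2_nil (k := k) hl
  unfold Q
  rw [P1_false, P1_true, h]
  ring

/-- combinations of `(-I) ^ a WI u` with `u` of length `n` and `t + a` letters `true`,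
`a ≤ c` -/
noncomputable def MM (n t c : ℕ) : Submodule ℚ ℂ :=
  Submodule.span ℚ {z | ∃ (u : List Bool) (a : ℕ), u.length = n ∧ u.count true = t + a ∧ a ≤ c ∧
    z = (-Complex.I) ^ a * (WI u : ℂ)}

theorem MM_mono {n t c c' : ℕ} (h : c ≤ c') : MM n t c ≤ MM n t c' := by
  refine Submodule.span_mono ?_
  rintro z ⟨u, a, h1, h2, h3, h4⟩
  exact ⟨u, a, h1, h2, h3.trans h, h4⟩

theorem MM_mul {n t c : ℕ} {z : ℂ} (h : z ∈ MM n (t + 1) c) :
    (-Complex.I) * z ∈ MM n t (c + 1) := by
  unfold MM at h
  induction h using Submodule.span_induction with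
  | mem z hz =>
    obtain ⟨u, a, h1, h2, h3, rfl⟩ := hz
    refine Submodule.subset_span ⟨u, a + 1, h1, by omega, by omega, ?_⟩
    rw [pow_succ]
    ring
  | zero => simp
  | add z w _ _ hz hw =>
    rw [mul_add]
    exact (MM _ _ _).add_mem hz hw
  | smul q z _ hz =>
    rw [mul_smul_comm]
    exact (MM _ _ _).smul_mem q hz

theorem half_mem {S : Submodule ℚ ℂ} {z : ℂ} (h : z ∈ S) : (-1 / 2 : ℂ) * z ∈ S := by
  have h1 := S.smul_mem (-1 / 2 : ℚ) h
  rw [Rat.smul_def] at h1
  push_cast at h1
  exact h1

theorem step_mem {n t c : ℕ} {j : ℕ} {X Y : ℂ} (hX : (-Complex.I) ^ j * X ∈ MM n (t + 1) c)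
    (hY : (-Complex.I) ^ j * Y ∈ MM n t c) :
    (-Complex.I) ^ (j + 1) * (X - Complex.I / 2 * Y) ∈ MM n t (c + 1) := by
  have h1 := MM_mul hX
  have h2 := half_mem (MM_mono (Nat.le_succ c) hY)
  have h3 := (MM n t (c + 1)).add_mem h1 h2
  have e : (-Complex.I) ^ (j + 1) * (X - Complex.I / 2 * Y) =
      (-Complex.I) * ((-Complex.I) ^ j * X) + (-1 / 2 : ℂ) * ((-Complex.I) ^ j * Y) := by
    rw [pow_succ]
    have hI := Complex.I_mul_I
    linear_combination ((-Complex.I) ^ j * Y / 2) * hI
  rw [e]
  exact h3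

theorem Q_mem (l : List ℕ) : Adm l → ∀ (b : Bool) (u : List Bool), (l ≠ [] ∨ b = false) →
    (-Complex.I) ^ l.sum * Q l b u ∈
      MM (l.sum + u.length) ((b :: u).count true) (l.sum - l.length) := by
  induction l with
  | nil =>
    intro _ b u h
    rcases h with h | h
    · exact absurd rfl h
    · subst h
      rw [Q_nil]
      exact Submodule.subset_span ⟨u, 0, by simp, by simp, by simp, by simp⟩
  | cons k l ih =>
    intro hl b u _
    have hl' := hl.tail
    have hk : 1 ≤ k := hl k List.mem_cons_self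
    obtain ⟨j, rfl⟩ := Nat.exists_eq_add_of_le' hk
    clear hl hk
    have hlen : l.length ≤ l.sum := length_le_sum hl'
    induction j generalizing b u with
    | zero =>
      have h1 := ih hl' false (b :: u) (Or.inr rfl)
      rw [show ((0 + 1) :: l) = 1 :: l from rfl, Q_one hl']
      have e : (-Complex.I) ^ (1 :: l).sum * (Complex.I * Q l false (b :: u)) =
          (-Complex.I) ^ l.sum * Q l false (b :: u) := by
        rw [List.sum_cons, add_comm, pow_succ]
        have hI := Complex.I_mul_I
        linear_combination (-((-Complex.I) ^ l.sum * Q l false (b :: u))) * hI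
      rw [e]
      have e1 : (1 :: l).sum + u.length = l.sum + (b :: u).length := by
        rw [List.sum_cons, List.length_cons]
        ring
      have e2 : (false :: b :: u).count true = (b :: u).count true := by simp
      have e3 : (1 :: l).sum - (1 :: l).length = l.sum - l.length := by
        rw [List.sum_cons, List.length_cons]
        omega
      rw [e1, e3, ← e2]
      exact h1
    | succ j ihj =>
      have hX := ihj true (b :: u) (Or.inl (by simp))
      have hY := ihj false (b :: u) (Or.inl (by simp))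
      have e1 : ((j + 1 + 1) :: l).sum = ((j + 1) :: l).sum + 1 := by
        rw [List.sum_cons, List.sum_cons]
        ring
      have e2 : ((j + 1 + 1) :: l).sum + u.length = ((j + 1) :: l).sum + (b :: u).length := by
        rw [e1, List.length_cons]
        ring
      have e3 : ((j + 1 + 1) :: l).sum - ((j + 1 + 1) :: l).length =
          (((j + 1) :: l).sum - ((j + 1) :: l).length) + 1 := by
        rw [List.sum_cons, List.sum_cons, List.length_cons, List.length_cons]
        omega
      have e4 : (true :: b :: u).count true = (b :: u).count true + 1 := by simp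
      have e5 : (false :: b :: u).count true = (b :: u).count true := by simp
      rw [e4] at hX
      rw [e5] at hY
      have h := step_mem hX hY
      rw [e2, e3, Q_succ (k := j) hl', e1]
      exact h

theorem V_mem_MM {k : ℕ} {l : List ℕ} (hl : Adm l) :
    (-Complex.I) ^ ((k + 1) :: l).sum * V ((k + 1) :: l) rho ∈
      MM (k + l.sum) 0 (k + (l.sum - l.length)) := by
  cases k with
  | zero =>
    have h1 := Q_mem l hl false [] (Or.inr rfl)
    rw [show ((0 + 1) :: l) = 1 :: l from rfl, V_one hl]
    have e : (-Complex.I) ^ (1 :: l).sum * (Complex.I * Q l false []) =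
        (-Complex.I) ^ l.sum * Q l false [] := by
      rw [List.sum_cons, add_comm, pow_succ]
      have hI := Complex.I_mul_I
      linear_combination (-((-Complex.I) ^ l.sum * Q l false [])) * hI
    rw [e, zero_add, zero_add]
    simpa using h1
  | succ k =>
    have hadm : Adm ((k + 1) :: l) := Adm_cons hl
    have hX := Q_mem ((k + 1) :: l) hadm true [] (Or.inl (by simp))
    have hY := Q_mem ((k + 1) :: l) hadm false [] (Or.inl (by simp))
    have hlen : l.length ≤ l.sum := length_le_sum hl
    have e4 : (true :: ([] : List Bool)).count true = 0 + 1 := by simp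
    have e5 : (false :: ([] : List Bool)).count true = 0 := by simp
    rw [e4] at hX
    rw [e5] at hY
    have h := step_mem hX hY
    have e1 : ((k + 1 + 1) :: l).sum = ((k + 1) :: l).sum + 1 := by
      rw [List.sum_cons, List.sum_cons]
      ring
    have e2 : k + 1 + l.sum = ((k + 1) :: l).sum + ([] : List Bool).length := by
      rw [List.sum_cons]
      simp
    have e3 : k + 1 + (l.sum - l.length) = (((k + 1) :: l).sum - ((k + 1) :: l).length) + 1 := by
      rw [List.sum_cons, List.length_cons]
      omega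
    rw [e2, e3, V_succ (k := k) hl, e1]
    exact h

/-- the span of the family of depth one -/
noncomputable def S1 (k : ℕ) : Submodule ℚ ℝ :=
  Submodule.span ℚ {x | ∃ m j : ℕ, 2 ≤ j ∧ m + j = k ∧ x = Real.pi ^ m * SLs [j]}

theorem S1_mem (m j : ℕ) (hj : 2 ≤ j) : Real.pi ^ m * SLs [j] ∈ S1 (m + j) :=
  Submodule.subset_span ⟨m, j, hj, rfl, rfl⟩

theorem S1_pi {k : ℕ} {x : ℝ} (h : x ∈ S1 k) : Real.pi * x ∈ S1 (k + 1) := by
  unfold S1 at h
  induction h using Submodule.span_induction with
  | mem x hx =>
    obtain ⟨m, j, hj, rfl, rfl⟩ := hx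
    refine Submodule.subset_span ⟨m + 1, j, hj, by omega, ?_⟩
    rw [pow_succ]
    ring
  | zero => simp
  | add x y _ _ hx hy =>
    rw [mul_add]
    exact (S1 _).add_mem hx hy
  | smul q x _ hx =>
    rw [mul_smul_comm]
    exact (S1 _).smul_mem q hx

theorem S1_pi_pow {k : ℕ} {x : ℝ} (h : x ∈ S1 k) (m : ℕ) : Real.pi ^ m * x ∈ S1 (k + m) := by
  induction m with
  | zero => simpa using h
  | succ m ih =>
    have := S1_pi ih
    rw [pow_succ]
    have e : Real.pi ^ m * Real.pi * x = Real.pi * (Real.pi ^ m * x) := by ring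
    rw [e]
    exact this

theorem rat_mem {S : Submodule ℚ ℝ} {x : ℝ} (q : ℚ) (h : x ∈ S) : (q : ℝ) * x ∈ S := by
  have := S.smul_mem q h
  rwa [Rat.smul_def] at this

/-- the moments at `π / 3` are in the span of the family of depth one -/
def KK (n : ℕ) (f : ℝ → ℝ) : Prop :=
  SB f ∧ ContinuousOn f (Ioo 0 (2 * Real.pi)) ∧
    ∀ b : ℕ, ∫ x in (0 : ℝ)..(Real.pi / 3), f x * (Real.pi / 3 - x) ^ b ∈ S1 (n + b + 1)

theorem SB_mul_pow {f : ℝ → ℝ} (hf : SB f) (b : ℕ) :
    SB (fun x => f x * (Real.pi / 3 - x) ^ b) := by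
  have hpi := Real.pi_lt_four
  refine hf.mono (2 ^ b) (by positivity) fun x hx => ?_
  rw [norm_mul, norm_pow, mul_comm]
  refine mul_le_mul_of_nonneg_right (pow_le_pow_left₀ (norm_nonneg _) ?_ b) (norm_nonneg _)
  rw [Real.norm_of_nonneg (by linarith [hx.2])]
  linarith [hx.1]

theorem int_mul_pow {f : ℝ → ℝ} (hf : SB f) (hc : ContinuousOn f (Ioo 0 (2 * Real.pi)))
    (b : ℕ) : IntervalIntegrable (fun x => f x * (Real.pi / 3 - x) ^ b) volume 0
      (Real.pi / 3) :=
  (SB_mul_pow hf b).int ((hc.mul (by fun_prop)).mono fun _ hx => mem_big hx)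

theorem KK.add {n : ℕ} {f g : ℝ → ℝ} (hf : KK n f) (hg : KK n g) :
    KK n (fun x => f x + g x) := by
  refine ⟨hf.1.add hg.1, hf.2.1.add hg.2.1, fun b => ?_⟩
  have e : ∫ x in (0 : ℝ)..(Real.pi / 3), (f x + g x) * (Real.pi / 3 - x) ^ b =
      (∫ x in (0 : ℝ)..(Real.pi / 3), f x * (Real.pi / 3 - x) ^ b) +
        ∫ x in (0 : ℝ)..(Real.pi / 3), g x * (Real.pi / 3 - x) ^ b := by
    rw [← intervalIntegral.integral_add (int_mul_pow hf.1 hf.2.1 b)
      (int_mul_pow hg.1 hg.2.1 b)]
    congr 1
    funext x
    ring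
  rw [e]
  exact (S1 _).add_mem (hf.2.2 b) (hg.2.2 b)

theorem KK.smul {n : ℕ} {f : ℝ → ℝ} (q : ℚ) (hf : KK n f) : KK n (fun x => q * f x) := by
  refine ⟨hf.1.mono |(q : ℝ)| (abs_nonneg _) fun x _ => by rw [norm_mul, Real.norm_eq_abs],
    continuousOn_const.mul hf.2.1, fun b => ?_⟩
  have e : ∫ x in (0 : ℝ)..(Real.pi / 3), (q * f x) * (Real.pi / 3 - x) ^ b =
      q * ∫ x in (0 : ℝ)..(Real.pi / 3), f x * (Real.pi / 3 - x) ^ b := by
    rw [← intervalIntegral.integral_const_mul]
    congr 1
    funext x
    ring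
  rw [e]
  exact rat_mem q (hf.2.2 b)

theorem KK.congr {n : ℕ} {f g : ℝ → ℝ} (hf : KK n f) (hg : ContinuousOn g (Ioo 0 (2 * Real.pi)))
    (h : ∀ x ∈ Ioc 0 (Real.pi / 3), f x = g x) : KK n g := by
  have hpi := Real.pi_pos
  refine ⟨hf.1.mono 1 zero_le_one fun x hx => by rw [h x hx, one_mul], hg, fun b => ?_⟩
  have e : ∫ x in (0 : ℝ)..(Real.pi / 3), g x * (Real.pi / 3 - x) ^ b =
      ∫ x in (0 : ℝ)..(Real.pi / 3), f x * (Real.pi / 3 - x) ^ b := by
    refine intervalIntegral.integral_congr_uIoo ?_
    intro x hx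
    rw [uIoo_of_le (by positivity)] at hx
    show g x * (Real.pi / 3 - x) ^ b = f x * (Real.pi / 3 - x) ^ b
    rw [h x ⟨hx.1, hx.2.le⟩]
  rw [e]
  exact hf.2.2 b

/-- integration by parts for the tail operator -/
theorem tl_moment {f : ℝ → ℝ} (hf : SB f) (hc : ContinuousOn f (Ioo 0 (2 * Real.pi))) (b : ℕ) :
    ((b : ℝ) + 1) * ∫ x in (0 : ℝ)..(Real.pi / 3), tl false f x * (Real.pi / 3 - x) ^ b =
      (Real.pi / 3) ^ (b + 1) * (∫ x in (0 : ℝ)..(Real.pi / 3), f x) -
        ∫ x in (0 : ℝ)..(Real.pi / 3), f x * (Real.pi / 3 - x) ^ (b + 1) := by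
  have hpi := Real.pi_pos
  have hG : SB (tl false f) := SB_tail false hf
  have hGc := tl_cont false hc
  have i0 : IntervalIntegrable f volume 0 (Real.pi / 3) := hf.int (hc.mono fun _ hx => mem_big hx)
  have i1 := int_mul_pow hG hGc b
  have i2 := int_mul_pow hf hc (b + 1)
  set p : ℝ → ℝ := fun x => (Real.pi / 3) ^ (b + 1) - (Real.pi / 3 - x) ^ (b + 1) with hp
  have hpd : ∀ x, HasDerivAt p (((b : ℝ) + 1) * (Real.pi / 3 - x) ^ b) x := by
    intro x
    have h1 : HasDerivAt (fun x : ℝ => Real.pi / 3 - x) (-1) x := by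
      simpa using (hasDerivAt_id x).const_sub (Real.pi / 3)
    have h2 := (h1.pow (b + 1)).const_sub ((Real.pi / 3) ^ (b + 1))
    have e : ((b : ℝ) + 1) * (Real.pi / 3 - x) ^ b =
        -(((b + 1 : ℕ) : ℝ) * (Real.pi / 3 - x) ^ (b + 1 - 1) * -1) := by
      rw [Nat.add_sub_cancel]
      push_cast
      ring
    rw [e]
    exact h2
  -- `|p x| ≤ C x`
  have hpb : ∃ C : ℝ, 0 ≤ C ∧ ∀ x ∈ Ioc 0 (Real.pi / 3), ‖(p x : ℂ)‖ ≤ C * x := by
    refine ⟨((b : ℝ) + 1) * (Real.pi / 3) ^ b, by positivity, fun x hx => ?_⟩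
    have h0 : p 0 = 0 := by simp [hp]
    have h1 : ‖p x - p 0‖ ≤ ((b : ℝ) + 1) * (Real.pi / 3) ^ b * ‖x - 0‖ := by
      refine (convex_Icc (0 : ℝ) (Real.pi / 3)).norm_image_sub_le_of_norm_hasDerivWithin_le
        (fun y _ => (hpd y).hasDerivWithinAt) (fun y hy => ?_) ⟨le_rfl, by positivity⟩
        ⟨hx.1.le, hx.2⟩
      rw [norm_mul, norm_pow, Real.norm_of_nonneg (by positivity : (0 : ℝ) ≤ (b : ℝ) + 1)]
      refine mul_le_mul_of_nonneg_left ?_ (by positivity)
      refine pow_le_pow_left₀ (norm_nonneg _) ?_ b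
      rw [Real.norm_of_nonneg (by linarith [hy.2])]
      linarith [hy.1]
    rw [h0, sub_zero, sub_zero, Real.norm_of_nonneg hx.1.le] at h1
    rw [Complex.norm_real]
    exact h1
  obtain ⟨C, hC, hb⟩ := hpb
  have hlim : Tendsto (fun x => p x * tl false f x) (𝓝[>] 0) (𝓝 0) := by
    have h := tendsto_zero_mul hC hb (SB_ofReal hG)
    have h2 := (Complex.continuous_re.tendsto 0).comp h
    have e : (Complex.re ∘ fun x : ℝ => (p x : ℂ) * (tl false f x : ℂ)) =
        fun x => p x * tl false f x := by
      funext x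
      simp
    rw [e] at h2
    simpa using h2
  have key := ftcR (F := fun x => p x * tl false f x)
    (f := fun x => ((b : ℝ) + 1) * (tl false f x * (Real.pi / 3 - x) ^ b) -
      ((Real.pi / 3) ^ (b + 1) * f x - f x * (Real.pi / 3 - x) ^ (b + 1))) ?_
    ((i1.const_mul _).sub ((i0.const_mul _).sub i2)) hlim ?_
  · rw [intervalIntegral.integral_sub (i1.const_mul _) ((i0.const_mul _).sub i2),
      intervalIntegral.integral_sub (i0.const_mul _) i2, intervalIntegral.integral_const_mul,
      intervalIntegral.integral_const_mul] at key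
    have : tl false f (Real.pi / 3) = 0 := by
      unfold tl
      rw [intervalIntegral.integral_same]
    rw [this, mul_zero] at key
    linarith
  · intro x hx
    have hxb : x ∈ Ioo 0 (2 * Real.pi) := ⟨hx.1, by linarith [hx.2]⟩
    have h1 := tail_deriv (g := fun y => ph false y * f y)
      ((continuousOn_ph false).mul hc) hxb
    have h2 := (hpd x).mul h1
    have e : ((b : ℝ) + 1) * (tl false f x * (Real.pi / 3 - x) ^ b) -
        ((Real.pi / 3) ^ (b + 1) * f x - f x * (Real.pi / 3 - x) ^ (b + 1)) =
        ((b : ℝ) + 1) * (Real.pi / 3 - x) ^ b *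
          (∫ y in x..(Real.pi / 3), ph false y * f y) + p x * -(ph false x * f x) := by
      simp only [tl, ph, hp]
      simp
      ring
    rw [e]
    exact h2
  · have h1 : ContinuousAt (fun x => p x * tl false f x) (Real.pi / 3) :=
      (hpd _).continuousAt.mul (hGc.continuousAt (Ioo_mem_nhds (by positivity) (by linarith)))
    exact h1.continuousWithinAt

theorem KK.tl {n : ℕ} {f : ℝ → ℝ} (hf : KK n f) : KK (n + 1) (tl false f) := by
  obtain ⟨h1, h2, h3⟩ := hf
  refine ⟨SB_tail false h1, tl_cont false h2, fun b => ?_⟩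
  have key := tl_moment h1 h2 b
  have h4 := h3 0
  have h5 := h3 (b + 1)
  have e0 : ∫ x in (0 : ℝ)..(Real.pi / 3), f x * (Real.pi / 3 - x) ^ 0 =
      ∫ x in (0 : ℝ)..(Real.pi / 3), f x := by
    simp
  rw [e0] at h4
  have h6 := rat_mem ((1 / 3 : ℚ) ^ (b + 1)) (S1_pi_pow h4 (b + 1))
  have e1 : (((1 / 3 : ℚ) ^ (b + 1) : ℚ) : ℝ) * (Real.pi ^ (b + 1) *
      ∫ x in (0 : ℝ)..(Real.pi / 3), f x) =
      (Real.pi / 3) ^ (b + 1) * ∫ x in (0 : ℝ)..(Real.pi / 3), f x := by
    push_cast
    rw [div_pow, div_pow]
    ring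
  rw [e1] at h6
  have e2 : n + 0 + 1 + (b + 1) = n + (b + 1) + 1 := by ring
  rw [e2] at h6
  have h7 := (S1 _).sub_mem h6 h5
  rw [← key] at h7
  have h8 := rat_mem (1 / ((b : ℚ) + 1)) h7
  have e3 : ((1 / ((b : ℚ) + 1) : ℚ) : ℝ) * (((b : ℝ) + 1) *
      ∫ x in (0 : ℝ)..(Real.pi / 3), MPc258.tl false f x * (Real.pi / 3 - x) ^ b) =
      ∫ x in (0 : ℝ)..(Real.pi / 3), MPc258.tl false f x * (Real.pi / 3 - x) ^ b := by
    push_cast
    have : (b : ℝ) + 1 ≠ 0 := by positivity
    field_simp
  rw [e3] at h8
  have e4 : n + 1 + b + 1 = n + (b + 1) + 1 := by ring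
  rw [e4]
  exact h8

theorem KK_A (r : ℕ) : KK (r + 1) (fun x => A x * (Real.pi / 3 - x) ^ r) := by
  have hA : SB A := InT_A.sb
  refine ⟨SB_mul_pow hA r, continuousOn_A.mul (by fun_prop), fun b => ?_⟩
  have h1 := rat_mem ((-1 : ℚ) ^ (r + b)) (S1_mem 0 (r + b + 2) (by omega))
  have e1 : (((-1 : ℚ) ^ (r + b) : ℚ) : ℝ) * (Real.pi ^ 0 * SLs [r + b + 2]) =
      ∫ x in (0 : ℝ)..(Real.pi / 3), A x * (Real.pi / 3 - x) ^ r * (Real.pi / 3 - x) ^ b := by
    unfold SLs
    rw [tS, ← intervalIntegral.integral_const_mul, ← intervalIntegral.integral_const_mul]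
    congr 1
    funext x
    rw [tS]
    have h2 : (Real.pi / 3 - x) ^ r * (Real.pi / 3 - x) ^ b =
        (-1) ^ (r + b) * (x - Real.pi / 3) ^ (r + b) := by
      rw [← pow_add, ← mul_pow]
      congr 1
      ring
    push_cast
    rw [mul_assoc (A x), h2]
    simp
    ring
  rw [e1] at h1
  have e2 : 0 + (r + b + 2) = r + 1 + b + 1 := by ring
  rwa [e2] at h1

/-- the words without `true` -/
theorem T_rep (r : ℕ) (x : ℝ) : T (List.replicate r false) x =
    (Real.pi / 3 - x) ^ r / (r.factorial : ℝ) := by
  induction r generalizing x with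
  | zero => simp [T]
  | succ r ih =>
    rw [List.replicate_succ, T]
    have e : ∀ y, ph false y * T (List.replicate r false) y =
        (Real.pi / 3 - y) ^ r / (r.factorial : ℝ) := by
      intro y
      rw [ih]
      simp [ph]
    simp_rw [e]
    have hd : ∀ y ∈ uIcc x (Real.pi / 3), HasDerivAt
        (fun y : ℝ => -((Real.pi / 3 - y) ^ (r + 1) / ((r + 1).factorial : ℝ)))
        ((Real.pi / 3 - y) ^ r / (r.factorial : ℝ)) y := by
      intro y _
      have h1 : HasDerivAt (fun x : ℝ => Real.pi / 3 - x) (-1) y := by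
        simpa using (hasDerivAt_id y).const_sub (Real.pi / 3)
      have h2 := ((h1.pow (r + 1)).div_const ((r + 1).factorial : ℝ)).neg
      have e : (Real.pi / 3 - y) ^ r / (r.factorial : ℝ) =
          -(((r + 1 : ℕ) : ℝ) * (Real.pi / 3 - y) ^ (r + 1 - 1) * -1 /
            ((r + 1).factorial : ℝ)) := by
        have hr : (r.factorial : ℝ) ≠ 0 := by exact_mod_cast r.factorial_ne_zero
        have hr1 : ((r : ℝ) + 1) ≠ 0 := by positivity
        rw [Nat.factorial_succ, Nat.add_sub_cancel]
        push_cast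
        field_simp
      rw [e]
      exact h2
    rw [intervalIntegral.integral_eq_sub_of_hasDerivAt hd
      (Continuous.intervalIntegrable (by fun_prop) _ _)]
    simp

theorem count_zero_eq : ∀ u : List Bool, u.count true = 0 → u = List.replicate u.length false := by
  intro u
  induction u with
  | nil => simp
  | cons b u ih =>
    cases b with
    | true => simp
    | false =>
      intro h
      have h1 : u.count true = 0 := by simpa using h
      rw [List.length_cons, List.replicate_succ, ← ih h1]

theorem KK_true (r : ℕ) : KK (r + 1) (T (true :: List.replicate r false)) := by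
  have hpi := Real.pi_pos
  cases r with
  | zero =>
    have h := (KK_A 0).smul (-1)
    refine h.congr (continuousOn_T _) fun x hx => ?_
    rw [List.replicate_zero, T_true (mem_big hx)]
    simp
  | succ r =>
    have h1 := (KK_A (r + 1)).smul (-(1 / ((r + 1).factorial : ℚ)))
    have h2 := ((KK_A r).tl).smul (1 / (r.factorial : ℚ))
    have h3 := h1.add h2
    refine h3.congr (continuousOn_T _) fun x hx => ?_
    have hxb := mem_big hx
    have hT : T (true :: List.replicate (r + 1) false) x =
        ∫ y in x..(Real.pi / 3), A' y * T (List.replicate (r + 1) false) y := by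
      rw [T]
      simp [ph]
    have hd : ∀ y ∈ uIcc x (Real.pi / 3), HasDerivAt
        (fun y => A y * T (List.replicate (r + 1) false) y)
        (A' y * T (List.replicate (r + 1) false) y -
          A y * T (List.replicate r false) y) y := by
      intro y hy
      have hyb := uIcc_sub hxb hy
      have h4 := (hasDerivAt_A hyb.1 hyb.2).mul (hasDerivAt_T false (List.replicate r false) hyb)
      have e : A' y * T (List.replicate (r + 1) false) y -
          A y * T (List.replicate r false) y =
          A' y * T (false :: List.replicate r false) y +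
            A y * -(ph false y * T (List.replicate r false) y) := by
        rw [List.replicate_succ]
        simp [ph]
        ring
      rw [e, List.replicate_succ]
      exact h4
    have i1 : IntervalIntegrable (fun y => A' y * T (List.replicate (r + 1) false) y) volume x
        (Real.pi / 3) :=
      ((continuousOn_A'.mul (continuousOn_T _)).mono (uIcc_sub hxb)).intervalIntegrable
    have i2 : IntervalIntegrable (fun y => A y * T (List.replicate r false) y) volume x
        (Real.pi / 3) :=
      ((continuousOn_A.mul (continuousOn_T _)).mono (uIcc_sub hxb)).intervalIntegrable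
    have key := intervalIntegral.integral_eq_sub_of_hasDerivAt hd (i1.sub i2)
    rw [intervalIntegral.integral_sub i1 i2, A_pi3, zero_mul, zero_sub, ← hT] at key
    have e2 : tl false (fun x => A x * (Real.pi / 3 - x) ^ r) x =
        (r.factorial : ℝ) * ∫ y in x..(Real.pi / 3), A y * T (List.replicate r false) y := by
      unfold tl
      rw [← intervalIntegral.integral_const_mul]
      congr 1
      funext y
      rw [T_rep]
      have hr : (r.factorial : ℝ) ≠ 0 := by exact_mod_cast r.factorial_ne_zero
      simp only [ph, Bool.false_eq_true, if_false]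
      field_simp
    rw [e2]
    rw [T_rep] at key
    have hr : (r.factorial : ℝ) ≠ 0 := by exact_mod_cast r.factorial_ne_zero
    have e3 : T (true :: List.replicate (r + 1) false) x =
        (∫ y in x..(Real.pi / 3), A y * T (List.replicate r false) y) -
        A x * ((Real.pi / 3 - x) ^ (r + 1) / ((r + 1).factorial : ℝ)) := by
      linarith
    rw [e3]
    push_cast
    field_simp
    ring

theorem KK_T : ∀ u : List Bool, u.count true = 1 → KK u.length (T u) := by
  intro u
  induction u with
  | nil => simp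
  | cons b u ih =>
    cases b with
    | true =>
      intro h
      have h1 : u.count true = 0 := by simpa using h
      rw [List.length_cons, count_zero_eq u h1, List.length_replicate]
      exact KK_true _
    | false =>
      intro h
      have h1 : u.count true = 1 := by simpa using h
      have h2 := (ih h1).tl
      have e : T (false :: u) = tl false (T u) := by
        funext x
        rw [T]
        rfl
      rw [e, List.length_cons]
      exact h2

theorem WI_mem_S1 {u : List Bool} (h : u.count true = 1) : WI u ∈ S1 (u.length + 1) := by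
  have h1 := (KK_T u h).2.2 0
  unfold WI
  simpa using h1

theorem Cl_eq (l : List ℕ) : Cl l = ((-Complex.I) ^ l.sum * V l rho).im ∨
    Cl l = -((-Complex.I) ^ l.sum * V l rho).im := by
  unfold Cl
  have hI := Complex.I_sq
  rcases Nat.even_or_odd l.sum with hk | hk
  · rw [if_pos hk]
    obtain ⟨m, hm⟩ := hk
    have e : (-Complex.I) ^ l.sum = (-1) ^ m := by
      rw [hm, ← two_mul, pow_mul, neg_sq, hI]
    rw [e]
    rcases neg_one_pow_eq_or ℂ m with h3 | h3
    · left
      rw [h3, one_mul]
    · right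
      rw [h3]
      simp
  · rw [if_neg (Nat.not_even_iff_odd.2 hk)]
    obtain ⟨m, hm⟩ := hk
    have e : (-Complex.I) ^ l.sum = (-1) ^ m * (-Complex.I) := by
      rw [hm, pow_succ, pow_mul, neg_sq, hI]
    rw [e]
    rcases neg_one_pow_eq_or ℂ m with h3 | h3
    · right
      rw [h3]
      simp
    · left
      rw [h3]
      simp

theorem im_MM {n : ℕ} {z : ℂ} (h : z ∈ MM n 0 2) : z.im ∈ S1 (n + 1) := by
  unfold MM at h
  induction h using Submodule.span_induction with
  | mem z hz =>
    obtain ⟨u, a, h1, h2, h3, rfl⟩ := hz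
    interval_cases a
    · have : ((-Complex.I) ^ 0 * (WI u : ℂ)).im = 0 := by simp
      rw [this]
      exact (S1 _).zero_mem
    · have : ((-Complex.I) ^ 1 * (WI u : ℂ)).im = -WI u := by simp
      rw [this, ← h1]
      exact (S1 _).neg_mem (WI_mem_S1 (by omega))
    · have : ((-Complex.I) ^ 2 * (WI u : ℂ)).im = 0 := by
        rw [neg_sq, Complex.I_sq]
        simp
      rw [this]
      exact (S1 _).zero_mem
  | zero => simp
  | add z w _ _ hz hw =>
    rw [Complex.add_im]
    exact (S1 _).add_mem hz hw
  | smul q z _ hz =>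
    have : (q • z).im = q • z.im := by
      rw [Rat.smul_def, Rat.smul_def, Complex.mul_im]
      simp
    rw [this]
    exact (S1 _).smul_mem q hz

/-- weight minus depth at most two -/
theorem codepth_le_two {l : List ℕ} (hl : Adm l) (h : l.sum ≤ l.length + 2) :
    Cl l ∈ S1 l.sum := by
  cases l with
  | nil =>
    have h0 := Cl_eq []
    have h1 : ((-Complex.I) ^ ([] : List ℕ).sum * V [] rho).im = 0 := by
      have : V [] rho = 1 := by
        have h2 := fa_nil (Real.pi / 3) (by have := Real.pi_pos; positivity) le_rfl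
        rwa [fa_pi3] at h2
      rw [this]
      simp
    rw [h1] at h0
    have h2 : Cl [] = 0 := by
      rcases h0 with h0 | h0
      · exact h0
      · simpa using h0
    rw [h2]
    exact (S1 _).zero_mem
  | cons k l =>
    have hl' := hl.tail
    have hk : 1 ≤ k := hl k List.mem_cons_self
    obtain ⟨j, rfl⟩ := Nat.exists_eq_add_of_le' hk
    have h1 := V_mem_MM (k := j) hl'
    rw [List.sum_cons, List.length_cons] at h
    have hlen : l.length ≤ l.sum := length_le_sum hl'
    have h2 := MM_mono (c' := 2) (by omega) h1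
    have h3 := im_MM h2
    have e : j + l.sum + 1 = ((j + 1) :: l).sum := by
      rw [List.sum_cons]
      ring
    rw [e] at h3
    rcases Cl_eq ((j + 1) :: l) with h4 | h4
    · rw [h4]
      exact h3
    · rw [h4]
      exact (S1 _).neg_mem h3

end Pool.Agent.MPc258
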