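import Mathlib
import Pool.Agent.Lib.MP_c25811_nt.Wd

/-!
# MP_c25811_nt: the values on the unit circle; the series of the index with last entry at least
two converges uniformly
-/

set_option autoImplicit false

open Set Filter Topology Metric MeasureTheory

namespace Pool.Agent.MPc258

theorem sum_inv_sqrt (N : ℕ) :
    ∑ m ∈ Finset.range N, 1 / Real.sqrt ((m : ℝ) + 1) ≤ 2 * Real.sqrt N := by
  induction N with
  | zero => simp
  | succ N ih =>
    rw [Finset.sum_range_succ]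
    have hN : (0 : ℝ) ≤ N := Nat.cast_nonneg N
    set a := Real.sqrt (N : ℝ) with ha
    set b := Real.sqrt ((N : ℝ) + 1) with hb
    have ha0 : 0 ≤ a := Real.sqrt_nonneg _
    have hb0 : 0 < b := Real.sqrt_pos.2 (by linarith)
    have ha2 : a * a = N := Real.mul_self_sqrt hN
    have hb2 : b * b = (N : ℝ) + 1 := Real.mul_self_sqrt (by linarith)
    have hab : a ≤ b := Real.sqrt_le_sqrt (by linarith)
    have h1 : 1 / b ≤ 2 * (b - a) := by
      rw [div_le_iff₀ hb0]
      nlinarith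
    push_cast
    rw [← hb]
    linarith

theorem hs_le_sqrt {l : List ℕ} (hl : Adm l) (N : ℕ) :
    hs l N ≤ 2 ^ l.length * Real.sqrt ((N : ℝ) + 1) := by
  induction l generalizing N with
  | nil =>
    rw [hs, List.length_nil, pow_zero, one_mul]
    have h0 : (0 : ℝ) ≤ N := Nat.cast_nonneg N
    rw [Real.one_le_sqrt]
    linarith
  | cons k l ih =>
    have hk : 1 ≤ k := hl k List.mem_cons_self
    rw [hs, List.length_cons, pow_succ]
    calc ∑ m ∈ Finset.range N, hs l m / ((m : ℝ) + 1) ^ k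
        ≤ ∑ m ∈ Finset.range N, 2 ^ l.length * (1 / Real.sqrt ((m : ℝ) + 1)) := by
          refine Finset.sum_le_sum fun m _ => ?_
          have hm : (0 : ℝ) ≤ m := Nat.cast_nonneg m
          have h1 : (m : ℝ) + 1 ≤ ((m : ℝ) + 1) ^ k := by
            calc (m : ℝ) + 1 = ((m : ℝ) + 1) ^ 1 := (pow_one _).symm
              _ ≤ ((m : ℝ) + 1) ^ k := pow_le_pow_right₀ (by linarith) hk
          have h2 : 0 < Real.sqrt ((m : ℝ) + 1) := Real.sqrt_pos.2 (by linarith)
          have h3 : Real.sqrt ((m : ℝ) + 1) * Real.sqrt ((m : ℝ) + 1) = (m : ℝ) + 1 :=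
            Real.mul_self_sqrt (by linarith)
          have h4 := ih hl.tail m
          calc hs l m / ((m : ℝ) + 1) ^ k ≤ hs l m / ((m : ℝ) + 1) :=
                div_le_div_of_nonneg_left (hs_nonneg l m) (by linarith) h1
            _ ≤ 2 ^ l.length * Real.sqrt ((m : ℝ) + 1) / ((m : ℝ) + 1) :=
                div_le_div_of_nonneg_right h4 (by linarith)
            _ = 2 ^ l.length * (1 / Real.sqrt ((m : ℝ) + 1)) := by
                rw [mul_div_assoc]
                congr 1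
                rw [div_eq_div_iff (by linarith) h2.ne', h3, one_mul]
      _ = 2 ^ l.length * ∑ m ∈ Finset.range N, 1 / Real.sqrt ((m : ℝ) + 1) := by
          rw [← Finset.mul_sum]
      _ ≤ 2 ^ l.length * (2 * Real.sqrt N) :=
          mul_le_mul_of_nonneg_left (sum_inv_sqrt N) (by positivity)
      _ ≤ 2 ^ l.length * (2 * Real.sqrt ((N : ℝ) + 1)) := by
          have := Real.sqrt_le_sqrt (show (N : ℝ) ≤ (N : ℝ) + 1 by linarith)
          exact mul_le_mul_of_nonneg_left (by linarith) (by positivity)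
      _ = 2 ^ l.length * 2 * Real.sqrt ((N : ℝ) + 1) := by ring

theorem summable_cf' {k : ℕ} {l : List ℕ} (hk : 2 ≤ k) (hl : Adm l) :
    Summable (cf k l) := by
  have h0 : Summable fun n : ℕ => ((n : ℝ) ^ (3 / 2 : ℝ))⁻¹ :=
    Real.summable_nat_rpow_inv.2 (by norm_num)
  have h1 : Summable fun m : ℕ => (((m + 1 : ℕ) : ℝ) ^ (3 / 2 : ℝ))⁻¹ :=
    (summable_nat_add_iff 1).2 h0
  have h2 := h1.mul_left (2 ^ l.length)
  refine Summable.of_nonneg_of_le (cf_nonneg k l) (fun m => ?_) h2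
  have hm : (0 : ℝ) ≤ m := Nat.cast_nonneg m
  have hm1 : (0 : ℝ) < (m : ℝ) + 1 := by linarith
  have h3 : ((m : ℝ) + 1) ^ 2 ≤ ((m : ℝ) + 1) ^ k := pow_le_pow_right₀ (by linarith) hk
  have h4 := hs_le_sqrt hl m
  unfold cf
  calc hs l m / ((m : ℝ) + 1) ^ k ≤ hs l m / ((m : ℝ) + 1) ^ 2 :=
        div_le_div_of_nonneg_left (hs_nonneg l m) (by positivity) h3
    _ ≤ 2 ^ l.length * Real.sqrt ((m : ℝ) + 1) / ((m : ℝ) + 1) ^ 2 :=
        div_le_div_of_nonneg_right h4 (by positivity)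
    _ = 2 ^ l.length * (((m + 1 : ℕ) : ℝ) ^ (3 / 2 : ℝ))⁻¹ := by
        rw [mul_div_assoc]
        congr 1
        push_cast
        rw [Real.sqrt_eq_rpow, ← Real.rpow_natCast, ← Real.rpow_sub hm1, ← Real.rpow_neg hm1.le]
        norm_num

/-- the value at a point of the circle is given by the series -/
theorem V_eq_tsum {k : ℕ} {l : List ℕ} (hk : 2 ≤ k) (hl : Adm (k :: l)) {p : ℂ} (hp : ‖p‖ = 1)
    (hp1 : p ≠ 1) : V (k :: l) p = ∑' m : ℕ, (cf k l m : ℂ) * p ^ (m + 1) := by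
  have hS := summable_cf' hk hl.tail
  have h1 : Tendsto (Li (k :: l)) (𝓝[ball 0 1] p)
      (𝓝 (∑' m : ℕ, (cf k l m : ℂ) * p ^ (m + 1))) := by
    have e : Li (k :: l) = fun z => ∑' m : ℕ, (cf k l m : ℂ) * z ^ (m + 1) := by
      funext z
      exact Li_cons k l z
    rw [e]
    refine tendsto_tsum_of_dominated_convergence hS (fun m => ?_) ?_
    · have : Continuous fun z : ℂ => (cf k l m : ℂ) * z ^ (m + 1) := by fun_prop
      exact (this.tendsto p).mono_left nhdsWithin_le_nhds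
    · filter_upwards [self_mem_nhdsWithin] with z hz m
      rw [mem_ball_zero_iff] at hz
      rw [norm_mul, norm_pow, Complex.norm_real, Real.norm_of_nonneg (cf_nonneg k l m)]
      exact mul_le_of_le_one_right (cf_nonneg k l m) (pow_le_one₀ (norm_nonneg z) hz.le)
  have := neBot_circle hp
  exact tendsto_nhds_unique (tendsto_V hp hp1 hl) h1

/-- the function on the circle -/
noncomputable def Phi (k : ℕ) (l : List ℕ) (θ : ℝ) : ℂ :=
  ∑' m : ℕ, (cf k l m : ℂ) * Complex.exp (θ * Complex.I) ^ (m + 1)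

theorem cv_eq_Phi {k : ℕ} {l : List ℕ} (hk : 2 ≤ k) (hl : Adm (k :: l)) {θ : ℝ} (h0 : 0 < θ)
    (h1 : θ < 2 * Real.pi) : cv (k :: l) θ = Phi k l θ :=
  V_eq_tsum hk hl (norm_exp' θ) (exp_ne_one h0 h1)

theorem continuous_Phi {k : ℕ} {l : List ℕ} (hk : 2 ≤ k) (hl : Adm l) :
    Continuous (Phi k l) := by
  unfold Phi
  refine continuous_tsum (fun m => by fun_prop) (summable_cf' hk hl) fun m θ => ?_
  rw [norm_mul, norm_pow, norm_exp', one_pow, mul_one, Complex.norm_real,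
    Real.norm_of_nonneg (cf_nonneg k l m)]

theorem Phi_zero (k : ℕ) (l : List ℕ) : Phi k l 0 = ((∑' m : ℕ, cf k l m : ℝ) : ℂ) := by
  unfold Phi
  rw [Complex.ofReal_tsum]
  refine tsum_congr fun m => ?_
  simp

theorem Phi_two_pi (k : ℕ) (l : List ℕ) : Phi k l (2 * Real.pi) = Phi k l 0 := by
  unfold Phi
  refine tsum_congr fun m => ?_
  have : Complex.exp (((2 * Real.pi : ℝ) : ℂ) * Complex.I) = 1 := by
    push_cast
    exact Complex.exp_two_pi_mul_I
  rw [this]
  simp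

/-- the two components of the value -/
noncomputable def DD (l : List ℕ) (θ : ℝ) : ℝ := ((-Complex.I) ^ l.sum * cv l θ).im

/-- the two components of the value -/
noncomputable def GG (l : List ℕ) (θ : ℝ) : ℝ := ((-Complex.I) ^ l.sum * cv l θ).re

/-- the continuous extensions -/
noncomputable def DP (k : ℕ) (l : List ℕ) (θ : ℝ) : ℝ :=
  ((-Complex.I) ^ (k :: l).sum * Phi k l θ).im

noncomputable def GP (k : ℕ) (l : List ℕ) (θ : ℝ) : ℝ :=
  ((-Complex.I) ^ (k :: l).sum * Phi k l θ).re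

theorem continuous_DP {k : ℕ} {l : List ℕ} (hk : 2 ≤ k) (hl : Adm l) : Continuous (DP k l) :=
  Complex.continuous_im.comp (continuous_const.mul (continuous_Phi hk hl))

theorem continuous_GP {k : ℕ} {l : List ℕ} (hk : 2 ≤ k) (hl : Adm l) : Continuous (GP k l) :=
  Complex.continuous_re.comp (continuous_const.mul (continuous_Phi hk hl))

theorem DD_eq {k : ℕ} {l : List ℕ} (hk : 2 ≤ k) (hl : Adm (k :: l)) {θ : ℝ} (h0 : 0 < θ)
    (h1 : θ < 2 * Real.pi) : DD (k :: l) θ = DP k l θ := by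
  unfold DD DP
  rw [cv_eq_Phi hk hl h0 h1]

theorem GG_eq {k : ℕ} {l : List ℕ} (hk : 2 ≤ k) (hl : Adm (k :: l)) {θ : ℝ} (h0 : 0 < θ)
    (h1 : θ < 2 * Real.pi) : GG (k :: l) θ = GP k l θ := by
  unfold GG GP
  rw [cv_eq_Phi hk hl h0 h1]

theorem DP_two_pi (k : ℕ) (l : List ℕ) : DP k l (2 * Real.pi) = DP k l 0 := by
  unfold DP
  rw [Phi_two_pi]

theorem GP_two_pi (k : ℕ) (l : List ℕ) : GP k l (2 * Real.pi) = GP k l 0 := by
  unfold GP
  rw [Phi_two_pi]

theorem hasDerivAt_im {f : ℝ → ℂ} {d : ℂ} {x : ℝ} (h : HasDerivAt f d x) :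
    HasDerivAt (fun y => (f y).im) d.im x := by
  have := (Complex.imCLM.hasFDerivAt.comp_hasDerivAt x h)
  exact this

theorem hasDerivAt_re {f : ℝ → ℂ} {d : ℂ} {x : ℝ} (h : HasDerivAt f d x) :
    HasDerivAt (fun y => (f y).re) d.re x := by
  have := (Complex.reCLM.hasFDerivAt.comp_hasDerivAt x h)
  exact this

theorem der_succ {k : ℕ} {l : List ℕ} (hl : Adm l) {θ : ℝ} (h0 : 0 < θ)
    (h1 : θ < 2 * Real.pi) : HasDerivAt (fun θ => (-Complex.I) ^ ((k + 2) :: l).sum *
      cv ((k + 2) :: l) θ) ((-Complex.I) ^ ((k + 1) :: l).sum * cv ((k + 1) :: l) θ) θ := by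
  have h := (cv_succ (k := k) hl h0 h1).const_mul ((-Complex.I) ^ ((k + 2) :: l).sum)
  have e : (-Complex.I) ^ ((k + 2) :: l).sum * (Complex.I * cv ((k + 1) :: l) θ) =
      (-Complex.I) ^ ((k + 1) :: l).sum * cv ((k + 1) :: l) θ := by
    have e1 : ((k + 2) :: l).sum = ((k + 1) :: l).sum + 1 := by
      rw [List.sum_cons, List.sum_cons]
      ring
    rw [e1, pow_succ]
    have hI := Complex.I_mul_I
    linear_combination (-((-Complex.I) ^ ((k + 1) :: l).sum * cv ((k + 1) :: l) θ)) * hI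
  rwa [e] at h

theorem der_one {l : List ℕ} (hl : Adm l) {θ : ℝ} (h0 : 0 < θ) (h1 : θ < 2 * Real.pi) :
    HasDerivAt (fun θ => (-Complex.I) ^ (1 :: l).sum * cv (1 :: l) θ)
      ((Complex.I * (A' θ : ℂ) - 1 / 2) * ((-Complex.I) ^ l.sum * cv l θ)) θ := by
  have h := (cv_one' hl h0 h1).const_mul ((-Complex.I) ^ (1 :: l).sum)
  have e : (-Complex.I) ^ (1 :: l).sum * ((-(A' θ : ℂ) - Complex.I / 2) * cv l θ) =
      (Complex.I * (A' θ : ℂ) - 1 / 2) * ((-Complex.I) ^ l.sum * cv l θ) := by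
    rw [List.sum_cons, add_comm 1, pow_succ]
    have hI := Complex.I_mul_I
    linear_combination ((-Complex.I) ^ l.sum * cv l θ / 2) * hI
  rwa [e] at h

theorem DD_succ {k : ℕ} {l : List ℕ} (hl : Adm l) {θ : ℝ} (h0 : 0 < θ)
    (h1 : θ < 2 * Real.pi) : HasDerivAt (DD ((k + 2) :: l)) (DD ((k + 1) :: l) θ) θ :=
  hasDerivAt_im (der_succ hl h0 h1)

theorem GG_succ {k : ℕ} {l : List ℕ} (hl : Adm l) {θ : ℝ} (h0 : 0 < θ)
    (h1 : θ < 2 * Real.pi) : HasDerivAt (GG ((k + 2) :: l)) (GG ((k + 1) :: l) θ) θ :=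
  hasDerivAt_re (der_succ hl h0 h1)

theorem DD_one {l : List ℕ} (hl : Adm l) {θ : ℝ} (h0 : 0 < θ) (h1 : θ < 2 * Real.pi) :
    HasDerivAt (DD (1 :: l)) (A' θ * GG l θ - 1 / 2 * DD l θ) θ := by
  have h := hasDerivAt_im (der_one hl h0 h1)
  have e : ((Complex.I * (A' θ : ℂ) - 1 / 2) * ((-Complex.I) ^ l.sum * cv l θ)).im =
      A' θ * GG l θ - 1 / 2 * DD l θ := by
    unfold DD GG
    rw [Complex.mul_im]
    simp
    ring
  rw [e] at h
  exact h

theorem GG_one {l : List ℕ} (hl : Adm l) {θ : ℝ} (h0 : 0 < θ) (h1 : θ < 2 * Real.pi) :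
    HasDerivAt (GG (1 :: l)) (-A' θ * DD l θ - 1 / 2 * GG l θ) θ := by
  have h := hasDerivAt_re (der_one hl h0 h1)
  have e : ((Complex.I * (A' θ : ℂ) - 1 / 2) * ((-Complex.I) ^ l.sum * cv l θ)).re =
      -A' θ * DD l θ - 1 / 2 * GG l θ := by
    unfold DD GG
    rw [Complex.mul_re]
    simp
    ring
  rw [e] at h
  exact h

/-- two functions on `(0, 2 π)` with the same derivative -/
theorem eq_add_const {f g : ℝ → ℝ} {d : ℝ → ℝ}
    (hf : ∀ x ∈ Ioo 0 (2 * Real.pi), HasDerivAt f (d x) x)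
    (hg : ∀ x ∈ Ioo 0 (2 * Real.pi), HasDerivAt g (d x) x) :
    ∃ c : ℝ, ∀ x ∈ Ioo 0 (2 * Real.pi), f x = c + g x := by
  obtain ⟨c, hc⟩ := isOpen_Ioo.exists_is_const_of_deriv_eq_zero
    (isPreconnected_Ioo (a := (0 : ℝ)) (b := 2 * Real.pi))
    (f := fun x => f x - g x)
    (fun x hx => ((hf x hx).sub (hg x hx)).differentiableAt.differentiableWithinAt)
    (fun x hx => by
      have := ((hf x hx).sub (hg x hx)).deriv
      rw [sub_self] at this
      exact this)
  refine ⟨c, fun x hx => ?_⟩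
  have h3 : f x - g x = c := hc x hx
  linarith

theorem int_AA (a b : ℝ) : IntervalIntegrable A volume a b := by
  have h : MeromorphicOn (fun x : ℝ => 2 * Real.sin (x / 2)) (uIcc a b) := by
    have : AnalyticOnNhd ℝ (fun x : ℝ => 2 * Real.sin (x / 2)) Set.univ := by
      intro x _
      fun_prop
    exact (this.mono (Set.subset_univ _)).meromorphicOn
  have h2 := h.intervalIntegrable_log
  have e : (Real.log ∘ fun x : ℝ => 2 * Real.sin (x / 2)) = A := by
    funext x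
    unfold A
    rw [Function.comp_apply, Real.log_abs]
  rwa [e] at h2

end Pool.Agent.MPc258
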