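import Mathlib
import Pool.Agent.Lib.MP_c25811_nt.Circ

/-!
# MP_c25811_nt: functions on the circle with moments in the span of depth one
-/

set_option autoImplicit false

open Set Filter Topology Metric MeasureTheory

namespace Pool.Agent.MPc258

/-- the span of `π ^ m` times the value at `0` -/
noncomputable def Zs (k : ℕ) : Submodule ℚ ℝ :=
  Submodule.span ℚ {x | ∃ m s : ℕ, 2 ≤ s ∧ m + s = k ∧ x = Real.pi ^ m * DP s [] 0}

theorem Zs_mem (m s : ℕ) (hs : 2 ≤ s) : Real.pi ^ m * DP s [] 0 ∈ Zs (m + s) :=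
  Submodule.subset_span ⟨m, s, hs, rfl, rfl⟩

theorem Zs_pi {k : ℕ} {x : ℝ} (h : x ∈ Zs k) : Real.pi * x ∈ Zs (k + 1) := by
  unfold Zs at h
  induction h using Submodule.span_induction with
  | mem x hx =>
    obtain ⟨m, j, hj, rfl, rfl⟩ := hx
    refine Submodule.subset_span ⟨m + 1, j, hj, by omega, ?_⟩
    rw [pow_succ]
    ring
  | zero => simp
  | add x y _ _ hx hy =>
    rw [mul_add]
    exact (Zs _).add_mem hx hy
  | smul q x _ hx =>
    rw [mul_smul_comm]
    exact (Zs _).smul_mem q hx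

/-- `π` times an element of `Zs k` -/
noncomputable def PZ (k : ℕ) (x : ℝ) : Prop := ∃ z ∈ Zs k, x = Real.pi * z

theorem PZ.add {k : ℕ} {x y : ℝ} (hx : PZ k x) (hy : PZ k y) : PZ k (x + y) := by
  obtain ⟨z, hz, rfl⟩ := hx
  obtain ⟨w, hw, rfl⟩ := hy
  exact ⟨z + w, (Zs k).add_mem hz hw, by ring⟩

theorem PZ.smul {k : ℕ} {x : ℝ} (q : ℚ) (hx : PZ k x) : PZ k (q * x) := by
  obtain ⟨z, hz, rfl⟩ := hx
  exact ⟨q * z, rat_mem q hz, by ring⟩

theorem PZ.sub {k : ℕ} {x y : ℝ} (hx : PZ k x) (hy : PZ k y) : PZ k (x - y) := by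
  obtain ⟨z, hz, rfl⟩ := hx
  obtain ⟨w, hw, rfl⟩ := hy
  exact ⟨z - w, (Zs k).sub_mem hz hw, by ring⟩

theorem PZ.pi {k : ℕ} {x : ℝ} (hx : PZ k x) : PZ (k + 1) (Real.pi * x) := by
  obtain ⟨z, hz, rfl⟩ := hx
  exact ⟨Real.pi * z, Zs_pi hz, by ring⟩

theorem PZ_zero (k : ℕ) : PZ k 0 := ⟨0, (Zs k).zero_mem, by simp⟩

theorem V_nil {p : ℂ} (hp : ‖p‖ = 1) (hp1 : p ≠ 1) : V [] p = 1 := by
  have := neBot_circle hp
  have h1 := tendsto_V hp hp1 Adm_nil
  have e : Li [] = fun _ => 1 := funext Li_nil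
  rw [e] at h1
  exact tendsto_nhds_unique h1 tendsto_const_nhds

theorem cv_nil {θ : ℝ} (h0 : 0 < θ) (h1 : θ < 2 * Real.pi) : cv [] θ = 1 :=
  V_nil (norm_exp' θ) (exp_ne_one h0 h1)

theorem cv_pi3 (l : List ℕ) : cv l (Real.pi / 3) = V l rho := rfl

theorem V_one_rho : V [1] rho = Complex.I * ((Real.pi / 3 : ℝ) : ℂ) := by
  rw [V_one Adm_nil, Q_nil]
  have : WI [] = Real.pi / 3 := by
    unfold WI
    have e : ∀ x, T [] x = 1 := fun x => by rw [T]
    simp_rw [e]
    simp
  rw [this]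

theorem mem_pi3 : Real.pi / 3 ∈ Ioo 0 (2 * Real.pi) := by
  have := Real.pi_pos
  constructor <;> linarith

theorem DD_nil {θ : ℝ} (h0 : 0 < θ) (h1 : θ < 2 * Real.pi) : DD [] θ = 0 := by
  unfold DD
  rw [cv_nil h0 h1]
  simp

theorem GG_nil {θ : ℝ} (h0 : 0 < θ) (h1 : θ < 2 * Real.pi) : GG [] θ = 1 := by
  unfold GG
  rw [cv_nil h0 h1]
  simp

theorem cpt_one : (-Complex.I) ^ [1].sum * cv [1] (Real.pi / 3) = ((Real.pi / 3 : ℝ) : ℂ) := by
  rw [cv_pi3, V_one_rho]
  have hI := Complex.I_mul_I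
  have e : [1].sum = 1 := by simp
  rw [e, pow_one]
  linear_combination (-((Real.pi / 3 : ℝ) : ℂ)) * hI

theorem DD_one_eq {θ : ℝ} (h : θ ∈ Ioo 0 (2 * Real.pi)) : DD [1] θ = A θ := by
  obtain ⟨c, hc⟩ := eq_add_const (f := DD [1]) (g := A) (d := A')
    (fun x hx => by
      have h1 := DD_one Adm_nil hx.1 hx.2
      rw [DD_nil hx.1 hx.2, GG_nil hx.1 hx.2] at h1
      simpa using h1)
    (fun x hx => hasDerivAt_A hx.1 hx.2)
  have h1 := hc _ mem_pi3
  have h2 : DD [1] (Real.pi / 3) = 0 := by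
    unfold DD
    rw [cpt_one, Complex.ofReal_im]
  rw [h2, A_pi3, add_zero] at h1
  rw [hc θ h, ← h1, zero_add]

theorem GG_one_eq {θ : ℝ} (h : θ ∈ Ioo 0 (2 * Real.pi)) : GG [1] θ = (Real.pi - θ) / 2 := by
  obtain ⟨c, hc⟩ := eq_add_const (f := GG [1]) (g := fun x => (Real.pi - x) / 2)
    (d := fun _ => -(1 / 2))
    (fun x hx => by
      have h1 := GG_one Adm_nil hx.1 hx.2
      rw [DD_nil hx.1 hx.2, GG_nil hx.1 hx.2] at h1
      have e : -A' x * 0 - 1 / 2 * 1 = -(1 / 2) := by ring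
      rwa [e] at h1)
    (fun x _ => by
      have h1 := ((hasDerivAt_id x).const_sub Real.pi).div_const 2
      have e : -(1 : ℝ) / 2 = -(1 / 2) := by ring
      rw [e] at h1
      exact h1)
  have h1 := hc _ mem_pi3
  have h2 : GG [1] (Real.pi / 3) = Real.pi / 3 := by
    unfold GG
    rw [cpt_one, Complex.ofReal_re]
  rw [h2] at h1
  have h3 : c = 0 := by linarith
  rw [hc θ h, h3, zero_add]

theorem pair_two {x : ℝ} : (0 : ℝ) ≤ 2 * Real.pi := by have := Real.pi_pos; positivity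

/-- mean zero -/
theorem mean_zero {k : ℕ} {l : List ℕ} (hl : Adm l)
    (hi : IntervalIntegrable (DD ((k + 1) :: l)) volume 0 (2 * Real.pi)) :
    ∫ x in (0 : ℝ)..(2 * Real.pi), DD ((k + 1) :: l) x = 0 := by
  have hpi := Real.pi_pos
  have h := intervalIntegral.integral_eq_sub_of_hasDerivAt_of_le (a := 0) (b := 2 * Real.pi)
    (by positivity) (f := DP (k + 2) l) (f' := DD ((k + 1) :: l))
    (continuous_DP (by omega) hl).continuousOn (fun x hx => ?_) hi
  · rw [h, DP_two_pi, sub_self]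
  · have h1 := DD_succ (k := k) hl hx.1 hx.2
    refine h1.congr_of_eventuallyEq ?_
    filter_upwards [Ioo_mem_nhds hx.1 hx.2] with y hy
    exact (DD_eq (by omega) (Adm_cons (k := k + 1) hl) hy.1 hy.2).symm

theorem mean_zeroG {k : ℕ} {l : List ℕ} (hl : Adm l)
    (hi : IntervalIntegrable (GG ((k + 1) :: l)) volume 0 (2 * Real.pi)) :
    ∫ x in (0 : ℝ)..(2 * Real.pi), GG ((k + 1) :: l) x = 0 := by
  have hpi := Real.pi_pos
  have h := intervalIntegral.integral_eq_sub_of_hasDerivAt_of_le (a := 0) (b := 2 * Real.pi)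
    (by positivity) (f := GP (k + 2) l) (f' := GG ((k + 1) :: l))
    (continuous_GP (by omega) hl).continuousOn (fun x hx => ?_) hi
  · rw [h, GP_two_pi, sub_self]
  · have h1 := GG_succ (k := k) hl hx.1 hx.2
    refine h1.congr_of_eventuallyEq ?_
    filter_upwards [Ioo_mem_nhds hx.1 hx.2] with y hy
    exact (GG_eq (by omega) (Adm_cons (k := k + 1) hl) hy.1 hy.2).symm

theorem int_congr_Ioo {f g : ℝ → ℝ} {c : ℝ} (hc : 0 ≤ c) (h : ∀ x ∈ Ioo 0 c, f x = g x) :
    ∫ x in (0 : ℝ)..c, f x = ∫ x in (0 : ℝ)..c, g x := by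
  refine intervalIntegral.integral_congr_uIoo ?_
  intro x hx
  rw [uIoo_of_le hc] at hx
  exact h x hx

theorem intble_congr {f g : ℝ → ℝ} {c : ℝ} (hc : 0 ≤ c) (hf : IntervalIntegrable f volume 0 c)
    (h : ∀ x ∈ Ioo 0 c, f x = g x) : IntervalIntegrable g volume 0 c := by
  refine hf.congr_ae ?_
  rw [uIoc_of_le hc, ← restrict_Ioo_eq_restrict_Ioc, Filter.EventuallyEq,
    ae_restrict_iff' measurableSet_Ioo]
  exact Filter.Eventually.of_forall h

/-- the primitive from `0` -/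
noncomputable def J (h : ℝ → ℝ) (x : ℝ) : ℝ := ∫ y in (0 : ℝ)..x, h y

theorem J_cont {h : ℝ → ℝ} (hi : IntervalIntegrable h volume 0 (2 * Real.pi)) :
    ContinuousOn (J h) (Icc 0 (2 * Real.pi)) := by
  have hpi := Real.pi_pos
  have := intervalIntegral.continuousOn_primitive_interval' hi (left_mem_uIcc)
  rw [uIcc_of_le (by positivity)] at this
  exact this

theorem J_deriv {h : ℝ → ℝ} (hi : IntervalIntegrable h volume 0 (2 * Real.pi))
    (hc : ContinuousOn h (Ioo 0 (2 * Real.pi))) {x : ℝ} (hx : x ∈ Ioo 0 (2 * Real.pi)) :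
    HasDerivAt (J h) (h x) x := by
  have hpi := Real.pi_pos
  refine intervalIntegral.integral_hasDerivAt_right ?_
    (hc.stronglyMeasurableAtFilter isOpen_Ioo x hx) (hc.continuousAt (Ioo_mem_nhds hx.1 hx.2))
  refine hi.mono_set ?_
  rw [uIcc_of_le hx.1.le, uIcc_of_le (by positivity)]
  exact Icc_subset_Icc_right hx.2.le

theorem sub_int {h : ℝ → ℝ} (hi : IntervalIntegrable h volume 0 (2 * Real.pi)) {c : ℝ}
    (h0 : 0 ≤ c) (h1 : c ≤ 2 * Real.pi) : IntervalIntegrable h volume 0 c := by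
  refine hi.mono_set ?_
  rw [uIcc_of_le h0, uIcc_of_le (h0.trans h1)]
  exact Icc_subset_Icc_right h1

theorem int_mulpow {h : ℝ → ℝ} {c : ℝ} (hi : IntervalIntegrable h volume 0 c) (b : ℕ) :
    IntervalIntegrable (fun x => h x * (c - x) ^ b) volume 0 c :=
  hi.mul_continuousOn (by fun_prop)

theorem J_moment {h : ℝ → ℝ} (hi : IntervalIntegrable h volume 0 (2 * Real.pi))
    (hc : ContinuousOn h (Ioo 0 (2 * Real.pi))) {c : ℝ} (h0 : 0 ≤ c) (h1 : c ≤ 2 * Real.pi)
    (b : ℕ) : ((b : ℝ) + 1) * ∫ x in (0 : ℝ)..c, J h x * (c - x) ^ b =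
      ∫ x in (0 : ℝ)..c, h x * (c - x) ^ (b + 1) := by
  have hJc : ContinuousOn (J h) (Icc 0 c) := (J_cont hi).mono (Icc_subset_Icc_right h1)
  have i1 : IntervalIntegrable (fun x => J h x * (c - x) ^ b) volume 0 c := by
    refine ContinuousOn.intervalIntegrable ?_
    rw [uIcc_of_le h0]
    exact hJc.mul (by fun_prop)
  have i2 := int_mulpow (sub_int hi h0 h1) (b + 1)
  have hcont : ContinuousOn (fun x => J h x * (c - x) ^ (b + 1)) (Icc 0 c) :=
    hJc.mul (by fun_prop)
  have key := intervalIntegral.integral_eq_sub_of_hasDerivAt_of_le h0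
    (f := fun x => J h x * (c - x) ^ (b + 1))
    (f' := fun x => h x * (c - x) ^ (b + 1) - ((b : ℝ) + 1) * (J h x * (c - x) ^ b)) hcont
    (fun x hx => ?_) (i2.sub (i1.const_mul _))
  · rw [intervalIntegral.integral_sub i2 (i1.const_mul _), intervalIntegral.integral_const_mul]
      at key
    have e0 : J h 0 = 0 := by
      unfold J
      rw [intervalIntegral.integral_same]
    rw [e0] at key
    simp only [sub_self, zero_mul] at key
    rw [zero_pow (by omega), mul_zero, sub_zero] at key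
    linarith
  · have hxb : x ∈ Ioo 0 (2 * Real.pi) := ⟨hx.1, hx.2.trans_le h1⟩
    have h2 := J_deriv hi hc hxb
    have h3 : HasDerivAt (fun x : ℝ => c - x) (-1) x := by
      simpa using (hasDerivAt_id x).const_sub c
    have h4 := h2.mul (h3.pow (b + 1))
    have e : h x * (c - x) ^ (b + 1) - ((b : ℝ) + 1) * (J h x * (c - x) ^ b) =
        h x * (c - x) ^ (b + 1) + J h x * (((b + 1 : ℕ) : ℝ) * (c - x) ^ (b + 1 - 1) * -1) := by
      rw [Nat.add_sub_cancel]
      push_cast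
      ring
    rw [e]
    exact h4

/-- the class of functions -/
structure GW (k : ℕ) (h : ℝ → ℝ) : Prop where
  cont : ContinuousOn h (Ioo 0 (2 * Real.pi))
  int : IntervalIntegrable h volume 0 (2 * Real.pi)
  p1 : h (Real.pi / 3) ∈ S1 k
  p2 : ∀ b : ℕ, ∫ x in (0 : ℝ)..(Real.pi / 3), h x * (Real.pi / 3 - x) ^ b ∈ S1 (k + b + 1)
  p3 : ∀ b : ℕ, PZ (k + b) (∫ x in (0 : ℝ)..(2 * Real.pi), h x * (2 * Real.pi - x) ^ b)

theorem pi3_nonneg : (0 : ℝ) ≤ Real.pi / 3 := by have := Real.pi_pos; positivity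

theorem twopi_nonneg : (0 : ℝ) ≤ 2 * Real.pi := by have := Real.pi_pos; positivity

theorem pi3_le : Real.pi / 3 ≤ 2 * Real.pi := by have := Real.pi_pos; linarith

theorem GW.add {k : ℕ} {f g : ℝ → ℝ} (hf : GW k f) (hg : GW k g) :
    GW k (fun x => f x + g x) := by
  refine ⟨hf.cont.add hg.cont, hf.int.add hg.int, (S1 k).add_mem hf.p1 hg.p1, fun b => ?_,
    fun b => ?_⟩
  · have e : ∫ x in (0 : ℝ)..(Real.pi / 3), (f x + g x) * (Real.pi / 3 - x) ^ b =
        (∫ x in (0 : ℝ)..(Real.pi / 3), f x * (Real.pi / 3 - x) ^ b) +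
          ∫ x in (0 : ℝ)..(Real.pi / 3), g x * (Real.pi / 3 - x) ^ b := by
      rw [← intervalIntegral.integral_add
        (int_mulpow (sub_int hf.int pi3_nonneg pi3_le) b)
        (int_mulpow (sub_int hg.int pi3_nonneg pi3_le) b)]
      congr 1
      funext x
      ring
    rw [e]
    exact (S1 _).add_mem (hf.p2 b) (hg.p2 b)
  · have e : ∫ x in (0 : ℝ)..(2 * Real.pi), (f x + g x) * (2 * Real.pi - x) ^ b =
        (∫ x in (0 : ℝ)..(2 * Real.pi), f x * (2 * Real.pi - x) ^ b) +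
          ∫ x in (0 : ℝ)..(2 * Real.pi), g x * (2 * Real.pi - x) ^ b := by
      rw [← intervalIntegral.integral_add (int_mulpow hf.int b) (int_mulpow hg.int b)]
      congr 1
      funext x
      ring
    rw [e]
    exact (hf.p3 b).add (hg.p3 b)

theorem GW.smul {k : ℕ} {f : ℝ → ℝ} (q : ℚ) (hf : GW k f) : GW k (fun x => q * f x) := by
  refine ⟨continuousOn_const.mul hf.cont, hf.int.const_mul _, rat_mem q hf.p1, fun b => ?_,
    fun b => ?_⟩
  · have e : ∫ x in (0 : ℝ)..(Real.pi / 3), (q * f x) * (Real.pi / 3 - x) ^ b =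
        q * ∫ x in (0 : ℝ)..(Real.pi / 3), f x * (Real.pi / 3 - x) ^ b := by
      rw [← intervalIntegral.integral_const_mul]
      congr 1
      funext x
      ring
    rw [e]
    exact rat_mem q (hf.p2 b)
  · have e : ∫ x in (0 : ℝ)..(2 * Real.pi), (q * f x) * (2 * Real.pi - x) ^ b =
        q * ∫ x in (0 : ℝ)..(2 * Real.pi), f x * (2 * Real.pi - x) ^ b := by
      rw [← intervalIntegral.integral_const_mul]
      congr 1
      funext x
      ring
    rw [e]
    exact (hf.p3 b).smul q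

theorem GW.congr {k : ℕ} {f g : ℝ → ℝ} (hf : GW k f)
    (h : ∀ x ∈ Ioo 0 (2 * Real.pi), f x = g x) : GW k g := by
  refine ⟨hf.cont.congr fun x hx => (h x hx).symm, intble_congr twopi_nonneg hf.int h, ?_,
    fun b => ?_, fun b => ?_⟩
  · rw [← h _ mem_pi3]
    exact hf.p1
  · have e : ∫ x in (0 : ℝ)..(Real.pi / 3), g x * (Real.pi / 3 - x) ^ b =
        ∫ x in (0 : ℝ)..(Real.pi / 3), f x * (Real.pi / 3 - x) ^ b := by
      refine int_congr_Ioo pi3_nonneg fun x hx => ?_
      rw [h x ⟨hx.1, hx.2.trans_le pi3_le⟩]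
    rw [e]
    exact hf.p2 b
  · have e : ∫ x in (0 : ℝ)..(2 * Real.pi), g x * (2 * Real.pi - x) ^ b =
        ∫ x in (0 : ℝ)..(2 * Real.pi), f x * (2 * Real.pi - x) ^ b := by
      refine int_congr_Ioo twopi_nonneg fun x hx => ?_
      rw [h x hx]
    rw [e]
    exact hf.p3 b

theorem GW.J {k : ℕ} {f : ℝ → ℝ} (hf : GW k f) : GW (k + 1) (J f) := by
  have hcI := J_cont hf.int
  refine ⟨hcI.mono Ioo_subset_Icc_self, ?_, ?_, fun b => ?_, fun b => ?_⟩
  · refine ContinuousOn.intervalIntegrable ?_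
    rw [uIcc_of_le twopi_nonneg]
    exact hcI
  · have h := hf.p2 0
    have e : ∫ x in (0 : ℝ)..(Real.pi / 3), f x * (Real.pi / 3 - x) ^ 0 =
        MPc258.J f (Real.pi / 3) := by
      unfold MPc258.J
      simp
    rw [e] at h
    exact h
  · have h := hf.p2 (b + 1)
    rw [← J_moment hf.int hf.cont pi3_nonneg pi3_le b] at h
    have h8 := rat_mem (1 / ((b : ℚ) + 1)) h
    have e3 : ((1 / ((b : ℚ) + 1) : ℚ) : ℝ) * (((b : ℝ) + 1) *
        ∫ x in (0 : ℝ)..(Real.pi / 3), MPc258.J f x * (Real.pi / 3 - x) ^ b) =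
        ∫ x in (0 : ℝ)..(Real.pi / 3), MPc258.J f x * (Real.pi / 3 - x) ^ b := by
      push_cast
      have : (b : ℝ) + 1 ≠ 0 := by positivity
      field_simp
    rw [e3] at h8
    have e4 : k + 1 + b + 1 = k + (b + 1) + 1 := by ring
    rw [e4]
    exact h8
  · have h := hf.p3 (b + 1)
    rw [← J_moment hf.int hf.cont twopi_nonneg le_rfl b] at h
    have h8 := h.smul (1 / ((b : ℚ) + 1))
    have e3 : ((1 / ((b : ℚ) + 1) : ℚ) : ℝ) * (((b : ℝ) + 1) *
        ∫ x in (0 : ℝ)..(2 * Real.pi), MPc258.J f x * (2 * Real.pi - x) ^ b) =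
        ∫ x in (0 : ℝ)..(2 * Real.pi), MPc258.J f x * (2 * Real.pi - x) ^ b := by
      push_cast
      have : (b : ℝ) + 1 ≠ 0 := by positivity
      field_simp
    rw [e3] at h8
    have e4 : k + 1 + b = k + (b + 1) := by ring
    rw [e4]
    exact h8

theorem int_pow_c (c : ℝ) (b : ℕ) :
    ∫ x in (0 : ℝ)..c, (c - x) ^ b = c ^ (b + 1) / ((b : ℝ) + 1) := by
  have h : ∀ x ∈ uIcc 0 c, HasDerivAt (fun x : ℝ => -((c - x) ^ (b + 1) / ((b : ℝ) + 1)))
      ((c - x) ^ b) x := by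
    intro x _
    have h3 : HasDerivAt (fun x : ℝ => c - x) (-1) x := by
      simpa using (hasDerivAt_id x).const_sub c
    have h4 := ((h3.pow (b + 1)).div_const ((b : ℝ) + 1)).neg
    have hb : (b : ℝ) + 1 ≠ 0 := by positivity
    have e : (c - x) ^ b = -(((b + 1 : ℕ) : ℝ) * (c - x) ^ (b + 1 - 1) * -1 / ((b : ℝ) + 1)) := by
      rw [Nat.add_sub_cancel]
      push_cast
      field_simp
    rw [e]
    exact h4
  rw [intervalIntegral.integral_eq_sub_of_hasDerivAt h
    (Continuous.intervalIntegrable (by fun_prop) _ _)]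
  simp

theorem GW_const {k : ℕ} {c : ℝ} (h1 : c ∈ S1 k) (h2 : c ∈ Zs k) : GW k (fun _ => c) := by
  refine ⟨continuousOn_const, intervalIntegrable_const, h1, fun b => ?_, fun b => ?_⟩
  · rw [intervalIntegral.integral_const_mul, int_pow_c]
    have h3 := rat_mem ((1 / 3 : ℚ) ^ (b + 1) / ((b : ℚ) + 1)) (S1_pi_pow h1 (b + 1))
    have e : (((1 / 3 : ℚ) ^ (b + 1) / ((b : ℚ) + 1) : ℚ) : ℝ) * (Real.pi ^ (b + 1) * c) =
        c * ((Real.pi / 3) ^ (b + 1) / ((b : ℝ) + 1)) := by
      push_cast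
      rw [div_pow, div_pow]
      ring
    rw [e] at h3
    exact h3
  · rw [intervalIntegral.integral_const_mul, int_pow_c]
    have h3 : ∀ b : ℕ, Real.pi ^ b * c ∈ Zs (k + b) := by
      intro b
      induction b with
      | zero => simpa using h2
      | succ b ih =>
        have := Zs_pi ih
        rw [pow_succ]
        have e : Real.pi ^ b * Real.pi * c = Real.pi * (Real.pi ^ b * c) := by ring
        rw [e]
        exact this
    refine ⟨((2 ^ (b + 1) / ((b : ℚ) + 1) : ℚ) : ℝ) * (Real.pi ^ b * c), rat_mem _ (h3 b), ?_⟩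
    push_cast
    rw [mul_pow, pow_succ Real.pi]
    ring

/-- a constant determined by mean zero -/
theorem const_mem {k : ℕ} {c : ℝ} {g : ℝ → ℝ} (hg : GW k g)
    (h : ∫ x in (0 : ℝ)..(2 * Real.pi), (c + g x) = 0) : c ∈ Zs k := by
  obtain ⟨z, hz, he⟩ := hg.p3 0
  have e : ∫ x in (0 : ℝ)..(2 * Real.pi), g x * (2 * Real.pi - x) ^ 0 =
      ∫ x in (0 : ℝ)..(2 * Real.pi), g x := by
    simp
  rw [e] at he
  rw [intervalIntegral.integral_add intervalIntegrable_const hg.int, he,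
    intervalIntegral.integral_const, smul_eq_mul, sub_zero] at h
  have hpi := Real.pi_pos
  have h2 : c = ((-1 / 2 : ℚ) : ℝ) * z := by
    have h3 : Real.pi * (2 * c + z) = 0 := by linear_combination h
    have h4 : 2 * c + z = 0 := (mul_eq_zero.1 h3).resolve_left hpi.ne'
    push_cast
    linarith
  rw [h2]
  exact rat_mem _ hz

/-- homogeneous polynomials in `π` and the variable -/
inductive HP : ℕ → (ℝ → ℝ) → Prop
  | one : HP 0 (fun _ => 1)
  | pi {n : ℕ} {P : ℝ → ℝ} : HP n P → HP (n + 1) (fun x => Real.pi * P x)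
  | th {n : ℕ} {P : ℝ → ℝ} : HP n P → HP (n + 1) (fun x => x * P x)
  | add {n : ℕ} {P R : ℝ → ℝ} : HP n P → HP n R → HP n (fun x => P x + R x)
  | smul {n : ℕ} {P : ℝ → ℝ} (q : ℚ) : HP n P → HP n (fun x => q * P x)

theorem HP.cont {n : ℕ} {P : ℝ → ℝ} (h : HP n P) : Continuous P := by
  induction h with
  | one => exact continuous_const
  | pi _ h => exact continuous_const.mul h
  | th _ h => exact continuous_id.mul h
  | add _ _ h1 h2 => exact h1.add h2
  | smul q _ h => exact continuous_const.mul h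

theorem HP_const (n : ℕ) (q : ℚ) : HP n (fun _ => (q : ℝ) * Real.pi ^ n) := by
  have h : HP n (fun _ => Real.pi ^ n) := by
    induction n with
    | zero => simpa using HP.one
    | succ n ih =>
      have := HP.pi ih
      have e : (fun _ : ℝ => Real.pi ^ (n + 1)) = fun _ => Real.pi * Real.pi ^ n := by
        funext _
        rw [pow_succ]
        ring
      rw [e]
      exact this
  exact HP.smul q h

theorem HP.eval {n : ℕ} {P : ℝ → ℝ} (h : HP n P) : ∃ q : ℚ, P (2 * Real.pi) = q * Real.pi ^ n := by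
  induction h with
  | one => exact ⟨1, by simp⟩
  | pi _ h =>
    obtain ⟨q, hq⟩ := h
    exact ⟨q, by beta_reduce; rw [hq, pow_succ]; ring⟩
  | th _ h =>
    obtain ⟨q, hq⟩ := h
    exact ⟨2 * q, by beta_reduce; rw [hq, pow_succ]; push_cast; ring⟩
  | add _ _ h1 h2 =>
    obtain ⟨q, hq⟩ := h1
    obtain ⟨r, hr⟩ := h2
    exact ⟨q + r, by beta_reduce; rw [hq, hr]; push_cast; ring⟩
  | smul q _ h =>
    obtain ⟨r, hr⟩ := h
    exact ⟨q * r, by beta_reduce; rw [hr]; push_cast; ring⟩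

theorem HP.prim {n : ℕ} {P : ℝ → ℝ} (h : HP n P) :
    ∀ i : ℕ, HP (n + i + 1) (fun x => ∫ t in (0 : ℝ)..x, t ^ i * P t) := by
  induction h with
  | one =>
    intro i
    have h1 : ∀ j, HP j (fun x => x ^ j) := by
      intro j
      induction j with
      | zero => simpa using HP.one
      | succ j ih =>
        have := HP.th ih
        have e : (fun x : ℝ => x ^ (j + 1)) = fun x => x * x ^ j := by
          funext x
          rw [pow_succ]
          ring
        rw [e]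
        exact this
    have h2 := HP.smul (1 / ((i : ℚ) + 1)) (h1 (i + 1))
    have e : (fun x : ℝ => ∫ t in (0 : ℝ)..x, t ^ i * (1 : ℝ)) =
        fun x => ((1 / ((i : ℚ) + 1) : ℚ) : ℝ) * x ^ (i + 1) := by
      funext x
      simp only [mul_one]
      rw [integral_pow]
      push_cast
      rw [zero_pow (by omega), sub_zero]
      ring
    rw [e]
    have e2 : 0 + i + 1 = i + 1 := by ring
    rw [e2]
    exact h2
  | @pi n P _ h =>
    intro i
    have h2 := HP.pi (h i)
    have e : (fun x => ∫ t in (0 : ℝ)..x, t ^ i * (Real.pi * P t)) =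
        fun x => Real.pi * ∫ t in (0 : ℝ)..x, t ^ i * P t := by
      funext x
      rw [← intervalIntegral.integral_const_mul]
      congr 1
      funext t
      ring
    rw [e]
    have e2 : n + 1 + i + 1 = n + i + 1 + 1 := by ring
    rw [e2]
    exact h2
  | @th n P _ h =>
    intro i
    have h2 := h (i + 1)
    have e : (fun x => ∫ t in (0 : ℝ)..x, t ^ i * (t * P t)) =
        fun x => ∫ t in (0 : ℝ)..x, t ^ (i + 1) * P t := by
      funext x
      congr 1
      funext t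
      rw [pow_succ]
      ring
    rw [e]
    have e2 : n + 1 + i + 1 = n + (i + 1) + 1 := by ring
    rw [e2]
    exact h2
  | @add n P R hP hR h1 h2 =>
    intro i
    have h3 := HP.add (h1 i) (h2 i)
    have e : (fun x => ∫ t in (0 : ℝ)..x, t ^ i * (P t + R t)) =
        fun x => (∫ t in (0 : ℝ)..x, t ^ i * P t) + ∫ t in (0 : ℝ)..x, t ^ i * R t := by
      funext x
      have c1 := hP.cont
      have c2 := hR.cont
      rw [← intervalIntegral.integral_add
        (Continuous.intervalIntegrable (by fun_prop) _ _)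
        (Continuous.intervalIntegrable (by fun_prop) _ _)]
      congr 1
      funext t
      ring
    rw [e]
    exact h3
  | @smul n P q _ h =>
    intro i
    have h2 := HP.smul q (h i)
    have e : (fun x => ∫ t in (0 : ℝ)..x, t ^ i * (q * P t)) =
        fun x => q * ∫ t in (0 : ℝ)..x, t ^ i * P t := by
      funext x
      rw [← intervalIntegral.integral_const_mul]
      congr 1
      funext t
      ring
    rw [e]
    exact h2

theorem HP.J {n : ℕ} {P : ℝ → ℝ} (h : HP n P) : HP (n + 1) (J P) := by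
  have h2 := h.prim 0
  have e : (fun x => ∫ t in (0 : ℝ)..x, t ^ 0 * P t) = MPc258.J P := by
    funext x
    unfold MPc258.J
    simp
  rw [e] at h2
  exact h2

end Pool.Agent.MPc258
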