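import Mathlib
import Pool.Agent.Lib.MP_c25811_nt.GW

/-!
# MP_c25811_nt: depth at most two
-/

set_option autoImplicit false

open Set Filter Topology Metric MeasureTheory

namespace Pool.Agent.MPc258

theorem DDc {k : ℕ} {l : List ℕ} (hl : Adm l) :
    ContinuousOn (DD ((k + 1) :: l)) (Ioo 0 (2 * Real.pi)) := by
  intro x hx
  cases k with
  | zero => exact (DD_one hl hx.1 hx.2).continuousAt.continuousWithinAt
  | succ k => exact (DD_succ (k := k) hl hx.1 hx.2).continuousAt.continuousWithinAt

/-- for `k ≥ 2` the value is a constant plus the primitive -/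
theorem DD_prim {k : ℕ} {l : List ℕ} (hl : Adm l)
    (hi : IntervalIntegrable (DD ((k + 1) :: l)) volume 0 (2 * Real.pi)) :
    ∀ x ∈ Ioo 0 (2 * Real.pi),
      DD ((k + 2) :: l) x = DP (k + 2) l 0 + J (DD ((k + 1) :: l)) x := by
  intro x hx
  have h := intervalIntegral.integral_eq_sub_of_hasDerivAt_of_le (a := 0) (b := x)
    hx.1.le (f := DP (k + 2) l) (f' := DD ((k + 1) :: l))
    (continuous_DP (by omega) hl).continuousOn (fun y hy => ?_) (sub_int hi hx.1.le hx.2.le)
  · have e : J (DD ((k + 1) :: l)) x = DP (k + 2) l x - DP (k + 2) l 0 := h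
    rw [e, DD_eq (by omega) (Adm_cons (k := k + 1) hl) hx.1 hx.2]
    ring
  · have hy2 : y < 2 * Real.pi := hy.2.trans hx.2
    have h1 := DD_succ (k := k) hl hy.1 hy2
    refine h1.congr_of_eventuallyEq ?_
    filter_upwards [Ioo_mem_nhds hy.1 hy2] with z hz
    exact (DD_eq (by omega) (Adm_cons (k := k + 1) hl) hz.1 hz.2).symm

theorem GG_prim {k : ℕ} {l : List ℕ} (hl : Adm l)
    (hi : IntervalIntegrable (GG ((k + 1) :: l)) volume 0 (2 * Real.pi)) :
    ∀ x ∈ Ioo 0 (2 * Real.pi),
      GG ((k + 2) :: l) x = GP (k + 2) l 0 + J (GG ((k + 1) :: l)) x := by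
  intro x hx
  have h := intervalIntegral.integral_eq_sub_of_hasDerivAt_of_le (a := 0) (b := x)
    hx.1.le (f := GP (k + 2) l) (f' := GG ((k + 1) :: l))
    (continuous_GP (by omega) hl).continuousOn (fun y hy => ?_) (sub_int hi hx.1.le hx.2.le)
  · have e : J (GG ((k + 1) :: l)) x = GP (k + 2) l x - GP (k + 2) l 0 := h
    rw [e, GG_eq (by omega) (Adm_cons (k := k + 1) hl) hx.1 hx.2]
    ring
  · have hy2 : y < 2 * Real.pi := hy.2.trans hx.2
    have h1 := GG_succ (k := k) hl hy.1 hy2
    refine h1.congr_of_eventuallyEq ?_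
    filter_upwards [Ioo_mem_nhds hy.1 hy2] with z hz
    exact (GG_eq (by omega) (Adm_cons (k := k + 1) hl) hz.1 hz.2).symm

/-- for heads at least two the component is integrable -/
theorem DD_int_succ (k : ℕ) {l : List ℕ} (hl : Adm l) :
    IntervalIntegrable (DD ((k + 2) :: l)) volume 0 (2 * Real.pi) := by
  refine intble_congr twopi_nonneg
    ((continuous_DP (k := k + 2) (by omega) hl).intervalIntegrable _ _) fun x hx => ?_
  exact (DD_eq (by omega) (Adm_cons (k := k + 1) hl) hx.1 hx.2).symm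

theorem DD_int1 : ∀ k : ℕ, IntervalIntegrable (DD [k + 1]) volume 0 (2 * Real.pi) := by
  intro k
  cases k with
  | zero =>
    refine intble_congr twopi_nonneg (int_AA _ _) fun x hx => ?_
    exact (DD_one_eq hx).symm
  | succ k => exact DD_int_succ k Adm_nil

/-- the polynomials of depth one -/
theorem GG_poly : ∀ k : ℕ, ∃ P : ℝ → ℝ, HP (k + 1) P ∧
    ∀ x ∈ Ioo 0 (2 * Real.pi), GG [k + 1] x = P x := by
  intro k
  induction k with
  | zero =>
    have h := HP.add (HP.smul (1 / 2) (HP.pi HP.one)) (HP.smul (-1 / 2) (HP.th HP.one))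
    refine ⟨_, h, fun x hx => ?_⟩
    have e : GG [0 + 1] x = (Real.pi - x) / 2 := GG_one_eq hx
    rw [e]
    push_cast
    ring
  | succ k ih =>
    obtain ⟨P, hP, hPe⟩ := ih
    have hPi : IntervalIntegrable P volume 0 (2 * Real.pi) := hP.cont.intervalIntegrable _ _
    have hGi : IntervalIntegrable (GG [k + 1]) volume 0 (2 * Real.pi) :=
      intble_congr twopi_nonneg hPi fun x hx => (hPe x hx).symm
    have hprim := GG_prim (k := k) Adm_nil hGi
    have hJP : ∀ x ∈ Ioo 0 (2 * Real.pi), J (GG [k + 1]) x = J P x := by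
      intro x hx
      exact int_congr_Ioo hx.1.le fun y hy => hPe y ⟨hy.1, hy.2.trans hx.2⟩
    -- the constant
    obtain ⟨q, hq⟩ := hP.J.J.eval
    have hGi2 : IntervalIntegrable (GG [k + 1 + 1]) volume 0 (2 * Real.pi) := by
      refine intble_congr twopi_nonneg
        ((continuous_GP (k := k + 2) (l := []) (by omega) Adm_nil).intervalIntegrable _ _)
        fun x hx => ?_
      exact (GG_eq (by omega) (Adm_cons (k := k + 1) Adm_nil) hx.1 hx.2).symm
    have hz := mean_zeroG (k := k + 1) (l := []) Adm_nil hGi2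
    have e1 : ∫ x in (0 : ℝ)..(2 * Real.pi), GG [k + 1 + 1] x =
        ∫ x in (0 : ℝ)..(2 * Real.pi), (GP (k + 2) [] 0 + J P x) := by
      refine int_congr_Ioo twopi_nonneg fun x hx => ?_
      rw [← hJP x hx]
      exact hprim x hx
    rw [e1, intervalIntegral.integral_add intervalIntegrable_const
      (hP.J.cont.intervalIntegrable _ _), intervalIntegral.integral_const, smul_eq_mul,
      sub_zero] at hz
    have e2 : ∫ x in (0 : ℝ)..(2 * Real.pi), J P x = q * Real.pi ^ (k + 1 + 1 + 1) := hq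
    rw [e2] at hz
    have hpi := Real.pi_pos
    have e3 : GP (k + 2) [] 0 = ((-1 / 2 * q : ℚ) : ℝ) * Real.pi ^ (k + 1 + 1) := by
      have h4 : Real.pi * (2 * GP (k + 2) [] 0 + q * Real.pi ^ (k + 1 + 1)) = 0 := by
        rw [pow_succ Real.pi (k + 1 + 1)] at hz
        linear_combination hz
      have h5 := (mul_eq_zero.1 h4).resolve_left hpi.ne'
      push_cast
      linarith
    refine ⟨_, HP.add (HP_const (k + 1 + 1) (-1 / 2 * q)) hP.J, fun x hx => ?_⟩
    have h6 := hprim x hx
    rw [hJP x hx, e3] at h6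
    exact h6

/-! ### moments of the functions of depth one -/

theorem M_zero (k : ℕ) : ∫ x in (0 : ℝ)..(2 * Real.pi), DD [k + 1] x = 0 :=
  mean_zero Adm_nil (DD_int1 k)

theorem M_mem : ∀ b k : ℕ, PZ (k + 1 + b)
    (∫ x in (0 : ℝ)..(2 * Real.pi), DD [k + 1] x * (2 * Real.pi - x) ^ b) := by
  intro b
  induction b with
  | zero =>
    intro k
    simp only [pow_zero, mul_one]
    rw [M_zero]
    exact PZ_zero _
  | succ b ih =>
    intro k
    have hpi := Real.pi_pos
    have i1 := int_mulpow (DD_int1 k) (b + 1)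
    have i2 := int_mulpow (DD_int1 (k + 1)) b
    have hc := continuous_DP (k := k + 2) (l := []) (by omega) Adm_nil
    have key := intervalIntegral.integral_eq_sub_of_hasDerivAt_of_le (a := 0)
      (b := 2 * Real.pi) (by positivity)
      (f := fun x => DP (k + 2) [] x * (2 * Real.pi - x) ^ (b + 1))
      (f' := fun x => DD [k + 1] x * (2 * Real.pi - x) ^ (b + 1) -
        ((b : ℝ) + 1) * (DD [k + 1 + 1] x * (2 * Real.pi - x) ^ b))
      (hc.continuousOn.mul (by fun_prop)) (fun x hx => ?_) (i1.sub (i2.const_mul _))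
    · rw [intervalIntegral.integral_sub i1 (i2.const_mul _),
        intervalIntegral.integral_const_mul] at key
      simp only [sub_self, sub_zero] at key
      rw [zero_pow (by omega), mul_zero, zero_sub] at key
      have h1 := (ih (k + 1)).smul ((b : ℚ) + 1)
      have h2 : PZ (k + 1 + (b + 1)) (DP (k + 2) [] 0 * (2 * Real.pi) ^ (b + 1)) := by
        refine ⟨((2 : ℚ) ^ (b + 1) : ℚ) * (Real.pi ^ b * DP (k + 2) [] 0), ?_, ?_⟩
        · have := rat_mem ((2 : ℚ) ^ (b + 1)) (Zs_mem b (k + 2) (by omega))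
          have e : b + (k + 2) = k + 1 + (b + 1) := by ring
          rwa [e] at this
        · push_cast
          rw [mul_pow, pow_succ Real.pi]
          ring
      have e : k + 1 + 1 + b = k + 1 + (b + 1) := by ring
      rw [e] at h1
      have h3 := h1.sub h2
      push_cast at h3
      have e4 : ∫ x in (0 : ℝ)..(2 * Real.pi), DD [k + 1] x * (2 * Real.pi - x) ^ (b + 1) =
          ((b : ℝ) + 1) * (∫ x in (0 : ℝ)..(2 * Real.pi),
            DD [k + 1 + 1] x * (2 * Real.pi - x) ^ b) -
            DP (k + 2) [] 0 * (2 * Real.pi) ^ (b + 1) := by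
        linarith
      rw [e4]
      exact h3
    · have h1 : HasDerivAt (DP (k + 2) []) (DD [k + 1] x) x := by
        have h2 := DD_succ (k := k) Adm_nil hx.1 hx.2
        refine h2.congr_of_eventuallyEq ?_
        filter_upwards [Ioo_mem_nhds hx.1 hx.2] with z hz
        exact (DD_eq (by omega) (Adm_cons (k := k + 1) Adm_nil) hz.1 hz.2).symm
      have h3 : HasDerivAt (fun x : ℝ => 2 * Real.pi - x) (-1) x := by
        simpa using (hasDerivAt_id x).const_sub (2 * Real.pi)
      have h4 := h1.mul (h3.pow (b + 1))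
      have h5 : DD [k + 1 + 1] x = DP (k + 2) [] x :=
        DD_eq (by omega) (Adm_cons (k := k + 1) Adm_nil) hx.1 hx.2
      have e : DD [k + 1] x * (2 * Real.pi - x) ^ (b + 1) -
          ((b : ℝ) + 1) * (DD [k + 1 + 1] x * (2 * Real.pi - x) ^ b) =
          DD [k + 1] x * (2 * Real.pi - x) ^ (b + 1) +
            DP (k + 2) [] x * (((b + 1 : ℕ) : ℝ) * (2 * Real.pi - x) ^ (b + 1 - 1) * -1) := by
        rw [h5, Nat.add_sub_cancel]
        push_cast
        ring
      rw [e]
      exact h4

/-- products of `A` with homogeneous polynomials, moments at `π / 3` -/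
theorem AP_p2 {n : ℕ} {P : ℝ → ℝ} (h : HP n P) : ∀ b : ℕ,
    ∫ x in (0 : ℝ)..(Real.pi / 3), A x * P x * (Real.pi / 3 - x) ^ b ∈ S1 (n + 1 + b + 1) := by
  induction h with
  | one =>
    intro b
    have h1 := (KK_A 0).2.2 b
    simpa using h1
  | @pi n P hP h =>
    intro b
    have h1 := S1_pi (h b)
    have e : ∫ x in (0 : ℝ)..(Real.pi / 3), A x * (Real.pi * P x) * (Real.pi / 3 - x) ^ b =
        Real.pi * ∫ x in (0 : ℝ)..(Real.pi / 3), A x * P x * (Real.pi / 3 - x) ^ b := by
      rw [← intervalIntegral.integral_const_mul]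
      congr 1
      funext x
      ring
    rw [e]
    have e2 : n + 1 + 1 + b + 1 = n + 1 + b + 1 + 1 := by ring
    rw [e2]
    exact h1
  | @th n P hP h =>
    intro b
    have hi : ∀ b, IntervalIntegrable (fun x => A x * P x * (Real.pi / 3 - x) ^ b) volume 0
        (Real.pi / 3) := fun b =>
      int_mulpow ((int_AA _ _).mul_continuousOn hP.cont.continuousOn) b
    have e : ∫ x in (0 : ℝ)..(Real.pi / 3), A x * (x * P x) * (Real.pi / 3 - x) ^ b =
        ((1 / 3 : ℚ) : ℝ) * (Real.pi * ∫ x in (0 : ℝ)..(Real.pi / 3),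
          A x * P x * (Real.pi / 3 - x) ^ b) -
        ∫ x in (0 : ℝ)..(Real.pi / 3), A x * P x * (Real.pi / 3 - x) ^ (b + 1) := by
      rw [← intervalIntegral.integral_const_mul, ← intervalIntegral.integral_const_mul,
        ← intervalIntegral.integral_sub (((hi b).const_mul _).const_mul _) (hi (b + 1))]
      congr 1
      funext x
      push_cast
      rw [pow_succ]
      ring
    rw [e]
    have h1 := rat_mem (1 / 3) (S1_pi (h b))
    have h2 := h (b + 1)
    have e2 : n + 1 + b + 1 + 1 = n + 1 + 1 + b + 1 := by ring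
    have e3 : n + 1 + (b + 1) + 1 = n + 1 + 1 + b + 1 := by ring
    rw [e2] at h1
    rw [e3] at h2
    exact (S1 _).sub_mem h1 h2
  | @add n P R hP hR h1 h2 =>
    intro b
    have i1 : IntervalIntegrable (fun x => A x * P x * (Real.pi / 3 - x) ^ b) volume 0
        (Real.pi / 3) := int_mulpow ((int_AA _ _).mul_continuousOn hP.cont.continuousOn) b
    have i2 : IntervalIntegrable (fun x => A x * R x * (Real.pi / 3 - x) ^ b) volume 0
        (Real.pi / 3) := int_mulpow ((int_AA _ _).mul_continuousOn hR.cont.continuousOn) b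
    have e : ∫ x in (0 : ℝ)..(Real.pi / 3), A x * (P x + R x) * (Real.pi / 3 - x) ^ b =
        (∫ x in (0 : ℝ)..(Real.pi / 3), A x * P x * (Real.pi / 3 - x) ^ b) +
        ∫ x in (0 : ℝ)..(Real.pi / 3), A x * R x * (Real.pi / 3 - x) ^ b := by
      rw [← intervalIntegral.integral_add i1 i2]
      congr 1
      funext x
      ring
    rw [e]
    exact (S1 _).add_mem (h1 b) (h2 b)
  | @smul n P q hP h =>
    intro b
    have e : ∫ x in (0 : ℝ)..(Real.pi / 3), A x * (q * P x) * (Real.pi / 3 - x) ^ b =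
        q * ∫ x in (0 : ℝ)..(Real.pi / 3), A x * P x * (Real.pi / 3 - x) ^ b := by
      rw [← intervalIntegral.integral_const_mul]
      congr 1
      funext x
      ring
    rw [e]
    exact rat_mem q (h b)

/-- products of `A` with homogeneous polynomials, moments at `2 π` -/
theorem AP_p3 {n : ℕ} {P : ℝ → ℝ} (h : HP n P) : ∀ b : ℕ, PZ (n + 1 + b)
    (∫ x in (0 : ℝ)..(2 * Real.pi), A x * P x * (2 * Real.pi - x) ^ b) := by
  induction h with
  | one =>
    intro b
    have h1 := M_mem b 0
    have e : ∫ x in (0 : ℝ)..(2 * Real.pi), DD [0 + 1] x * (2 * Real.pi - x) ^ b =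
        ∫ x in (0 : ℝ)..(2 * Real.pi), A x * 1 * (2 * Real.pi - x) ^ b := by
      refine int_congr_Ioo twopi_nonneg fun x hx => ?_
      rw [show DD [0 + 1] x = A x from DD_one_eq hx, mul_one]
    rw [e] at h1
    exact h1
  | @pi n P hP h =>
    intro b
    have h1 := (h b).pi
    have e : ∫ x in (0 : ℝ)..(2 * Real.pi), A x * (Real.pi * P x) * (2 * Real.pi - x) ^ b =
        Real.pi * ∫ x in (0 : ℝ)..(2 * Real.pi), A x * P x * (2 * Real.pi - x) ^ b := by
      rw [← intervalIntegral.integral_const_mul]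
      congr 1
      funext x
      ring
    rw [e]
    have e2 : n + 1 + 1 + b = n + 1 + b + 1 := by ring
    rw [e2]
    exact h1
  | @th n P hP h =>
    intro b
    have hi : ∀ b, IntervalIntegrable (fun x => A x * P x * (2 * Real.pi - x) ^ b) volume 0
        (2 * Real.pi) := fun b =>
      int_mulpow ((int_AA _ _).mul_continuousOn hP.cont.continuousOn) b
    have e : ∫ x in (0 : ℝ)..(2 * Real.pi), A x * (x * P x) * (2 * Real.pi - x) ^ b =
        ((2 : ℚ) : ℝ) * (Real.pi * ∫ x in (0 : ℝ)..(2 * Real.pi),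
          A x * P x * (2 * Real.pi - x) ^ b) -
        ∫ x in (0 : ℝ)..(2 * Real.pi), A x * P x * (2 * Real.pi - x) ^ (b + 1) := by
      rw [← intervalIntegral.integral_const_mul, ← intervalIntegral.integral_const_mul,
        ← intervalIntegral.integral_sub (((hi b).const_mul _).const_mul _) (hi (b + 1))]
      congr 1
      funext x
      push_cast
      rw [pow_succ]
      ring
    rw [e]
    have h1 := (h b).pi.smul 2
    have h2 := h (b + 1)
    have e2 : n + 1 + b + 1 = n + 1 + 1 + b := by ring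
    have e3 : n + 1 + (b + 1) = n + 1 + 1 + b := by ring
    rw [e2] at h1
    rw [e3] at h2
    exact h1.sub h2
  | @add n P R hP hR h1 h2 =>
    intro b
    have i1 : IntervalIntegrable (fun x => A x * P x * (2 * Real.pi - x) ^ b) volume 0
        (2 * Real.pi) := int_mulpow ((int_AA _ _).mul_continuousOn hP.cont.continuousOn) b
    have i2 : IntervalIntegrable (fun x => A x * R x * (2 * Real.pi - x) ^ b) volume 0
        (2 * Real.pi) := int_mulpow ((int_AA _ _).mul_continuousOn hR.cont.continuousOn) b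
    have e : ∫ x in (0 : ℝ)..(2 * Real.pi), A x * (P x + R x) * (2 * Real.pi - x) ^ b =
        (∫ x in (0 : ℝ)..(2 * Real.pi), A x * P x * (2 * Real.pi - x) ^ b) +
        ∫ x in (0 : ℝ)..(2 * Real.pi), A x * R x * (2 * Real.pi - x) ^ b := by
      rw [← intervalIntegral.integral_add i1 i2]
      congr 1
      funext x
      ring
    rw [e]
    exact (h1 b).add (h2 b)
  | @smul n P q hP h =>
    intro b
    have e : ∫ x in (0 : ℝ)..(2 * Real.pi), A x * (q * P x) * (2 * Real.pi - x) ^ b =
        q * ∫ x in (0 : ℝ)..(2 * Real.pi), A x * P x * (2 * Real.pi - x) ^ b := by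
      rw [← intervalIntegral.integral_const_mul]
      congr 1
      funext x
      ring
    rw [e]
    exact (h b).smul q

theorem GW_AP {n : ℕ} {P : ℝ → ℝ} (h : HP n P) : GW (n + 1) (fun x => A x * P x) := by
  refine ⟨continuousOn_A.mul h.cont.continuousOn,
    (int_AA _ _).mul_continuousOn h.cont.continuousOn, ?_, AP_p2 h, AP_p3 h⟩
  rw [A_pi3, zero_mul]
  exact (S1 _).zero_mem

/-! ### the constants at `0` -/

theorem cf_nil (k m : ℕ) : cf k [] m = 1 / ((m : ℝ) + 1) ^ k := by
  unfold cf
  rw [hs]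

theorem I_pow_odd {s : ℕ} (hs : Odd s) : ∃ e : ℝ, (e = 1 ∨ e = -1) ∧
    (-Complex.I) ^ s = (e : ℂ) * Complex.I := by
  obtain ⟨m, rfl⟩ := hs
  have h : (-Complex.I) ^ (2 * m + 1) = -((-1) ^ m * Complex.I) := by
    rw [pow_succ, pow_mul, neg_sq, Complex.I_sq]
    ring
  rcases neg_one_pow_eq_or ℂ m with h3 | h3
  · exact ⟨-1, Or.inr rfl, by rw [h, h3]; push_cast; ring⟩
  · exact ⟨1, Or.inl rfl, by rw [h, h3]; push_cast; ring⟩

theorem DP_zero_even {s : ℕ} (hs : Even s) (l : List ℕ) (hl : Even (s + l.sum)) :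
    DP s l 0 = 0 := by
  unfold DP
  rw [Phi_zero]
  have hs' : Even (s :: l).sum := by
    rw [List.sum_cons]
    exact hl
  obtain ⟨m, hm⟩ := hs'
  have h : (-Complex.I) ^ (s :: l).sum = (-1) ^ m := by
    rw [hm, ← two_mul, pow_mul, neg_sq, Complex.I_sq]
  rw [h]
  rcases neg_one_pow_eq_or ℂ m with h3 | h3
  · rw [h3, one_mul, Complex.ofReal_im]
  · rw [h3, neg_one_mul, Complex.neg_im, Complex.ofReal_im, neg_zero]

theorem cos_val (n : ℕ) : Real.cos ((n : ℝ) * (Real.pi / 3)) =
    1 / 2 - (if 2 ∣ n then 1 else 0) - 3 / 2 * (if 3 ∣ n then 1 else 0) +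
      3 * (if 6 ∣ n then 1 else 0) := by
  have h0 : ∀ n : ℕ, Real.cos (((n + 6 : ℕ) : ℝ) * (Real.pi / 3)) =
      Real.cos ((n : ℝ) * (Real.pi / 3)) := by
    intro n
    have : ((n + 6 : ℕ) : ℝ) * (Real.pi / 3) = (n : ℝ) * (Real.pi / 3) + 2 * Real.pi := by
      push_cast
      ring
    rw [this, Real.cos_add_two_pi]
  induction n using Nat.strong_induction_on with
  | _ n ih =>
    by_cases hn : 6 ≤ n
    · obtain ⟨m, rfl⟩ := Nat.exists_eq_add_of_le' hn
      rw [h0, ih m (by omega)]
      have e2 : (2 ∣ m + 6) = (2 ∣ m) := propext ⟨fun h => by omega, fun h => by omega⟩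
      have e3 : (3 ∣ m + 6) = (3 ∣ m) := propext ⟨fun h => by omega, fun h => by omega⟩
      have e6 : (6 ∣ m + 6) = (6 ∣ m) := propext ⟨fun h => by omega, fun h => by omega⟩
      simp only [e2, e3, e6]
    · have hc1 : Real.cos (Real.pi / 3) = 1 / 2 := Real.cos_pi_div_three
      have hc2 : Real.cos (2 * (Real.pi / 3)) = -(1 / 2) := by
        rw [Real.cos_two_mul, hc1]
        norm_num
      have hc3 : Real.cos (3 * (Real.pi / 3)) = -1 := by
        rw [show 3 * (Real.pi / 3) = Real.pi by ring, Real.cos_pi]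
      have hc4 : Real.cos (4 * (Real.pi / 3)) = -(1 / 2) := by
        rw [show 4 * (Real.pi / 3) = 2 * Real.pi - 2 * (Real.pi / 3) by ring,
          Real.cos_two_pi_sub, hc2]
      have hc5 : Real.cos (5 * (Real.pi / 3)) = 1 / 2 := by
        rw [show 5 * (Real.pi / 3) = 2 * Real.pi - Real.pi / 3 by ring,
          Real.cos_two_pi_sub, hc1]
      have h6 : n < 6 := by omega
      interval_cases n
      · norm_num
      · norm_num
      · norm_num
        rw [hc2]
      · norm_num
        rw [hc3]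
      · norm_num
        rw [hc4]
      · norm_num
        rw [hc5]

end Pool.Agent.MPc258
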