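import Mathlib
import Pool.Agent.Lib.MP_c25811_nt.Dep

/-!
# MP_c25811_nt: depth at most two, conclusion
-/

set_option autoImplicit false

open Set Filter Topology Metric MeasureTheory

namespace Pool.Agent.MPc258

theorem tsum_dvd (s : ℕ) {d : ℕ} (hd : 0 < d) :
    ∑' m : ℕ, (if d ∣ m + 1 then cf s [] m else 0) =
      (1 / (d : ℝ) ^ s) * ∑' m : ℕ, cf s [] m := by
  have hg : Function.Injective fun j : ℕ => d * (j + 1) - 1 := by
    intro a b h
    have h1 : d * (a + 1) - 1 = d * (b + 1) - 1 := h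
    have h2 : 0 < d * (a + 1) := by positivity
    have h3 : 0 < d * (b + 1) := by positivity
    have h4 : d * (a + 1) = d * (b + 1) := by omega
    have h5 := Nat.eq_of_mul_eq_mul_left hd h4
    omega
  have h1 := hg.tsum_eq (f := fun m : ℕ => if d ∣ m + 1 then cf s [] m else 0) ?_
  · rw [← h1, ← tsum_mul_left]
    refine tsum_congr fun j => ?_
    have h3 : 0 < d * (j + 1) := by positivity
    have e : d * (j + 1) - 1 + 1 = d * (j + 1) := by omega
    have e2 : ((d * (j + 1) - 1 : ℕ) : ℝ) + 1 = (d : ℝ) * ((j : ℝ) + 1) := by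
      have : ((d * (j + 1) - 1 + 1 : ℕ) : ℝ) = ((d * (j + 1) : ℕ) : ℝ) := by rw [e]
      push_cast at this
      exact this
    show (if d ∣ d * (j + 1) - 1 + 1 then cf s [] (d * (j + 1) - 1) else 0) = _
    rw [e, if_pos (Dvd.intro _ rfl), cf_nil, cf_nil, e2, mul_pow]
    have hd' : (d : ℝ) ≠ 0 := by exact_mod_cast hd.ne'
    field_simp
  · intro m hm
    have hm' : (if d ∣ m + 1 then cf s [] m else 0) ≠ 0 := hm
    have h2 : d ∣ m + 1 := by
      by_contra h
      rw [if_neg h] at hm'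
      exact hm' rfl
    obtain ⟨q, hq⟩ := h2
    have hq0 : 0 < q := by
      rcases Nat.eq_zero_or_pos q with h | h
      · rw [h, mul_zero] at hq
        omega
      · exact h
    refine ⟨q - 1, ?_⟩
    show d * (q - 1 + 1) - 1 = m
    have : q - 1 + 1 = q := by omega
    rw [this, ← hq]
    omega

theorem summable_if (s d : ℕ) (hs : 2 ≤ s) :
    Summable fun m : ℕ => if d ∣ m + 1 then cf s [] m else 0 := by
  refine Summable.of_nonneg_of_le (fun m => ?_) (fun m => ?_) (summable_cf' hs Adm_nil)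
  · split_ifs
    · exact cf_nonneg _ _ _
    · exact le_rfl
  · split_ifs
    · exact le_rfl
    · exact cf_nonneg _ _ _

theorem re_Phi (s : ℕ) (hs : 2 ≤ s) : (Phi s [] (Real.pi / 3)).re =
    (1 / 2 - 1 / 2 ^ s - 3 / 2 * (1 / 3 ^ s) + 3 * (1 / 6 ^ s)) * ∑' m : ℕ, cf s [] m := by
  have hS := summable_cf' (l := []) hs Adm_nil
  have hS' : Summable fun m : ℕ =>
      (cf s [] m : ℂ) * Complex.exp (((Real.pi / 3 : ℝ) : ℂ) * Complex.I) ^ (m + 1) := by
    refine Summable.of_norm_bounded hS fun m => ?_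
    rw [norm_mul, norm_pow, norm_exp', one_pow, mul_one, Complex.norm_real,
      Real.norm_of_nonneg (cf_nonneg s [] m)]
  unfold Phi
  rw [Complex.re_tsum hS']
  have e : ∀ m : ℕ, ((cf s [] m : ℂ) *
      Complex.exp (((Real.pi / 3 : ℝ) : ℂ) * Complex.I) ^ (m + 1)).re =
      1 / 2 * cf s [] m - (if 2 ∣ m + 1 then cf s [] m else 0) -
        3 / 2 * (if 3 ∣ m + 1 then cf s [] m else 0) +
        3 * (if 6 ∣ m + 1 then cf s [] m else 0) := by
    intro m
    have h1 : Complex.exp (((Real.pi / 3 : ℝ) : ℂ) * Complex.I) ^ (m + 1) =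
        Complex.exp (((((m + 1 : ℕ) : ℝ) * (Real.pi / 3) : ℝ) : ℂ) * Complex.I) := by
      rw [← Complex.exp_nat_mul]
      congr 1
      push_cast
      ring
    rw [h1, Complex.re_ofReal_mul, Complex.exp_ofReal_mul_I_re, cos_val]
    split_ifs <;> ring
  rw [tsum_congr e]
  have s2 := summable_if s 2 hs
  have s3 := summable_if s 3 hs
  have s6 := summable_if s 6 hs
  rw [Summable.tsum_add (((hS.mul_left _).sub s2).sub (s3.mul_left _)) (s6.mul_left _),
    Summable.tsum_sub ((hS.mul_left _).sub s2) (s3.mul_left _),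
    Summable.tsum_sub (hS.mul_left _) s2, tsum_mul_left, tsum_mul_left, tsum_mul_left,
    tsum_dvd s (by norm_num), tsum_dvd s (by norm_num), tsum_dvd s (by norm_num)]
  push_cast
  ring

/-- the constants are in the span of depth one -/
theorem const_one {k : ℕ} (h : GW (k + 1) (DD [k + 1])) : DP (k + 2) [] 0 ∈ S1 (k + 2) := by
  rcases Nat.even_or_odd (k + 2) with he | ho
  · rw [DP_zero_even he [] (by simpa using he)]
    exact (S1 _).zero_mem
  · obtain ⟨e, -, hI⟩ := I_pow_odd ho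
    have hsum : ((k + 2) :: ([] : List ℕ)).sum = k + 2 := by simp
    set z := ∑' m : ℕ, cf (k + 2) [] m with hz
    have h0 : DP (k + 2) [] 0 = e * z := by
      unfold DP
      rw [Phi_zero, hsum, hI, ← hz]
      simp
    have h1 : DP (k + 2) [] (Real.pi / 3) = e * (Phi (k + 2) [] (Real.pi / 3)).re := by
      unfold DP
      rw [hsum, hI, mul_assoc, Complex.im_ofReal_mul, Complex.I_mul_im]
    rw [re_Phi (k + 2) (by omega), ← hz] at h1
    have h2 := DD_prim (k := k) Adm_nil (DD_int1 k) _ mem_pi3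
    rw [DD_eq (by omega) (Adm_cons (k := k + 1) Adm_nil) mem_pi3.1 mem_pi3.2, h1, h0] at h2
    have h3 : J (DD [k + 1]) (Real.pi / 3) ∈ S1 (k + 1 + 1) := h.J.p1
    set q : ℚ := 1 / 2 - 1 / 2 ^ (k + 2) - 3 / 2 * (1 / 3 ^ (k + 2)) + 3 * (1 / 6 ^ (k + 2)) - 1
      with hq
    have hqc : (q : ℝ) = 1 / 2 - 1 / 2 ^ (k + 2) - 3 / 2 * (1 / 3 ^ (k + 2)) +
        3 * (1 / 6 ^ (k + 2)) - 1 := by
      rw [hq]
      push_cast
      ring
    have h4 : J (DD [k + 1]) (Real.pi / 3) = q * (e * z) := by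
      rw [hqc]
      linarith
    have hq0 : q ≠ 0 := by
      have h5 : q < 0 := by
        have h6 : (1 : ℚ) / 6 ^ (k + 2) ≤ 1 / 36 := by
          refine one_div_le_one_div_of_le (by norm_num) ?_
          have h9 : (6 : ℚ) ^ 2 ≤ 6 ^ (k + 2) := pow_le_pow_right₀ (by norm_num) (by omega)
          linarith
        have h7 : (0 : ℚ) < 1 / 2 ^ (k + 2) := by positivity
        have h8 : (0 : ℚ) < 1 / 3 ^ (k + 2) := by positivity
        rw [hq]
        linarith
      exact h5.ne
    rw [h4] at h3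
    have h5 := rat_mem (1 / q) h3
    have h6 : ((1 / q : ℚ) : ℝ) * (q * (e * z)) = e * z := by
      push_cast
      have : (q : ℝ) ≠ 0 := by exact_mod_cast hq0
      field_simp
    rw [h6, ← h0] at h5
    exact h5

theorem GW_DD1 : ∀ k : ℕ, GW (k + 1) (DD [k + 1]) := by
  intro k
  induction k with
  | zero =>
    refine (GW_AP HP.one).congr fun x hx => ?_
    rw [mul_one]
    exact (DD_one_eq hx).symm
  | succ k ih =>
    have h1 : DP (k + 2) [] 0 ∈ Zs (k + 2) := by
      have := Zs_mem 0 (k + 2) (by omega)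
      rw [zero_add, pow_zero, one_mul] at this
      exact this
    have h2 := (GW_const (const_one ih) h1).add ih.J
    exact h2.congr fun x hx => (DD_prim (k := k) Adm_nil (DD_int1 k) x hx).symm

theorem Zs_le (k : ℕ) : Zs k ≤ S1 k := by
  unfold Zs
  rw [Submodule.span_le]
  rintro x ⟨m, s, hs, rfl, rfl⟩
  obtain ⟨j, rfl⟩ := Nat.exists_eq_add_of_le' hs
  have h := S1_pi_pow (const_one (GW_DD1 j)) m
  have e : j + 2 + m = m + (j + 2) := by ring
  rw [e] at h
  exact h

/-- the polynomials of depth one with their derivatives -/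
theorem GG_poly' : ∀ a : ℕ, ∃ P P1 : ℝ → ℝ, HP (a + 1) P ∧ HP a P1 ∧
    ∀ x ∈ Ioo 0 (2 * Real.pi), GG [a + 1] x = P x ∧ HasDerivAt (GG [a + 1]) (P1 x) x := by
  intro a
  obtain ⟨P, hP, hPe⟩ := GG_poly a
  cases a with
  | zero =>
    refine ⟨P, _, hP, HP_const 0 (-1 / 2), fun x hx => ⟨hPe x hx, ?_⟩⟩
    have h := GG_one Adm_nil hx.1 hx.2
    rw [DD_nil hx.1 hx.2, GG_nil hx.1 hx.2] at h
    have e : -A' x * 0 - 1 / 2 * 1 = (((-1 / 2 : ℚ) : ℝ)) * Real.pi ^ 0 := by
      push_cast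
      ring
    rw [e] at h
    exact h
  | succ a =>
    obtain ⟨P1, hP1, hPe1⟩ := GG_poly a
    refine ⟨P, P1, hP, hP1, fun x hx => ⟨hPe x hx, ?_⟩⟩
    have h := GG_succ (k := a) Adm_nil hx.1 hx.2
    rw [hPe1 x hx] at h
    exact h

theorem GW_DD2 : ∀ b a : ℕ, GW (b + 1 + (a + 1)) (DD [b + 1, a + 1]) := by
  intro b
  induction b with
  | zero =>
    intro a
    obtain ⟨P, P1, hP, hP1, hPe⟩ := GG_poly' a
    have hadm : Adm [a + 1] := Adm_cons Adm_nil
    have g1 : GW (a + 1 + 1) (fun x => A x * GG [a + 1] x) :=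
      (GW_AP hP).congr fun x hx => by rw [(hPe x hx).1]
    have g2 := GW_AP hP1
    have g3 := g2.J
    have g4 := (GW_DD1 a).J
    have g5 := (g1.add (g3.smul (-1))).add (g4.smul (-1 / 2))
    obtain ⟨c, hc⟩ := eq_add_const (f := DD [1, a + 1])
      (g := fun x => A x * GG [a + 1] x + ((-1 : ℚ) : ℝ) * J (fun x => A x * P1 x) x +
        ((-1 / 2 : ℚ) : ℝ) * J (DD [a + 1]) x)
      (d := fun x => A' x * GG [a + 1] x - 1 / 2 * DD [a + 1] x)
      (fun x hx => DD_one hadm hx.1 hx.2)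
      (fun x hx => by
        have h1 := (hasDerivAt_A hx.1 hx.2).mul (hPe x hx).2
        have h2 := (J_deriv g2.int g2.cont hx).const_mul ((-1 : ℚ) : ℝ)
        have h3 := (J_deriv (GW_DD1 a).int (GW_DD1 a).cont hx).const_mul ((-1 / 2 : ℚ) : ℝ)
        have h4 := (h1.add h2).add h3
        have e : A' x * GG [a + 1] x - 1 / 2 * DD [a + 1] x =
            A' x * GG [a + 1] x + A x * P1 x + ((-1 : ℚ) : ℝ) * (A x * P1 x) +
              ((-1 / 2 : ℚ) : ℝ) * DD [a + 1] x := by
          push_cast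
          ring
        rw [e]
        exact h4)
    have hint : IntervalIntegrable (DD [1, a + 1]) volume 0 (2 * Real.pi) := by
      refine intble_congr twopi_nonneg
        ((intervalIntegrable_const (c := c)).add g5.int) fun x hx => ?_
      exact (hc x hx).symm
    have hz := mean_zero (k := 0) (l := [a + 1]) hadm hint
    have e1 := int_congr_Ioo twopi_nonneg hc
    rw [e1] at hz
    have hcZ := const_mem g5 hz
    have g6 := (GW_const (Zs_le _ hcZ) hcZ).add g5
    have g7 := g6.congr (g := DD [1, a + 1]) fun x hx => (hc x hx).symm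
    have e2 : a + 1 + 1 = 0 + 1 + (a + 1) := by ring
    rw [e2] at g7
    exact g7
  | succ b ih =>
    intro a
    have hadm : Adm [a + 1] := Adm_cons Adm_nil
    have h1 := ih a
    have hprim := DD_prim (k := b) hadm h1.int
    have hint := DD_int_succ b hadm
    have hz := mean_zero (k := b + 1) hadm hint
    have e1 := int_congr_Ioo twopi_nonneg hprim
    have e2 : ∫ x in (0 : ℝ)..(2 * Real.pi), DD ((b + 1 + 1) :: [a + 1]) x =
        ∫ x in (0 : ℝ)..(2 * Real.pi),
          (DP (b + 2) [a + 1] 0 + J (DD ((b + 1) :: [a + 1])) x) := e1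
    rw [e2] at hz
    have hcZ := const_mem h1.J hz
    have g6 := (GW_const (Zs_le _ hcZ) hcZ).add h1.J
    have g7 := g6.congr (g := DD [b + 1 + 1, a + 1]) fun x hx => (hprim x hx).symm
    have e3 : b + 1 + (a + 1) + 1 = b + 1 + 1 + (a + 1) := by ring
    rw [e3] at g7
    exact g7

theorem DD_pi3 (l : List ℕ) : DD l (Real.pi / 3) = ((-Complex.I) ^ l.sum * V l rho).im := rfl

/-- depth at most two -/
theorem depth_le_two {l : List ℕ} (hl : Adm l) (h : l.length ≤ 2) : Cl l ∈ S1 l.sum := by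
  have key : DD l (Real.pi / 3) ∈ S1 l.sum := by
    match l, hl, h with
    | [], _, _ =>
      rw [DD_nil mem_pi3.1 mem_pi3.2]
      exact (S1 _).zero_mem
    | [a], hl, _ =>
      have ha : 1 ≤ a := hl a List.mem_cons_self
      obtain ⟨j, rfl⟩ := Nat.exists_eq_add_of_le' ha
      have := (GW_DD1 j).p1
      simpa using this
    | [b, a], hl, _ =>
      have hb : 1 ≤ b := hl b List.mem_cons_self
      have ha : 1 ≤ a := hl a (by simp)
      obtain ⟨i, rfl⟩ := Nat.exists_eq_add_of_le' hb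
      obtain ⟨j, rfl⟩ := Nat.exists_eq_add_of_le' ha
      have := (GW_DD2 i j).p1
      simpa using this
    | (_ :: _ :: _ :: _), _, h => simp at h
  rw [DD_pi3] at key
  rcases Cl_eq l with h4 | h4
  · rw [h4]
    exact key
  · rw [h4]
    exact (S1 _).neg_mem key

/-- the family `S^o_{k,d}` -/
def So (k d : ℕ) : Set ℝ :=
  {x | ∃ (m : ℕ) (ks : List ℕ), Odd ks.length ∧ ks.length ≤ d ∧ (∀ j ∈ ks, 2 ≤ j) ∧
    m + ks.sum = k ∧ x = Real.pi ^ m * SLs ks}

theorem So_sub_CS (k d : ℕ) : So k d ⊆ CS k := by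
  rintro x ⟨m, ks, h1, -, h2, rfl, rfl⟩
  exact pi_SLs_mem m h2 h1

theorem S1_eq (k : ℕ) : S1 k = Submodule.span ℚ (So k 1) := by
  unfold S1
  congr 1
  ext x
  constructor
  · rintro ⟨m, j, hj, h, rfl⟩
    exact ⟨m, [j], by simp, by simp, by simpa using hj, by simpa using h, rfl⟩
  · rintro ⟨m, ks, h1, h2, h3, h4, rfl⟩
    have h5 : ks.length = 1 := by
      rcases h1 with ⟨r, hr⟩
      omega
    obtain ⟨j, rfl⟩ := List.length_eq_one_iff.1 h5
    exact ⟨m, j, h3 j (by simp), by simpa using h4, rfl⟩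

theorem So_mono (k : ℕ) {d d' : ℕ} (h : d ≤ d') : So k d ⊆ So k d' := by
  rintro x ⟨m, ks, h1, h2, h3⟩
  exact ⟨m, ks, h1, h2.trans h, h3⟩

theorem low_weight (k : ℕ) (hk : k ≤ 5) :
    Submodule.span ℚ (So k 1) = CS k ∧ Submodule.span ℚ (So k k) = CS k := by
  have h1 : CS k ≤ Submodule.span ℚ (So k 1) := by
    rw [← S1_eq]
    unfold CS
    rw [Submodule.span_le]
    rintro x ⟨l, hl, rfl, rfl⟩
    by_cases h : l.length ≤ 2
    · exact depth_le_two hl h
    · exact codepth_le_two hl (by omega)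
  have h2 : ∀ d, Submodule.span ℚ (So k d) ≤ CS k := fun d => by
    rw [Submodule.span_le]
    exact So_sub_CS k d
  refine ⟨le_antisymm (h2 1) h1, le_antisymm (h2 k) ?_⟩
  rcases Nat.eq_zero_or_pos k with h0 | h0
  · subst h0
    have h3 : So 0 1 ⊆ So 0 0 := by
      rintro x ⟨m, ks, h1, h2, h3, h4, h5⟩
      have h6 : ks.sum = 0 := by omega
      have h7 : ks.length = 1 := by
        rcases h1 with ⟨r, hr⟩
        omega
      obtain ⟨j, rfl⟩ := List.length_eq_one_iff.1 h7
      have h8 := h3 j (by simp)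
      simp at h6
      omega
    exact h1.trans (Submodule.span_mono h3)
  · exact h1.trans (Submodule.span_mono (So_mono k h0))

end Pool.Agent.MPc258
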