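import Mathlib
import Pool.Agent.Lib.MP_c25811_nt.Dep2

/-!
# MP_c25811_nt: the statements in terms of limits
-/

set_option autoImplicit false

open Set Filter Topology Metric MeasureTheory

namespace Pool.Agent.MPc258

/-- `v` is the value at `exp (i π / 3)` of the multiple polylogarithm with the index `l`: the
limit from inside the unit disc -/
def IsVal (l : List ℕ) (v : ℂ) : Prop :=
  Tendsto (Li l) (𝓝[ball 0 1] (Complex.exp ((Real.pi / 3 : ℝ) * Complex.I))) (𝓝 v)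

/-- the Clausen part of a value of weight `k` -/
noncomputable def clp (k : ℕ) (v : ℂ) : ℝ := if Even k then v.im else v.re

/-- the space `C_k` -/
noncomputable def Ck (k : ℕ) : Submodule ℚ ℝ :=
  Submodule.span ℚ {x | ∃ (l : List ℕ) (v : ℂ), (∀ j ∈ l, 1 ≤ j) ∧ l.sum = k ∧ IsVal l v ∧
    x = clp k v}

theorem isVal_V {l : List ℕ} (hl : Adm l) : IsVal l (V l rho) :=
  tendsto_V norm_rho rho_ne_one hl

theorem isVal_unique {l : List ℕ} {v : ℂ} (hl : Adm l) (hv : IsVal l v) : v = V l rho := by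
  have h : (𝓝[ball (0 : ℂ) 1] (Complex.exp ((Real.pi / 3 : ℝ) * Complex.I))).NeBot :=
    neBot_circle norm_rho
  exact tendsto_nhds_unique hv (isVal_V hl)

theorem clp_V {l : List ℕ} : clp l.sum (V l rho) = Cl l := rfl

theorem Ck_eq (k : ℕ) : Ck k = CS k := by
  unfold Ck CS
  congr 1
  ext x
  constructor
  · rintro ⟨l, v, h1, h2, h3, rfl⟩
    refine ⟨l, h1, h2, ?_⟩
    rw [isVal_unique h1 h3, ← h2, clp_V]
  · rintro ⟨l, h1, h2, rfl⟩
    exact ⟨l, V l rho, h1, h2, isVal_V h1, by rw [← h2, clp_V]⟩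

theorem members (m : ℕ) (ks : List ℕ) (ho : Odd ks.length) (h : ∀ j ∈ ks, 2 ≤ j) :
    Real.pi ^ m * SLs ks ∈ Ck (m + ks.sum) := by
  rw [Ck_eq]
  exact pi_SLs_mem m h ho

theorem low_depth (l : List ℕ) (hl : ∀ j ∈ l, 1 ≤ j) (h : l.length ≤ 2 ∨ l.sum ≤ l.length + 2) :
    ∃ v : ℂ, IsVal l v ∧ clp l.sum v ∈ Submodule.span ℚ (So l.sum 1) := by
  refine ⟨V l rho, isVal_V hl, ?_⟩
  rw [← S1_eq, clp_V]
  rcases h with h | h
  · exact depth_le_two hl h
  · exact codepth_le_two hl h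

theorem low_weight' (k : ℕ) (hk : k ≤ 5) : Submodule.span ℚ (So k k) = Ck k := by
  rw [Ck_eq]
  exact (low_weight k hk).2

end Pool.Agent.MPc258
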